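import Mathlib

/-!
# Packing several linear equations into one
-/

set_option autoImplicit false

namespace Pool.Agent.H355.OE

theorem decode {m : ℕ} {B : ℤ} (z : Fin m → ℤ) (Z : ℤ) (hB : 0 < B) (hz : ∀ l, 2 * |z l| < B)
    (h : B ^ m * Z + ∑ l : Fin m, B ^ (l : ℕ) * z l = 0) : Z = 0 ∧ ∀ l, z l = 0 := by
  induction m with
  | zero =>
    simp only [pow_zero, one_mul, Finset.univ_eq_empty, Finset.sum_empty, add_zero] at h
    exact ⟨h, fun l => l.elim0⟩
  | succ m ih =>
    rw [Fin.sum_univ_succ] at h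
    simp only [Fin.val_zero, pow_zero, one_mul, Fin.val_succ] at h
    have h1 : z 0 + B * (B ^ m * Z + ∑ l : Fin m, B ^ (l : ℕ) * z l.succ) = 0 := by
      rw [← h, mul_add, Finset.mul_sum]
      have : ∀ l : Fin m, B * (B ^ (l : ℕ) * z l.succ) = B ^ ((l : ℕ) + 1) * z l.succ := by
        intro l
        ring
      simp only [this]
      ring
    have h2 : z 0 = 0 := by
      apply Int.eq_zero_of_abs_lt_dvd (m := B)
      · exact ⟨-(B ^ m * Z + ∑ l : Fin m, B ^ (l : ℕ) * z l.succ), by linarith⟩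
      · have := hz 0
        have := abs_nonneg (z 0)
        linarith
    rw [h2, zero_add] at h1
    obtain ⟨h3, h4⟩ := ih (fun l => z l.succ) (fun l => hz _)
      ((mul_eq_zero.1 h1).resolve_left hB.ne')
    refine ⟨h3, fun l => ?_⟩
    induction l using Fin.cases with
    | zero => exact h2
    | succ l => exact h4 l

section

variable {q m : ℕ} (α γ : Fin m → Fin q → ℤ) (c : Fin m → ℤ) (B D : ℤ)

/-- the exponents of the first entries -/
def ep (p : Fin q) : ℤ := B ^ m + ∑ l : Fin m, B ^ (l : ℕ) * α l p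

/-- the index -/
def ix : ℤ := B ^ m * D + ∑ l : Fin m, B ^ (l : ℕ) * c l

variable {α γ c B D} {H : ℤ} (hH : 1 ≤ H) (hD : 1 ≤ D) (hB : 8 * H * (D + 1) ≤ B)

include hH hD hB in
theorem four_lt : 4 * H ≤ B - 1 := by
  nlinarith

theorem sum_pow (hB2 : 4 * H ≤ B - 1) (hH : 1 ≤ H) (m : ℕ) :
    4 * H * ∑ l : Fin m, B ^ (l : ℕ) < B ^ m := by
  have h0 : ∀ m : ℕ, 0 ≤ ∑ l : Fin m, B ^ (l : ℕ) := by
    intro m
    apply Finset.sum_nonneg
    intro l _
    have : 0 ≤ B := by linarith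
    positivity
  have h1 : (B - 1) * ∑ l : Fin m, B ^ (l : ℕ) = B ^ m - 1 := by
    rw [Fin.sum_univ_eq_sum_range (fun i => B ^ i) m, mul_comm]
    exact geom_sum_mul B m
  have h2 := mul_le_mul_of_nonneg_right hB2 (h0 m)
  linarith

theorem abs_sum_le (hB0 : 0 ≤ B) {X : ℤ} (x : Fin m → ℤ) (hx : ∀ l, |x l| ≤ X) :
    |∑ l : Fin m, B ^ (l : ℕ) * x l| ≤ X * ∑ l : Fin m, B ^ (l : ℕ) := by
  refine (Finset.abs_sum_le_sum_abs _ _).trans ?_
  rw [Finset.mul_sum]
  apply Finset.sum_le_sum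
  intro l _
  rw [abs_mul, abs_of_nonneg (pow_nonneg hB0 _), mul_comm X]
  exact mul_le_mul_of_nonneg_left (hx l) (pow_nonneg hB0 _)

include hH hD hB in
theorem one_le_ep (hα : ∀ l p, |α l p| ≤ H) (p : Fin q) : 1 ≤ ep α B p := by
  have h4 := four_lt hH hD hB
  have h1 := sum_pow h4 hH m
  have h2 := abs_sum_le (B := B) (by linarith) (fun l => α l p) (fun l => hα l p)
  have h3 := neg_abs_le (∑ l : Fin m, B ^ (l : ℕ) * α l p)
  rw [ep]
  have h5 : 0 ≤ H * ∑ l : Fin m, B ^ (l : ℕ) := le_trans (abs_nonneg _) h2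
  linarith

include hH hD hB in
theorem ix_bounds (hc : ∀ l, |c l| ≤ H) : 0 ≤ ix c B D ∧ ix c B D ≤ B ^ (m + 1) := by
  have h4 := four_lt hH hD hB
  have h1 := sum_pow h4 hH m
  have h2 := abs_sum_le (B := B) (by linarith) c hc
  have h3 := neg_abs_le (∑ l : Fin m, B ^ (l : ℕ) * c l)
  have h3' := le_abs_self (∑ l : Fin m, B ^ (l : ℕ) * c l)
  have h5 : 0 ≤ H * ∑ l : Fin m, B ^ (l : ℕ) := le_trans (abs_nonneg _) h2
  have h6 : 0 ≤ B ^ m := pow_nonneg (by linarith) m
  have h7 : D + 1 ≤ B := by nlinarith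
  have h8 : B ^ m * 1 ≤ B ^ m * D := mul_le_mul_of_nonneg_left hD h6
  have h9 : B ^ m * (D + 1) ≤ B ^ m * B := mul_le_mul_of_nonneg_left h7 h6
  rw [ix, pow_succ]
  constructor
  · linarith
  · rw [mul_add, mul_one] at h9
    linarith

theorem pack_identity (v : Fin q → ℕ × ℕ) :
    ∑ p, (ep α B p * (v p).1 + ep γ B p * (v p).2) - ix c B D =
      B ^ m * (∑ p, (((v p).1 : ℤ) + (v p).2) - D) +
        ∑ l : Fin m, B ^ (l : ℕ) * (∑ p, (α l p * (v p).1 + γ l p * (v p).2) - c l) := by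
  simp only [ep, ix, mul_sub, Finset.sum_sub_distrib, Finset.mul_sum, add_mul, mul_add,
    Finset.sum_add_distrib, Finset.sum_mul]
  rw [Finset.sum_comm (f := fun (l : Fin m) (p : Fin q) =>
      B ^ (l : ℕ) * (α l p * ((v p).1 : ℤ))),
    Finset.sum_comm (f := fun (l : Fin m) (p : Fin q) => B ^ (l : ℕ) * (γ l p * ((v p).2 : ℤ)))]
  simp only [mul_assoc]
  ring

include hH hD hB in
/-- the packed equation is equivalent to the equations and the equation for the total sum -/
theorem pack (hα : ∀ l p, |α l p| ≤ H) (hγ : ∀ l p, |γ l p| ≤ H) (hc : ∀ l, |c l| ≤ H)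
    (v : Fin q → ℕ × ℕ) :
    ∑ p, (ep α B p * (v p).1 + ep γ B p * (v p).2) = ix c B D ↔
      (∑ p, (((v p).1 : ℤ) + (v p).2) = D ∧
        ∀ l, ∑ p, (α l p * (v p).1 + γ l p * (v p).2) = c l) := by
  have h4 := four_lt hH hD hB
  have h1 := sum_pow h4 hH m
  rw [← sub_eq_zero, pack_identity]
  set N : ℤ := ∑ p, (((v p).1 : ℤ) + (v p).2) with hN
  set z : Fin m → ℤ := fun l => ∑ p, (α l p * (v p).1 + γ l p * (v p).2) - c l with hz
  have hN0 : 0 ≤ N := Finset.sum_nonneg (fun p _ => by positivity)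
  have hzl : ∀ l, |z l| ≤ H * (N + 1) := by
    intro l
    have h5 : |∑ p, (α l p * (v p).1 + γ l p * (v p).2)| ≤ H * N := by
      refine (Finset.abs_sum_le_sum_abs _ _).trans ?_
      rw [hN, Finset.mul_sum]
      apply Finset.sum_le_sum
      intro p _
      refine (abs_add_le _ _).trans ?_
      rw [abs_mul, abs_mul, Nat.abs_cast, Nat.abs_cast, mul_add]
      exact add_le_add (mul_le_mul_of_nonneg_right (hα l p) (Int.natCast_nonneg _))
        (mul_le_mul_of_nonneg_right (hγ l p) (Int.natCast_nonneg _))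
    have h6 := abs_sub (∑ p, (α l p * (v p).1 + γ l p * (v p).2)) (c l)
    have h7 := hc l
    rw [mul_add, mul_one]
    exact h6.trans (add_le_add h5 h7)
  constructor
  · intro h
    have h2 := abs_sum_le (B := B) (by linarith) z hzl
    have h3 := neg_abs_le (∑ l : Fin m, B ^ (l : ℕ) * z l)
    have hBm : 0 < B ^ m := pow_pos (by linarith) m
    have h5 : 4 * (B ^ m * (N - D)) ≤ (N + 1) * B ^ m := by
      have h6 : B ^ m * (N - D) ≤ H * (N + 1) * ∑ l : Fin m, B ^ (l : ℕ) := by linarith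
      have h7 : (N + 1) * (4 * H * ∑ l : Fin m, B ^ (l : ℕ)) ≤ (N + 1) * B ^ m :=
        mul_le_mul_of_nonneg_left h1.le (by linarith)
      linarith
    have h6 : 4 * (N - D) ≤ N + 1 := by
      by_contra hc2
      push Not at hc2
      have := mul_lt_mul_of_pos_right hc2 hBm
      linarith
    have h7 : N + 1 ≤ 2 * (D + 1) := by linarith
    have h8 : ∀ l, 2 * |z l| < B := by
      intro l
      have h9 := hzl l
      have h10 : H * (N + 1) ≤ H * (2 * (D + 1)) := mul_le_mul_of_nonneg_left h7 (by linarith)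
      have h11 : 0 < H * (D + 1) := by positivity
      linarith
    obtain ⟨h9, h10⟩ := decode z (N - D) (by linarith) h8 h
    exact ⟨by linarith, fun l => by have := h10 l; simp only [hz] at this; linarith⟩
  · rintro ⟨h2, h3⟩
    have h5 : ∀ l, ∑ p, (α l p * (v p).1 + γ l p * (v p).2) - c l = 0 := fun l => by
      rw [h3 l, sub_self]
    simp only [h5, h2, sub_self, mul_zero, Finset.sum_const_zero, add_zero]

end

end Pool.Agent.H355.OE
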