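import Mathlib

/-!
# Reading off the parity of a coefficient of a rational function

`cc e f i` is the sum of the products of the binomial coefficients `(a p).choose (b p)` over all
tuples of pairs `(a p, b p)` with index `∑ e p * a p + f p * b p = i`.
-/

set_option autoImplicit false

namespace Pool.Agent.H355.OE

theorem floor_unique {X : ℝ} {a b : ℤ} (h1 : (a : ℝ) ≤ X) (h2 : X < a + 1) (h3 : (b : ℝ) ≤ X)
    (h4 : X < b + 1) : a = b := by
  have h5 : (a : ℝ) < b + 1 := lt_of_le_of_lt h1 h4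
  have h6 : (b : ℝ) < a + 1 := lt_of_le_of_lt h3 h2
  have h7 : a < b + 1 := by exact_mod_cast h5
  have h8 : b < a + 1 := by exact_mod_cast h6
  omega

/-- the parity of the digit with index `I` -/
theorem parity_digit {c : ℕ → ℤ} (hc : ∀ i, 0 ≤ c i) {M : ℕ} (hMe : Even M) {G : ℝ}
    (h1 : HasSum (fun i => (c i : ℝ) * ((M : ℝ)⁻¹) ^ i) G) (I g B : ℕ)
    (hb : ∀ j, c (j + (I + 1)) ≤ (B : ℤ) * (2 ^ g) ^ (j + 1)) (hM : (B + 1) * 2 ^ g < M) :
    (∃ J : ℤ, (2 * J + 1 : ℝ) ≤ M ^ I * G ∧ M ^ I * G < 2 * J + 1 + 1) ↔ Odd (c I) := by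
  have hMr : (0 : ℝ) < M := by
    have : 0 < M := by omega
    exact_mod_cast this
  have h2 := (hasSum_nat_add_iff' (I + 1)).2 h1
  have h3 := h2.mul_left ((M : ℝ) ^ I)
  set τ := (M : ℝ) ^ I * (G - ∑ i ∈ Finset.range (I + 1), (c i : ℝ) * ((M : ℝ)⁻¹) ^ i)
    with hτ
  have h0 : 0 ≤ τ := h3.nonneg (fun j => by
    have h4 : (0 : ℝ) ≤ c (j + (I + 1)) := by exact_mod_cast hc _
    positivity)
  set ρ : ℝ := 2 ^ g / M with hρ
  have hMl : ((B : ℝ) + 1) * 2 ^ g < M := by exact_mod_cast hM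
  have hB0 : (0 : ℝ) ≤ B := Nat.cast_nonneg B
  have hρ1 : ρ < 1 := by
    rw [hρ, div_lt_one hMr]
    have h4 : (0 : ℝ) < 2 ^ g := by positivity
    nlinarith
  have hρ0 : 0 < ρ := by positivity
  have h5 := ((hasSum_geometric_of_lt_one hρ0.le hρ1).mul_left (B * ρ))
  have h6 : τ ≤ B * ρ * (1 - ρ)⁻¹ := by
    refine hasSum_le (fun j => ?_) h3 h5
    have h8 : (c (j + (I + 1)) : ℝ) ≤ B * (2 ^ g) ^ (j + 1) := by exact_mod_cast hb j
    have h13 : (M : ℝ) ^ I * ((c (j + (I + 1)) : ℝ) * ((M : ℝ)⁻¹) ^ (j + (I + 1))) =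
        (c (j + (I + 1)) : ℝ) * ((M : ℝ)⁻¹) ^ (j + 1) := by
      rw [show j + (I + 1) = (j + 1) + I by ring, pow_add _ (j + 1) I]
      have : (M : ℝ) ^ I * ((M : ℝ)⁻¹) ^ I = 1 := by
        rw [← mul_pow, mul_inv_cancel₀ hMr.ne', one_pow]
      linear_combination ((c (j + 1 + I) : ℝ) * ((M : ℝ)⁻¹) ^ (j + 1)) * this
    rw [h13]
    calc (c (j + (I + 1)) : ℝ) * ((M : ℝ)⁻¹) ^ (j + 1)
        ≤ (B * (2 ^ g) ^ (j + 1)) * ((M : ℝ)⁻¹) ^ (j + 1) :=
          mul_le_mul_of_nonneg_right h8 (by positivity)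
      _ = B * ρ * ρ ^ j := by
          rw [hρ, mul_assoc _ _ ((2 ^ g / (M : ℝ)) ^ j), ← pow_succ', div_pow, inv_pow]
          ring
  have h7 : τ < 1 := by
    refine lt_of_le_of_lt h6 ?_
    rw [← div_eq_mul_inv, div_lt_one (by linarith)]
    rw [hρ]
    rw [← sub_pos]
    have h8 : 1 - 2 ^ g / (M : ℝ) - B * (2 ^ g / M) = (M - (B + 1) * 2 ^ g) / M := by
      field_simp
      ring
    rw [h8]
    apply div_pos _ hMr
    linarith
  -- the integral part
  set Z : ℤ := ∑ i ∈ Finset.range I, c i * (M : ℤ) ^ (I - 1 - i) with hZ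
  have h8 : (M : ℝ) ^ I * G = Z * M + c I + τ := by
    have h9 : (M : ℝ) ^ I * ∑ i ∈ Finset.range (I + 1), (c i : ℝ) * ((M : ℝ)⁻¹) ^ i =
        Z * M + c I := by
      rw [Finset.sum_range_succ, mul_add, hZ]
      push_cast
      rw [Finset.mul_sum, Finset.sum_mul]
      congr 1
      · apply Finset.sum_congr rfl
        intro i hi
        rw [Finset.mem_range] at hi
        have h10 : (M : ℝ) ^ I = (M : ℝ) ^ (I - 1 - i) * M * (M : ℝ) ^ i := by
          rw [← pow_succ, ← pow_add]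
          congr 1
          omega
        have h11 : (M : ℝ) ^ i * ((M : ℝ)⁻¹) ^ i = 1 := by
          rw [← mul_pow, mul_inv_cancel₀ hMr.ne', one_pow]
        rw [h10]
        linear_combination ((c i : ℝ) * ((M : ℝ) ^ (I - 1 - i) * M)) * h11
      · have h11 : (M : ℝ) ^ I * ((M : ℝ)⁻¹) ^ I = 1 := by
          rw [← mul_pow, mul_inv_cancel₀ hMr.ne', one_pow]
        linear_combination (c I : ℝ) * h11
    rw [hτ, mul_sub, h9]
    ring
  obtain ⟨M', hM'⟩ := hMe
  constructor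
  · rintro ⟨J, h9, h10⟩
    have h11 : 2 * J + 1 = Z * M + c I := by
      apply floor_unique (X := (M : ℝ) ^ I * G)
      · push_cast; exact h9
      · push_cast; exact h10
      · push_cast; rw [h8]; linarith
      · push_cast; rw [h8]; linarith
    refine ⟨J - Z * M', ?_⟩
    have : (M : ℤ) = M' + M' := by exact_mod_cast hM'
    rw [this] at h11
    linear_combination -h11
  · rintro ⟨d, hd⟩
    have h12 : (M : ℝ) = M' + M' := by exact_mod_cast hM'
    have h13 : (c I : ℝ) = 2 * d + 1 := by exact_mod_cast hd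
    refine ⟨Z * M' + d, ?_, ?_⟩
    · rw [h8, h13, h12]; push_cast; linarith
    · rw [h8, h13, h12]; push_cast; linarith

theorem hasSum_pi {β : Type} : ∀ {m : ℕ} (f : Fin m → β → ℝ) (_ : ∀ i n, 0 ≤ f i n)
    (a : Fin m → ℝ) (_ : ∀ i, HasSum (f i) (a i)),
    HasSum (fun v : Fin m → β => ∏ i, f i (v i)) (∏ i, a i)
  | 0, f, _, a, _ => by
    have := hasSum_unique (fun v : Fin 0 → β => ∏ i, f i (v i))
    simp only [Finset.univ_eq_empty, Finset.prod_empty] at this ⊢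
    exact this
  | m + 1, f, hf, a, h => by
    have h1 : HasSum (f 0) (a 0) := h 0
    let g : (Fin m → β) → ℝ := fun v => ∏ i : Fin m, f i.succ (v i)
    have h2 : HasSum g (∏ i : Fin m, a i.succ) :=
      hasSum_pi (fun i => f i.succ) (fun i => hf i.succ) (fun i => a i.succ)
        (fun i => h i.succ)
    have p2 : ∀ v, 0 ≤ g v := by
      intro v
      apply Finset.prod_nonneg
      intro i _
      exact hf i.succ (v i)
    have p3 : Summable (fun x : β × (Fin m → β) => f 0 x.1 * g x.2) :=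
      h1.summable.mul_of_nonneg h2.summable (hf 0) p2
    have h3 : HasSum (fun x : β × (Fin m → β) => f 0 x.1 * g x.2)
        (a 0 * ∏ i : Fin m, a i.succ) := HasSum.mul h1 h2 p3
    rw [Fin.prod_univ_succ]
    rw [← Equiv.hasSum_iff (Fin.consEquiv (fun _ : Fin (m + 1) => β))]
    have e : (fun v : Fin (m + 1) → β => ∏ i, f i (v i)) ∘
        (Fin.consEquiv (fun _ : Fin (m + 1) => β)) =
        fun x : β × (Fin m → β) => f 0 x.1 * g x.2 := by
      funext x
      simp only [Function.comp_apply, Fin.consEquiv_apply]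
      rw [Fin.prod_univ_succ]
      simp [g]
    rw [e]
    exact h3

theorem hasSum_choose {x y : ℝ} (hx : 0 ≤ x) (hy : 0 ≤ y) (hxy : x * (1 + y) < 1) :
    HasSum (fun p : ℕ × ℕ => (p.1.choose p.2 : ℝ) * (x ^ p.1 * y ^ p.2))
      (1 - x * (1 + y))⁻¹ := by
  have h1 : ∀ a : ℕ, HasSum (fun b : ℕ => (a.choose b : ℝ) * (x ^ a * y ^ b))
      ((x * (1 + y)) ^ a) := by
    intro a
    have h2 : HasSum (fun b : ℕ => (a.choose b : ℝ) * (x ^ a * y ^ b))
        (∑ b ∈ Finset.range (a + 1), (a.choose b : ℝ) * (x ^ a * y ^ b)) :=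
      hasSum_sum_of_ne_finset_zero (by
        intro b hb
        rw [Finset.mem_range, not_lt] at hb
        rw [Nat.choose_eq_zero_of_lt (by omega)]
        simp)
    have h3 : ∑ b ∈ Finset.range (a + 1), (a.choose b : ℝ) * (x ^ a * y ^ b) =
        (x * (1 + y)) ^ a := by
      rw [mul_pow, add_comm 1 y, add_pow, Finset.mul_sum]
      apply Finset.sum_congr rfl
      intro b _
      rw [one_pow]
      ring
    rw [← h3]
    exact h2
  have h0 : 0 ≤ x * (1 + y) := by positivity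
  have h4 := hasSum_geometric_of_lt_one h0 hxy
  have hnn : ∀ p : ℕ × ℕ, 0 ≤ (p.1.choose p.2 : ℝ) * (x ^ p.1 * y ^ p.2) := by
    intro p
    positivity
  have hs : Summable (fun p : ℕ × ℕ => (p.1.choose p.2 : ℝ) * (x ^ p.1 * y ^ p.2)) := by
    rw [summable_prod_of_nonneg hnn]
    refine ⟨fun a => (h1 a).summable, ?_⟩
    have : (fun a : ℕ => ∑' b : ℕ, (a.choose b : ℝ) * (x ^ a * y ^ b)) =
        fun a => (x * (1 + y)) ^ a := funext fun a => (h1 a).tsum_eq
    simp only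
    rw [this]
    exact h4.summable
  have h5 : ∑' p : ℕ × ℕ, (p.1.choose p.2 : ℝ) * (x ^ p.1 * y ^ p.2) = (1 - x * (1 + y))⁻¹ := by
    rw [hs.tsum_prod]
    have : (fun a : ℕ => ∑' b : ℕ, (a.choose b : ℝ) * (x ^ a * y ^ b)) =
        fun a => (x * (1 + y)) ^ a := funext fun a => (h1 a).tsum_eq
    simp only [this]
    exact h4.tsum_eq
  rw [← h5]
  exact hs.hasSum

section

variable {q : ℕ}

/-- the index of a tuple of pairs -/
def idx (e f : Fin q → ℕ) (v : Fin q → ℕ × ℕ) : ℕ := ∑ p, (e p * (v p).1 + f p * (v p).2)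

/-- the weight of a tuple of pairs -/
def wt (v : Fin q → ℕ × ℕ) : ℕ := ∏ p, ((v p).1).choose (v p).2

/-- the tuples with entries at most `i` -/
def box (q i : ℕ) : Finset (Fin q → ℕ × ℕ) :=
  Fintype.piFinset (fun _ => Finset.range (i + 1) ×ˢ Finset.range (i + 1))

theorem mem_box {i : ℕ} {v : Fin q → ℕ × ℕ} : v ∈ box q i ↔ ∀ j, (v j).1 ≤ i ∧ (v j).2 ≤ i := by
  simp [box]

theorem card_box (q i : ℕ) : (box q i).card = (i + 1) ^ (2 * q) := by
  simp only [box, Fintype.card_piFinset, Finset.card_product, Finset.card_range,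
    Finset.prod_const, Finset.card_univ, Fintype.card_fin]
  rw [← pow_two, ← pow_mul]

variable {e f : Fin q → ℕ} (he : ∀ p, 1 ≤ e p) (hf : ∀ p, 1 ≤ f p)

include he hf in
theorem sum_le_idx (v : Fin q → ℕ × ℕ) : ∑ p, ((v p).1 + (v p).2) ≤ idx e f v := by
  apply Finset.sum_le_sum
  intro p _
  have h1 := Nat.mul_le_mul_right (v p).1 (he p)
  have h2 := Nat.mul_le_mul_right (v p).2 (hf p)
  omega

include he hf in
theorem mem_box_of_idx {v : Fin q → ℕ × ℕ} {i : ℕ} (h : idx e f v = i) : v ∈ box q i := by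
  rw [mem_box]
  intro j
  have h1 := sum_le_idx he hf v
  have h2 : (v j).1 + (v j).2 ≤ ∑ p, ((v p).1 + (v p).2) :=
    Finset.single_le_sum (f := fun p => (v p).1 + (v p).2) (fun _ _ => Nat.zero_le _)
      (Finset.mem_univ j)
  omega

/-- the coefficient -/
def cc (e f : Fin q → ℕ) (i : ℕ) : ℕ := ∑ v ∈ box q i with idx e f v = i, wt v

include he hf in
theorem wt_le {v : Fin q → ℕ × ℕ} {i : ℕ} (h : idx e f v = i) : wt v ≤ 2 ^ i := by
  have h1 : wt v ≤ ∏ p, 2 ^ (v p).1 := Finset.prod_le_prod' (fun p _ => Nat.choose_le_two_pow _ _)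
  rw [Finset.prod_pow_eq_pow_sum] at h1
  refine h1.trans (Nat.pow_le_pow_right (by norm_num) ?_)
  have h2 := sum_le_idx he hf v
  have h3 : ∑ p, (v p).1 ≤ ∑ p, ((v p).1 + (v p).2) :=
    Finset.sum_le_sum (fun p _ => Nat.le_add_right _ _)
  omega

include he hf in
theorem cc_le (i : ℕ) : cc e f i ≤ (2 ^ (2 * q + 1)) ^ i := by
  have h1 : cc e f i ≤ ∑ _v ∈ box q i, 2 ^ i := by
    rw [cc, Finset.sum_filter]
    apply Finset.sum_le_sum
    intro v _
    split_ifs with h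
    · exact wt_le he hf h
    · exact Nat.zero_le _
  refine h1.trans ?_
  have h2 : (i + 1) ^ (2 * q) ≤ (2 ^ i) ^ (2 * q) :=
    Nat.pow_le_pow_left Nat.lt_two_pow_self _
  have h3 : (2 ^ (2 * q + 1)) ^ i = (2 ^ i) ^ (2 * q) * 2 ^ i := by
    rw [← pow_mul, ← pow_mul, ← pow_add]
    congr 1
    ring
  rw [Finset.sum_const, card_box, smul_eq_mul, h3]
  exact Nat.mul_le_mul_right _ h2

include he hf in
theorem hasSum_cc {M : ℕ} (hM : 3 ≤ M) :
    HasSum (fun i => ((cc e f i : ℤ) : ℝ) * ((M : ℝ)⁻¹) ^ i)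
      (∏ p, (1 - ((M : ℝ) ^ e p)⁻¹ * (1 + ((M : ℝ) ^ f p)⁻¹))⁻¹) := by
  have hMr : (3 : ℝ) ≤ M := by exact_mod_cast hM
  have h0 : ∀ k : ℕ, 1 ≤ k → ((M : ℝ) ^ k)⁻¹ ≤ 1 / 3 := by
    intro k hk
    rw [← one_div]
    apply one_div_le_one_div_of_le (by norm_num)
    calc (3 : ℝ) ≤ M := hMr
      _ = (M : ℝ) ^ 1 := (pow_one _).symm
      _ ≤ (M : ℝ) ^ k := pow_le_pow_right₀ (by linarith) hk
  have h00 : ∀ k : ℕ, 0 ≤ ((M : ℝ) ^ k)⁻¹ := fun k => by positivity
  have h1 : ∀ p, HasSum (fun a : ℕ × ℕ => (a.1.choose a.2 : ℝ) *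
      (((M : ℝ) ^ e p)⁻¹ ^ a.1 * ((M : ℝ) ^ f p)⁻¹ ^ a.2))
      (1 - ((M : ℝ) ^ e p)⁻¹ * (1 + ((M : ℝ) ^ f p)⁻¹))⁻¹ := by
    intro p
    apply hasSum_choose (h00 _) (h00 _)
    have h2 := h0 _ (he p)
    have h3 := h0 _ (hf p)
    have h4 := h00 (e p)
    have h5 := h00 (f p)
    nlinarith
  have h2 := hasSum_pi _ (fun p a => mul_nonneg (Nat.cast_nonneg _) (mul_nonneg
    (pow_nonneg (h00 _) _) (pow_nonneg (h00 _) _))) _ h1
  have e1 : ∀ v : Fin q → ℕ × ℕ, ∏ p, (((v p).1.choose (v p).2 : ℝ) *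
      (((M : ℝ) ^ e p)⁻¹ ^ (v p).1 * ((M : ℝ) ^ f p)⁻¹ ^ (v p).2)) =
      (wt v : ℝ) * ((M : ℝ)⁻¹) ^ idx e f v := by
    intro v
    rw [Finset.prod_mul_distrib, wt, idx, ← Finset.prod_pow_eq_pow_sum]
    push_cast
    congr 1
    apply Finset.prod_congr rfl
    intro p _
    simp only [pow_add, pow_mul, inv_pow]
  simp only [e1] at h2
  have h3 := h2.tsum_fiberwise (idx e f)
  have e2 : (fun i => ∑' v : idx e f ⁻¹' {i}, (wt (v : Fin q → ℕ × ℕ) : ℝ) *
      ((M : ℝ)⁻¹) ^ idx e f v) = fun i => ((cc e f i : ℤ) : ℝ) * ((M : ℝ)⁻¹) ^ i := by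
    funext i
    rw [tsum_subtype (idx e f ⁻¹' {i}) (fun v => (wt v : ℝ) * ((M : ℝ)⁻¹) ^ idx e f v),
      tsum_eq_sum (s := box q i)]
    · rw [cc, Finset.sum_filter]
      push_cast
      rw [Finset.sum_mul]
      apply Finset.sum_congr rfl
      intro v _
      by_cases hv : idx e f v = i
      · rw [Set.indicator_of_mem (by exact hv), if_pos hv, hv]
      · rw [Set.indicator_of_notMem (by exact hv), if_neg hv, zero_mul]
    · intro v hv
      apply Set.indicator_of_notMem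
      intro hv2
      exact hv (mem_box_of_idx he hf hv2)
  rw [← e2]
  exact h3

include he hf in
theorem parity {M : ℕ} (hMe : Even M) (I : ℕ)
    (hM : ((2 ^ (2 * q + 1)) ^ I + 1) * 2 ^ (2 * q + 1) < M) :
    (∃ J : ℤ, (2 * J + 1 : ℝ) ≤
        M ^ I * (∏ p, (1 - ((M : ℝ) ^ e p)⁻¹ * (1 + ((M : ℝ) ^ f p)⁻¹))⁻¹) ∧
      M ^ I * (∏ p, (1 - ((M : ℝ) ^ e p)⁻¹ * (1 + ((M : ℝ) ^ f p)⁻¹))⁻¹) < 2 * J + 1 + 1) ↔
      Odd (cc e f I) := by
  have hM3 : 3 ≤ M := by
    have h1 : 2 ≤ 2 ^ (2 * q + 1) := by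
      rw [pow_succ]
      have := Nat.one_le_two_pow (n := 2 * q)
      omega
    have h2 : 1 * 2 ^ (2 * q + 1) ≤ ((2 ^ (2 * q + 1)) ^ I + 1) * 2 ^ (2 * q + 1) :=
      Nat.mul_le_mul_right _ (by omega)
    omega
  rw [parity_digit (c := fun i => (cc e f i : ℤ)) (fun i => Int.natCast_nonneg _) hMe
    (hasSum_cc he hf hM3) I (2 * q + 1) ((2 ^ (2 * q + 1)) ^ I) _ hM]
  · exact Int.odd_coe_nat _
  · intro j
    have h1 := cc_le he hf (j + (I + 1))
    have h2 : (2 ^ (2 * q + 1)) ^ (j + (I + 1)) =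
        (2 ^ (2 * q + 1)) ^ I * (2 ^ (2 * q + 1)) ^ (j + 1) := by
      rw [← pow_add]
      congr 1
      ring
    rw [h2] at h1
    exact_mod_cast h1

theorem odd_wt (v : Fin q → ℕ × ℕ) : Odd (wt v) ↔ ∀ p, Odd ((v p).1.choose (v p).2) := by
  rw [wt, ← Nat.not_even_iff_odd, even_iff_two_dvd, Nat.prime_two.prime.dvd_finsetProd_iff]
  simp only [Finset.mem_univ, true_and, not_exists, ← even_iff_two_dvd, Nat.not_even_iff_odd]

include he hf in
/-- the coefficient is odd if there is exactly one tuple with odd weight -/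
theorem odd_cc {i : ℕ} {v : Fin q → ℕ × ℕ} (hv : idx e f v = i)
    (h1 : ∀ p, Odd ((v p).1.choose (v p).2))
    (h2 : ∀ u, idx e f u = i → (∀ p, Odd ((u p).1.choose (u p).2)) → u = v) :
    Odd (cc e f i) := by
  rw [cc, Finset.odd_sum_iff_odd_card_odd]
  have : ((box q i).filter (fun v => idx e f v = i)).filter (fun v => Odd (wt v)) = {v} := by
    ext u
    rw [Finset.mem_filter, Finset.mem_filter, Finset.mem_singleton, odd_wt]
    constructor
    · rintro ⟨⟨_, h3⟩, h4⟩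
      exact h2 u h3 h4
    · rintro rfl
      exact ⟨⟨mem_box_of_idx he hf hv, hv⟩, h1⟩
  rw [this]
  simp

/-- if the coefficient is odd, then there is a tuple with odd weight -/
theorem exists_of_odd_cc {i : ℕ} (h : Odd (cc e f i)) :
    ∃ v, idx e f v = i ∧ ∀ p, Odd ((v p).1.choose (v p).2) := by
  by_contra hne
  push Not at hne
  have h1 : Even (cc e f i) := by
    rw [cc]
    apply Finset.even_sum
    intro v hv
    rw [Finset.mem_filter] at hv
    obtain ⟨p, hp⟩ := hne v hv.2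
    rw [← Nat.not_odd_iff_even, odd_wt]
    intro h3
    exact hp (h3 p)
  exact (Nat.not_odd_iff_even.2 h1) h

end

end Pool.Agent.H355.OE
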