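import Mathlib
import Pool.Agent.H355.TV.Aff
import Pool.Graph.R_pool_sql_team_seeded_b0a926ef.Results.MP_1ebeae_al.SystemsFromSingleEquations

/-!
# Exponential inequalities in two integer unknowns as equations in one group unknown

The group is the Baumslag–Gersten group `⟨a, t | (t a t⁻¹) a (t a t⁻¹)⁻¹ = a²⟩`.
-/

set_option autoImplicit false

namespace Pool.Agent.H355.OE

open Pool.Agent.R387.OV Pool.Agent.H355.TV

/-- exponential terms in the unknowns `k`, `J` and the parameter `n` -/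
inductive Tm : Type
  | one
  | k
  | J
  | par
  | add (S T : Tm)
  | neg (T : Tm)
  | sh (T S : Tm)

/-- values of the unknowns and of the parameter -/
structure Env where
  n : ℕ
  k : ℤ
  J : ℤ

namespace Tm

/-- the value of a term; `sh T S` is `T * 2 ^ S` -/
def ev (e : Env) : Tm → ℤ
  | one => 1
  | k => e.k
  | J => e.J
  | par => e.n
  | add S T => ev e S + ev e T
  | neg T => - ev e T
  | sh T S => ev e T * 2 ^ (ev e S).toNat

/-- the exponents occurring in a term -/
def exps : Tm → List Tm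
  | add S T => exps S ++ exps T
  | neg T => exps T
  | sh T S => exps T ++ (exps S ++ [S])
  | _ => []

theorem exps_trans {U S T : Tm} (h1 : U ∈ exps S) (h2 : S ∈ exps T) : U ∈ exps T := by
  induction T with
  | add A B hA hB =>
    rw [exps, List.mem_append] at h2 ⊢
    exact h2.imp hA hB
  | neg A hA => exact hA h2
  | sh A B hA hB =>
    rw [exps, List.mem_append, List.mem_append, List.mem_singleton] at h2 ⊢
    rcases h2 with h2 | h2 | rfl
    · exact Or.inl (hA h2)
    · exact Or.inr (Or.inl (hB h2))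
    · exact Or.inr (Or.inl h1)
  | _ => simp [exps] at h2

/-- all exponents in the term are nonnegative -/
def ok (e : Env) (T : Tm) : Prop := ∀ S ∈ exps T, 0 ≤ ev e S

end Tm

/-- the term is nonnegative and all exponents in it are nonnegative -/
def Good (e : Env) (T : Tm) : Prop := T.ok e ∧ 0 ≤ T.ev e

/-- group expressions in the constants `a, t`, the unknown `x` and the power `a ^ n` -/
inductive GE : Type
  | gen (i : Fin 2 ⊕ Fin 1)
  | par
  | mul (u v : GE)
  | inv (u : GE)

namespace GE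

/-- the word of a group expression -/
def word (n : ℕ) : GE → Wd 2 1
  | gen i => [(i, true)]
  | par => List.replicate n (Sum.inl 0, true)
  | mul u v => word n u ++ word n v
  | inv u => FreeGroup.invRev (word n u)

/-- the value of a group expression -/
def val {H : Type} [Group H] (f : Fin 2 ⊕ Fin 1 → H) (n : ℕ) : GE → H
  | gen i => f i
  | par => f (Sum.inl 0) ^ n
  | mul u v => val f n u * val f n v
  | inv u => (val f n u)⁻¹

theorem lift_word {H : Type} [Group H] (f : Fin 2 ⊕ Fin 1 → H) (n : ℕ) (u : GE) :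
    FreeGroup.lift f (FreeGroup.mk (word n u)) = val f n u := by
  induction u with
  | gen i => simp [word, val]
  | par =>
    rw [word, val]
    induction n with
    | zero => simp
    | succ n ih => rw [List.replicate_succ, lift_cons, ih, pow_succ']; rfl
  | mul u v hu hv => rw [word, val, lift_append, hu, hv]
  | inv u hu => rw [word, val, lift_invRev, hu]

open Pool.Agent.Results.MP_1ebeae_al.SystemsFromSingleEquations in
theorem primrec_word (u : GE) : Primrec (fun n => word n u) := by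
  induction u with
  | gen i => exact Primrec.const _
  | par =>
    have h : Primrec (fun n : ℕ => (List.range n).map
        (fun _ => ((Sum.inl 0, true) : (Fin 2 ⊕ Fin 1) × Bool))) :=
      Primrec.list_map Primrec.list_range (Primrec.const _)
    refine h.of_eq (fun n => ?_)
    rw [word, List.map_const', List.length_range]
  | mul u v hu hv => exact Primrec.list_append.comp hu hv
  | inv u hu => exact primrec_invRev.comp hu

/-- the expressions for `a, t, x` -/
def a : GE := gen (Sum.inl 0)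
def t : GE := gen (Sum.inl 1)
def x : GE := gen (Sum.inr 0)

/-- commutator -/
def comm (u v : GE) : GE := mul (mul u v) (mul (inv u) (inv v))

/-- conjugation -/
def conj (u v : GE) : GE := mul (mul u v) (inv u)

/-- `b = t a t⁻¹` -/
def b : GE := conj t a

/-- `b x b⁻¹ x⁻¹` -/
def p : GE := mul (conj b x) (inv x)

/-- `t⁻¹ p⁻¹ x t` -/
def c : GE := conj (inv t) (mul (inv p) x)

/-- the expression of a term -/
def tm : Tm → GE
  | Tm.one => a
  | Tm.k => c
  | Tm.J => p
  | Tm.par => par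
  | Tm.add S T => mul (tm S) (tm T)
  | Tm.neg T => inv (tm T)
  | Tm.sh T S => conj (conj t (tm S)) (tm T)

/-- the expression testing whether a power of `a` has an integral exponent -/
def int (u : GE) : GE := comm (conj (conj t u) a) a

/-- the expression testing whether a power of `a` has a nonnegative exponent -/
def nn (u : GE) : GE := int (conj (conj t u) a)

/-- the equations for a term -/
def eqs (T : Tm) : List GE := (T.exps ++ [T]).map (fun S => nn (tm S))

/-- the equations for a list of terms -/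
def sys (L : List Tm) : List GE :=
  [comm (conj x a) a, int p] ++ L.flatMap eqs

theorem val_comm {H : Type} [Group H] (f : Fin 2 ⊕ Fin 1 → H) (n : ℕ) (u v : GE) :
    val f n (comm u v) = 1 ↔ val f n u * val f n v = val f n v * val f n u := by
  simp only [comm, val]
  rw [← mul_inv_rev, mul_inv_eq_one]

theorem val_conj {H : Type} [Group H] (f : Fin 2 ⊕ Fin 1 → H) (n : ℕ) (u v : GE) :
    val f n (conj u v) = val f n u * val f n v * (val f n u)⁻¹ := rfl

end GE

/-- an assignment -/
def asg {H : Type} (a t x : H) : Fin 2 ⊕ Fin 1 → H := Sum.elim ![a, t] ![x]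

section sound

variable (n : ℕ) (x : GG)

theorem two_zpow_int {s : ℤ} {m : ℤ} (h : (2 : ℚ) ^ s = m) : 0 ≤ s := by
  by_contra hs
  push Not at hs
  have h1 : (2 : ℚ) ^ s < 1 := zpow_lt_one_of_neg₀ (by norm_num) hs
  have h2 : (0 : ℚ) < 2 ^ s := by positivity
  rw [h] at h1 h2
  have h3 : m < 1 := by exact_mod_cast h1
  have h4 : 0 < m := by exact_mod_cast h2
  omega

theorem int_sound {u : GE} {q : ℚ} (hu : GE.val (asg (tr 1) tt x) n u = tr q)
    (h : GE.val (asg (tr 1) tt x) n (GE.int u) = 1) : ∃ m : ℤ, q = m := by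
  rw [GE.int, GE.val_comm] at h
  simp only [GE.val_conj, GE.t, GE.a, GE.val, asg, Sum.elim_inl, Matrix.cons_val_zero,
    Matrix.cons_val_one] at h
  change GE.val (Sum.elim ![tr 1, tt] ![x]) n u = tr q at hu
  rw [hu] at h
  apply int_of_comm
  have e : tt * tr q * tt⁻¹ * tr 1 * tt * (tr q)⁻¹ * tt⁻¹ =
      tt * tr q * tt⁻¹ * tr 1 * (tt * tr q * tt⁻¹)⁻¹ := by group
  rw [e]
  exact h

theorem nn_sound {u : GE} {s : ℤ} (hu : GE.val (asg (tr 1) tt x) n u = tr s)
    (h : GE.val (asg (tr 1) tt x) n (GE.nn u) = 1) : 0 ≤ s := by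
  rw [GE.nn] at h
  have h1 : GE.val (asg (tr 1) tt x) n (GE.conj (GE.conj GE.t u) GE.a) = tr (2 ^ s) := by
    simp only [GE.val_conj]
    rw [hu]
    have : GE.val (asg (tr 1) tt x) n GE.t = tt := rfl
    rw [this]
    have : GE.val (asg (tr 1) tt x) n GE.a = tr 1 := rfl
    rw [this, tt_conj, sc_conj, mul_one]
  obtain ⟨m, hm⟩ := int_sound n x h1 h
  exact two_zpow_int hm

theorem tm_sound (e : Env) (he : e.n = n)
    (hJ : GE.val (asg (tr 1) tt x) n GE.p = tr e.J)
    (hk : GE.val (asg (tr 1) tt x) n GE.c = tr e.k)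
    (T : Tm)
    (h : ∀ S ∈ T.exps, GE.val (asg (tr 1) tt x) n (GE.nn (GE.tm S)) = 1) :
    GE.val (asg (tr 1) tt x) n (GE.tm T) = tr (T.ev e) ∧ T.ok e := by
  induction T with
  | one => exact ⟨by simp [GE.tm, GE.a, GE.val, asg, Tm.ev], by simp [Tm.ok, Tm.exps]⟩
  | k => exact ⟨hk, by simp [Tm.ok, Tm.exps]⟩
  | J => exact ⟨hJ, by simp [Tm.ok, Tm.exps]⟩
  | par =>
    refine ⟨?_, by simp [Tm.ok, Tm.exps]⟩
    have h1 : ∀ m : ℕ, tr 1 ^ m = tr m := by
      intro m
      induction m with
      | zero => simp [tr_zero]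
      | succ m ih => rw [pow_succ, ih, tr_mul]; simp
    simp only [GE.tm, GE.val, asg, Sum.elim_inl, Matrix.cons_val_zero, Tm.ev]
    rw [h1, he]
    simp
  | add S T hS hT =>
    obtain ⟨h1, h2⟩ := hS (fun U hU => h U (by simp [Tm.exps, hU]))
    obtain ⟨h3, h4⟩ := hT (fun U hU => h U (by simp [Tm.exps, hU]))
    refine ⟨?_, ?_⟩
    · rw [GE.tm, GE.val, h1, h3, tr_mul, Tm.ev]
      push_cast
      rfl
    · intro U hU
      rw [Tm.exps, List.mem_append] at hU
      rcases hU with hU | hU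
      · exact h2 U hU
      · exact h4 U hU
  | neg T hT =>
    obtain ⟨h1, h2⟩ := hT h
    refine ⟨?_, h2⟩
    rw [GE.tm, GE.val, h1, tr_inv, Tm.ev]
    push_cast
    rfl
  | sh T S hT hS =>
    obtain ⟨h1, h2⟩ := hT (fun U hU => h U (by simp [Tm.exps, hU]))
    obtain ⟨h3, h4⟩ := hS (fun U hU => h U (by simp [Tm.exps, hU]))
    have h5 := nn_sound n x h3 (h S (by simp [Tm.exps]))
    refine ⟨?_, ?_⟩
    · rw [GE.tm, GE.val_conj, GE.val_conj, h1, h3]
      have : GE.val (asg (tr 1) tt x) n GE.t = tt := rfl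
      rw [this, tt_conj, sc_conj, Tm.ev]
      congr 1
      push_cast
      rw [mul_comm]
      congr 1
      conv_lhs => rw [← Int.toNat_of_nonneg h5]
      rw [zpow_natCast]
    · intro U hU
      rw [Tm.exps, List.mem_append, List.mem_append, List.mem_singleton] at hU
      rcases hU with hU | hU | rfl
      · exact h2 U hU
      · exact h4 U hU
      · exact h5

theorem sound (L : List Tm) (h : ∀ u ∈ GE.sys L, GE.val (asg (tr 1) tt x) n u = 1) :
    ∃ e : Env, e.n = n ∧ ∀ T ∈ L, Good e T := by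
  have h1 := h (GE.comm (GE.conj GE.x GE.a) GE.a) (by simp [GE.sys])
  have h2 := h (GE.int GE.p) (by simp [GE.sys])
  have ea : GE.val (asg (tr 1) tt x) n GE.a = tr 1 := rfl
  have et : GE.val (asg (tr 1) tt x) n GE.t = tt := rfl
  have ex : GE.val (asg (tr 1) tt x) n GE.x = x := rfl
  rw [GE.val_comm, GE.val_conj, ea, ex] at h1
  obtain ⟨g, rfl⟩ := base_of_comm h1
  have eb : GE.val (asg (tr 1) tt (HNNExtension.of g)) n GE.b = sc 1 := by
    rw [GE.b, GE.val_conj, ea, et]
    have := tt_conj 1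
    rw [Int.cast_one] at this
    exact this
  have ep : GE.val (asg (tr 1) tt (HNNExtension.of g)) n GE.p = tr g.q := by
    rw [GE.p, GE.val, GE.val_conj, GE.val, eb, ex, of_eq]
    have e3 : sc 1 * sc g.k * (sc 1)⁻¹ = sc g.k := by
      rw [sc_inv, sc_mul, sc_mul]
      congr 1
      ring
    calc sc 1 * (tr g.q * sc g.k) * (sc 1)⁻¹ * (tr g.q * sc g.k)⁻¹
        = (sc 1 * tr g.q * (sc 1)⁻¹) * (sc 1 * sc g.k * (sc 1)⁻¹) * (sc g.k)⁻¹ * (tr g.q)⁻¹ := by
          group
      _ = tr g.q := by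
          rw [e3, sc_conj, mul_inv_cancel_right, tr_inv, tr_mul]
          congr 1
          rw [zpow_one]
          ring
  obtain ⟨J, hJ⟩ := int_sound n _ ep h2
  have ec : GE.val (asg (tr 1) tt (HNNExtension.of g)) n GE.c = tr g.k := by
    rw [GE.c, GE.val_conj, GE.val, GE.val, GE.val, ep, et, ex, of_eq, inv_inv, inv_mul_cancel_left]
    exact tt_conj' g.k
  refine ⟨⟨n, g.k, J⟩, rfl, fun T hT => ?_⟩
  have h5 : ∀ S ∈ T.exps ++ [T],
      GE.val (asg (tr 1) tt (HNNExtension.of g)) n (GE.nn (GE.tm S)) = 1 := by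
    intro S hS
    apply h
    rw [GE.sys, List.mem_append]
    right
    rw [List.mem_flatMap]
    exact ⟨T, hT, List.mem_map.2 ⟨S, hS, rfl⟩⟩
  have h6 := tm_sound n (HNNExtension.of g) ⟨n, g.k, J⟩ rfl (by rw [ep, hJ]) ec
    T (fun S hS => h5 S (List.mem_append_left _ hS))
  exact ⟨h6.2, nn_sound n _ h6.1 (h5 T (by simp))⟩

end sound

section complete

variable {H : Type} [Group H] {a t : H}

theorem conj_pow {b : H} (h : b * a * b⁻¹ = a * a) (m : ℤ) (s : ℕ) :
    b ^ s * a ^ m * (b ^ s)⁻¹ = a ^ (m * 2 ^ s) := by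
  have h1 : b * a * b⁻¹ = a ^ (2 : ℤ) := by rw [h, zpow_two]
  have h2 : ∀ m : ℤ, b * a ^ m * b⁻¹ = a ^ (m * 2) := by
    intro m
    rw [← conj_zpow, h1, ← zpow_mul, mul_comm]
  induction s with
  | zero => simp
  | succ s ih =>
    have : b ^ (s + 1) * a ^ m * (b ^ (s + 1))⁻¹ = b * (b ^ s * a ^ m * (b ^ s)⁻¹) * b⁻¹ := by
      rw [pow_succ']; group
    rw [this, ih, h2, pow_succ, mul_assoc]

theorem conj_comm {b : H} (h : b * a * b⁻¹ = a * a) (s : ℤ) :
    b ^ s * a * (b ^ s)⁻¹ * a = a * (b ^ s * a * (b ^ s)⁻¹) := by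
  rcases le_total 0 s with hs | hs
  · obtain ⟨m, rfl⟩ := Int.eq_ofNat_of_zero_le hs
    have := conj_pow h 1 m
    rw [zpow_one] at this
    rw [zpow_natCast, this, ← zpow_add_one, ← zpow_one_add, add_comm]
  · obtain ⟨m, hm⟩ := Int.eq_ofNat_of_zero_le (neg_nonneg.2 hs)
    have hs' : s = -(m : ℤ) := by rw [← hm]; ring
    subst hs'
    have := conj_pow h 1 m
    rw [zpow_one, one_mul] at this
    have h2 : a = (b ^ (-(m : ℤ)) * a * (b ^ (-(m : ℤ)))⁻¹) ^ ((2 : ℤ) ^ m) := by
      rw [conj_zpow, ← this, zpow_neg, zpow_natCast]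
      group
    set d := b ^ (-(m : ℤ)) * a * (b ^ (-(m : ℤ)))⁻¹ with hd
    rw [h2, ← zpow_one_add, ← zpow_add_one, add_comm]

variable (hab : t * a * t⁻¹ * a * (t * a * t⁻¹)⁻¹ = a * a) (n : ℕ) (x : H)

theorem zconj (m : ℤ) : t * a ^ m * t⁻¹ = (t * a * t⁻¹) ^ m := (conj_zpow ..).symm

include hab

theorem int_complete {u : GE} {m : ℤ} (hu : GE.val (asg a t x) n u = a ^ m) :
    GE.val (asg a t x) n (GE.int u) = 1 := by
  have ea : GE.val (asg a t x) n GE.a = a := rfl
  have et : GE.val (asg a t x) n GE.t = t := rfl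
  rw [GE.int, GE.val_comm, GE.val_conj, GE.val_conj, ea, et, hu, zconj]
  exact conj_comm hab m

theorem nn_complete {u : GE} {s : ℤ} (hu : GE.val (asg a t x) n u = a ^ s) (hs : 0 ≤ s) :
    GE.val (asg a t x) n (GE.nn u) = 1 := by
  have ea : GE.val (asg a t x) n GE.a = a := rfl
  have et : GE.val (asg a t x) n GE.t = t := rfl
  rw [GE.nn]
  apply int_complete hab n x (m := 2 ^ s.toNat)
  rw [GE.val_conj, GE.val_conj, ea, et, hu, zconj]
  have := conj_pow hab 1 s.toNat
  rw [zpow_one, one_mul] at this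
  rw [← this, ← zpow_natCast, Int.toNat_of_nonneg hs]

theorem tm_complete (e : Env) (he : e.n = n)
    (hJ : GE.val (asg a t x) n GE.p = a ^ e.J)
    (hk : GE.val (asg a t x) n GE.c = a ^ e.k)
    (T : Tm) (h : T.ok e) :
    GE.val (asg a t x) n (GE.tm T) = a ^ (T.ev e) := by
  induction T with
  | one => simp [GE.tm, GE.a, GE.val, asg, Tm.ev]
  | k => exact hk
  | J => exact hJ
  | par =>
    simp only [GE.tm, GE.val, asg, Sum.elim_inl, Matrix.cons_val_zero, Tm.ev]
    rw [he, zpow_natCast]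
  | add S T hS hT =>
    have h1 := hS (fun U hU => h U (by simp [Tm.exps, hU]))
    have h3 := hT (fun U hU => h U (by simp [Tm.exps, hU]))
    rw [GE.tm, GE.val, h1, h3, ← zpow_add, Tm.ev]
  | neg T hT =>
    rw [GE.tm, GE.val, hT h, ← zpow_neg, Tm.ev]
  | sh T S hT hS =>
    have h1 := hT (fun U hU => h U (by simp [Tm.exps, hU]))
    have h3 := hS (fun U hU => h U (by simp [Tm.exps, hU]))
    have h5 : 0 ≤ S.ev e := h S (by simp [Tm.exps])
    rw [GE.tm, GE.val_conj, GE.val_conj, h1, h3]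
    have : GE.val (asg a t x) n GE.t = t := rfl
    rw [this, zconj (Tm.ev e S), Tm.ev, ← conj_pow hab,
      ← zpow_natCast (t * a * t⁻¹), Int.toNat_of_nonneg h5]

omit n x in
theorem complete (e : Env) (he : 0 ≤ e.k) (L : List Tm) (h : ∀ T ∈ L, Good e T) :
    ∀ u ∈ GE.sys L,
      GE.val (asg a t (a ^ e.J * (t * a * t⁻¹) ^ e.k)) e.n u = 1 := by
  set x := a ^ e.J * (t * a * t⁻¹) ^ e.k with hx
  have ea : GE.val (asg a t x) e.n GE.a = a := rfl
  have et : GE.val (asg a t x) e.n GE.t = t := rfl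
  have ex : GE.val (asg a t x) e.n GE.x = x := rfl
  have eb : GE.val (asg a t x) e.n GE.b = t * a * t⁻¹ := rfl
  set b := t * a * t⁻¹ with hb
  have ep : GE.val (asg a t x) e.n GE.p = a ^ e.J := by
    rw [GE.p, GE.val, GE.val_conj, GE.val, eb, ex, hx]
    have h1 := conj_pow hab e.J 1
    rw [pow_one, pow_one] at h1
    calc b * (a ^ e.J * b ^ e.k) * b⁻¹ * (a ^ e.J * b ^ e.k)⁻¹
        = (b * a ^ e.J * b⁻¹) * (a ^ e.J)⁻¹ := by group
      _ = a ^ e.J := by
        rw [h1, ← zpow_neg, ← zpow_add]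
        congr 1
        ring
  have ec : GE.val (asg a t x) e.n GE.c = a ^ e.k := by
    rw [GE.c, GE.val_conj, GE.val, GE.val, GE.val, ep, et, ex, hx, inv_inv,
      inv_mul_cancel_left, hb, ← zconj]
    group
  intro u hu
  rw [GE.sys, List.mem_append] at hu
  rcases hu with hu | hu
  · simp only [List.mem_cons, List.not_mem_nil, or_false] at hu
    rcases hu with rfl | rfl
    · rw [GE.val_comm, GE.val_conj, ea, ex, hx]
      have h1 := conj_pow hab 1 e.k.toNat
      rw [zpow_one, ← zpow_natCast, Int.toNat_of_nonneg he] at h1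
      have h2 : a ^ e.J * b ^ e.k * a * (a ^ e.J * b ^ e.k)⁻¹ =
          a ^ e.J * (b ^ e.k * a * (b ^ e.k)⁻¹) * (a ^ e.J)⁻¹ := by group
      rw [h2, h1]
      group
    · exact int_complete hab e.n x ep
  · rw [List.mem_flatMap] at hu
    obtain ⟨T, hT, hu⟩ := hu
    rw [GE.eqs, List.mem_map] at hu
    obtain ⟨S, hS, rfl⟩ := hu
    have hg := h T hT
    have h3 : S.ok e ∧ 0 ≤ S.ev e := by
      rw [List.mem_append, List.mem_singleton] at hS
      rcases hS with hS | rfl
      · exact ⟨fun U hU => hg.1 U (Tm.exps_trans hU hS), hg.1 S hS⟩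
      · exact hg
    exact nn_complete hab e.n x (tm_complete hab e.n x e rfl ep ec S h3.1) h3.2

end complete

end Pool.Agent.H355.OE
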