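import Mathlib
import Pool.Agent.H355.OE.Term
import Pool.Agent.H355.OE.Pairs
import Pool.Agent.H355.OE.Pack

/-!
# The terms expressing the parity of a coefficient
-/

set_option autoImplicit false

namespace Pool.Agent.H355.OE

namespace Tm

/-- `j` times a term -/
def ns : ℕ → Tm → Tm
  | 0, T => add T (neg T)
  | j + 1, T => add (ns j T) T

/-- the difference of two terms -/
def sub (S T : Tm) : Tm := add S (neg T)

/-- the sum of several terms -/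
def tsum : {m : ℕ} → (Fin m → Tm) → Tm
  | 0, _ => sub one one
  | _ + 1, f => add (f 0) (tsum (fun i => f i.succ))

variable (e : Env)

theorem ev_ns (j : ℕ) (T : Tm) : ev e (ns j T) = j * ev e T := by
  induction j with
  | zero => simp [ns, ev]
  | succ j ih =>
    rw [ns, ev, ih]
    push_cast
    ring

theorem ev_sub (S T : Tm) : ev e (sub S T) = ev e S - ev e T := by
  simp [sub, ev, sub_eq_add_neg]

theorem ev_tsum {m : ℕ} (f : Fin m → Tm) : ev e (tsum f) = ∑ i, ev e (f i) := by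
  induction m with
  | zero => simp [tsum, ev_sub]
  | succ m ih => rw [tsum, ev, ih, Fin.sum_univ_succ]

theorem ok_add (S T : Tm) : ok e (add S T) ↔ ok e S ∧ ok e T := by
  simp only [ok, exps, List.forall_mem_append]

theorem ok_neg (T : Tm) : ok e (neg T) ↔ ok e T := Iff.rfl

theorem ok_sub (S T : Tm) : ok e (sub S T) ↔ ok e S ∧ ok e T := by
  rw [sub, ok_add, ok_neg]

theorem ok_sh (T S : Tm) : ok e (sh T S) ↔ ok e T ∧ Good e S := by
  simp only [ok, exps, List.forall_mem_append, List.mem_singleton, forall_eq, Good]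

theorem ok_ns {T : Tm} (h : ok e T) (j : ℕ) : ok e (ns j T) := by
  induction j with
  | zero => exact (ok_add e _ _).2 ⟨h, (ok_neg e _).2 h⟩
  | succ j ih => exact (ok_add e _ _).2 ⟨ih, h⟩

theorem ok_one : ok e one := by simp [ok, exps]
theorem ok_k : ok e k := by simp [ok, exps]
theorem ok_J : ok e J := by simp [ok, exps]
theorem ok_par : ok e par := by simp [ok, exps]

theorem ok_tsum {m : ℕ} {f : Fin m → Tm} (h : ∀ i, ok e (f i)) : ok e (tsum f) := by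
  induction m with
  | zero => exact (ok_sub e _ _).2 ⟨ok_one e, ok_one e⟩
  | succ m ih => exact (ok_add e _ _).2 ⟨h 0, ih (fun i => h i.succ)⟩

theorem good_ns {T : Tm} (h : Good e T) (j : ℕ) : Good e (ns j T) := by
  refine ⟨ok_ns e h.1 j, ?_⟩
  rw [ev_ns]
  exact mul_nonneg (Int.natCast_nonneg _) h.2

/-- the term does not involve `J` -/
def NJ (T : Tm) : Prop := ∀ n k J, ev ⟨n, k, J⟩ T = ev ⟨n, k, 0⟩ T

theorem nj_one : NJ one := fun _ _ _ => rfl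
theorem nj_k : NJ k := fun _ _ _ => rfl
theorem nj_par : NJ par := fun _ _ _ => rfl
theorem nj_add {S T : Tm} (hS : NJ S) (hT : NJ T) : NJ (add S T) := fun n k J => by
  rw [ev, ev, hS, hT]
theorem nj_neg {T : Tm} (hT : NJ T) : NJ (neg T) := fun n k J => by
  rw [ev, ev, hT]
theorem nj_sub {S T : Tm} (hS : NJ S) (hT : NJ T) : NJ (sub S T) := nj_add hS (nj_neg hT)
theorem nj_sh {S T : Tm} (hS : NJ S) (hT : NJ T) : NJ (sh S T) := fun n k J => by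
  rw [ev, ev, hS, hT]
theorem nj_ns {T : Tm} (hT : NJ T) (j : ℕ) : NJ (ns j T) := fun n k J => by
  rw [ev_ns, ev_ns, hT]
theorem nj_tsum {m : ℕ} {f : Fin m → Tm} (h : ∀ i, NJ (f i)) : NJ (tsum f) := fun n k J => by
  rw [ev_tsum, ev_tsum]
  exact Finset.sum_congr rfl (fun i _ => h i n k J)

end Tm

open Tm

/-- multiplication of a term by a polynomial in powers of two -/
theorem exists_mulP {ι : Type} (AE : ι → Tm) (P : MvPolynomial ι ℤ) :
    ∃ F : Tm → Tm, (∀ e T, (∀ i, Good e (AE i)) → ok e T → ok e (F T)) ∧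
      ∀ e T, ev e (F T) =
        MvPolynomial.eval (fun i => (2 : ℤ) ^ (ev e (AE i)).toNat) P * ev e T := by
  induction P using MvPolynomial.induction_on with
  | C a =>
    refine ⟨fun T => sub (ns a.toNat T) (ns (-a).toNat T), fun e T _ hT => ?_, fun e T => ?_⟩
    · exact (ok_sub e _ _).2 ⟨ok_ns e hT _, ok_ns e hT _⟩
    · rw [ev_sub, ev_ns, ev_ns, MvPolynomial.eval_C, ← sub_mul, Int.toNat_sub_toNat_neg]
  | add P Q hP hQ =>
    obtain ⟨F, hF, hF2⟩ := hP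
    obtain ⟨G, hG, hG2⟩ := hQ
    refine ⟨fun T => add (F T) (G T), fun e T h hT => ?_, fun e T => ?_⟩
    · exact (ok_add e _ _).2 ⟨hF e T h hT, hG e T h hT⟩
    · rw [ev, hF2, hG2, map_add, add_mul]
  | mul_X P i hP =>
    obtain ⟨F, hF, hF2⟩ := hP
    refine ⟨fun T => F (sh T (AE i)), fun e T h hT => ?_, fun e T => ?_⟩
    · exact hF e _ h ((ok_sh e _ _).2 ⟨hT, h i⟩)
    · rw [hF2, ev, map_mul, MvPolynomial.eval_X]
      ring

theorem cast_eval {ι : Type} (y : ι → ℤ) (P : MvPolynomial ι ℤ) :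
    ((MvPolynomial.eval y P : ℤ) : ℝ) = MvPolynomial.aeval (fun i => (y i : ℝ)) P := by
  induction P using MvPolynomial.induction_on with
  | C a => simp
  | add P Q hP hQ => rw [map_add, map_add, Int.cast_add, hP, hQ]
  | mul_X P i hP =>
    rw [map_mul, map_mul, Int.cast_mul, hP, MvPolynomial.eval_X, MvPolynomial.aeval_X]

/-- `2 ^ k` -/
def lT : Tm := sh one k

/-- `2 ^ (2 k)` -/
def uT : Tm := sh one (ns 2 k)

/-- `9 * 2 ^ (2 k)` -/
def bT : Tm := ns 9 uT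

/-- the number `2 ^ 2 ^ (2 k)` -/
def UU (e : Env) : ℕ := 2 ^ 2 ^ (2 * e.k.toNat)

theorem good_k {e : Env} (hk : 0 ≤ e.k) : Good e k := ⟨ok_k e, hk⟩

theorem good_lT {e : Env} (hk : 0 ≤ e.k) : Good e lT := by
  refine ⟨(ok_sh e _ _).2 ⟨ok_one e, good_k hk⟩, ?_⟩
  simp only [lT, ev]
  positivity

theorem good_uT {e : Env} (hk : 0 ≤ e.k) : Good e uT := by
  refine ⟨(ok_sh e _ _).2 ⟨ok_one e, good_ns e (good_k hk) 2⟩, ?_⟩
  simp only [uT, ev]
  positivity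

theorem good_bT {e : Env} (hk : 0 ≤ e.k) : Good e bT := good_ns e (good_uT hk) 9

theorem nj_lT : NJ lT := nj_sh nj_one nj_k
theorem nj_uT : NJ uT := nj_sh nj_one (nj_ns nj_k 2)
theorem nj_bT : NJ bT := nj_ns nj_uT 9

theorem ev_lT (e : Env) : ev e lT = ((2 ^ e.k.toNat : ℕ) : ℤ) := by
  simp only [lT, ev]
  push_cast
  ring

theorem ev_uT {e : Env} (hk : 0 ≤ e.k) : ev e uT = ((2 ^ (2 * e.k.toNat) : ℕ) : ℤ) := by
  simp only [uT, ev, ev_ns]
  rw [Int.toNat_mul (Int.natCast_nonneg _) hk, Int.toNat_natCast]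
  push_cast
  ring

theorem two_pow_l {e : Env} : (2 : ℤ) ^ (ev e lT).toNat = ((2 ^ 2 ^ e.k.toNat : ℕ) : ℤ) := by
  rw [ev_lT, Int.toNat_natCast]
  push_cast
  rfl

theorem two_pow_u {e : Env} (hk : 0 ≤ e.k) (j : ℕ) :
    (2 : ℤ) ^ (ev e (ns j uT)).toNat = (UU e : ℤ) ^ j := by
  rw [ev_ns, ev_uT hk, UU]
  rw [← Nat.cast_mul, Int.toNat_natCast]
  push_cast
  rw [← pow_mul, mul_comm]

theorem two_pow_b {e : Env} (hk : 0 ≤ e.k) (j : ℕ) :
    (2 : ℤ) ^ (ev e (ns j bT)).toNat = ((UU e : ℤ) ^ 9) ^ j := by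
  rw [ev_ns, bT, ev_ns, ev_uT hk, UU]
  have : ((j : ℤ) * (((9 : ℕ) : ℤ) * ((2 ^ (2 * e.k.toNat) : ℕ) : ℤ))) =
      ((2 ^ (2 * e.k.toNat) * 9 * j : ℕ) : ℤ) := by
    push_cast
    ring
  rw [this, Int.toNat_natCast]
  push_cast
  rw [← pow_mul, ← pow_mul, mul_assoc]

theorem two_le_UU (e : Env) : 2 ≤ UU e := by
  rw [UU]
  calc 2 = 2 ^ 1 := rfl
    _ ≤ 2 ^ 2 ^ (2 * e.k.toNat) := Nat.pow_le_pow_right (by norm_num) Nat.one_le_two_pow

section

variable {q m : ℕ} (αT γT : Fin m → Fin q → Tm) (cT : Fin m → Tm)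

/-- the exponents as terms -/
def epT (p : Fin q) : Tm :=
  add (sh one (ns m bT)) (tsum fun l : Fin m => sh (αT l p) (ns l bT))

/-- the index as a term -/
def ixT : Tm :=
  add (sh (sh one (ns 2 uT)) (ns m bT)) (tsum fun l : Fin m => sh (cT l) (ns l bT))

variable (q m) in
/-- multiplication by the exponent of the base -/
def XX (T : Tm) : Tm := ns (4 * (2 * q + 1)) (sh T (ns (m + 1) bT))

variable (q m) in
/-- the exponent of the base -/
def ex (e : Env) : ℕ := 4 * (2 * q + 1) * (UU e ^ 9) ^ (m + 1)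

variable {αT γT cT}

theorem ev_epT {e : Env} (hk : 0 ≤ e.k) (p : Fin q) :
    ev e (epT αT p) = ep (fun l p => ev e (αT l p)) ((UU e : ℤ) ^ 9) p := by
  rw [epT, ev, ev_tsum, ep]
  simp only [ev]
  rw [two_pow_b hk, one_mul]
  congr 1
  apply Finset.sum_congr rfl
  intro l _
  rw [two_pow_b hk, mul_comm]

theorem ev_ixT {e : Env} (hk : 0 ≤ e.k) :
    ev e (ixT cT) = ix (fun l => ev e (cT l)) ((UU e : ℤ) ^ 9) ((UU e : ℤ) ^ 2) := by
  rw [ixT, ev, ev_tsum, ix]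
  simp only [ev]
  rw [two_pow_b hk, two_pow_u hk, one_mul, mul_comm (((UU e : ℤ)) ^ 2)]
  congr 1
  apply Finset.sum_congr rfl
  intro l _
  rw [two_pow_b hk, mul_comm]

theorem ev_XX {e : Env} (hk : 0 ≤ e.k) (T : Tm) : ev e (XX q m T) = ex q m e * ev e T := by
  rw [XX, ev_ns, ev, two_pow_b hk, ex]
  push_cast
  ring

theorem good_XX {e : Env} (hk : 0 ≤ e.k) {T : Tm} (h : Good e T) : Good e (XX q m T) := by
  refine ⟨ok_ns e ((ok_sh e _ _).2 ⟨h.1, good_ns e (good_bT hk) _⟩) _, ?_⟩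
  rw [ev_XX hk]
  exact mul_nonneg (Int.natCast_nonneg _) h.2

theorem ok_epT {e : Env} (hk : 0 ≤ e.k) (h : ∀ l p, ok e (αT l p)) (p : Fin q) :
    ok e (epT αT p) := by
  rw [epT, ok_add, ok_sh]
  exact ⟨⟨ok_one e, good_ns e (good_bT hk) _⟩,
    ok_tsum e (fun l => (ok_sh e _ _).2 ⟨h l p, good_ns e (good_bT hk) _⟩)⟩

theorem ok_ixT {e : Env} (hk : 0 ≤ e.k) (h : ∀ l, ok e (cT l)) : ok e (ixT cT) := by
  rw [ixT, ok_add, ok_sh, ok_sh]
  exact ⟨⟨⟨ok_one e, good_ns e (good_uT hk) _⟩, good_ns e (good_bT hk) _⟩,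
    ok_tsum e (fun l => (ok_sh e _ _).2 ⟨h l, good_ns e (good_bT hk) _⟩)⟩

theorem nj_epT (h : ∀ l p, NJ (αT l p)) (p : Fin q) : NJ (epT αT p) :=
  nj_add (nj_sh nj_one (nj_ns nj_bT _))
    (nj_tsum (fun l => nj_sh (h l p) (nj_ns nj_bT _)))

theorem nj_ixT (h : ∀ l, NJ (cT l)) : NJ (ixT cT) :=
  nj_add (nj_sh (nj_sh nj_one (nj_ns nj_uT _)) (nj_ns nj_bT _))
    (nj_tsum (fun l => nj_sh (h l) (nj_ns nj_bT _)))

theorem nj_XX {T : Tm} (h : NJ T) : NJ (XX q m T) := nj_ns (nj_sh h (nj_ns nj_bT _)) _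

/-- the bounds needed for packing -/
theorem bound_B (e : Env) :
    (1 : ℤ) ≤ (UU e : ℤ) ^ 3 ∧ (1 : ℤ) ≤ (UU e : ℤ) ^ 2 ∧
      8 * (UU e : ℤ) ^ 3 * ((UU e : ℤ) ^ 2 + 1) ≤ (UU e : ℤ) ^ 9 := by
  have h : (2 : ℤ) ≤ UU e := by exact_mod_cast two_le_UU e
  set U : ℤ := (UU e : ℤ)
  have h1 : (1 : ℤ) ≤ U := by linarith
  refine ⟨one_le_pow₀ h1, one_le_pow₀ h1, ?_⟩
  have h2 : (1 : ℤ) ≤ U ^ 2 := one_le_pow₀ h1
  have h3 : (2 : ℤ) ^ 4 ≤ U ^ 4 := pow_le_pow_left₀ (by norm_num) h 4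
  have h4 : 8 * (U ^ 2 + 1) ≤ U ^ 6 := by
    have h5 : U ^ 6 = U ^ 4 * U ^ 2 := by ring
    rw [h5]
    nlinarith
  have h5 : (0 : ℤ) ≤ U ^ 3 := by positivity
  calc 8 * U ^ 3 * (U ^ 2 + 1) = U ^ 3 * (8 * (U ^ 2 + 1)) := by ring
    _ ≤ U ^ 3 * U ^ 6 := mul_le_mul_of_nonneg_left h4 h5
    _ = U ^ 9 := by ring

theorem ratio (y z : ℝ) (hy : 3 ≤ y) (hz : 3 ≤ z) :
    (1 - y⁻¹ * (1 + z⁻¹))⁻¹ = y * z / (y * z - z - 1) ∧ 0 < y * z - z - 1 := by
  have h1 : 0 < y * z - z - 1 := by nlinarith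
  refine ⟨?_, h1⟩
  have hy0 : y ≠ 0 := by linarith
  have hz0 : z ≠ 0 := by linarith
  have : 1 - y⁻¹ * (1 + z⁻¹) = (y * z - z - 1) / (y * z) := by
    field_simp
    ring
  rw [this, inv_div]

/-- The parity of the coefficient is expressed by two inequalities with the unknown `J`. -/
theorem meaning (hαj : ∀ l p, NJ (αT l p)) (hγj : ∀ l p, NJ (γT l p)) (hcj : ∀ l, NJ (cT l)) :
    ∃ R1 R2 : Tm, ∀ e : Env, 0 ≤ e.k → (∀ l p, ok e (αT l p)) → (∀ l p, ok e (γT l p)) →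
      (∀ l, ok e (cT l)) →
      (∀ l p, |ev e (αT l p)| ≤ (UU e : ℤ) ^ 3) → (∀ l p, |ev e (γT l p)| ≤ (UU e : ℤ) ^ 3) →
      (∀ l, |ev e (cT l)| ≤ (UU e : ℤ) ^ 3) →
      ((ok e R1 ∧ ok e R2) ∧
      ((∃ J : ℤ, 0 ≤ ev ⟨e.n, e.k, J⟩ R1 ∧ 0 ≤ ev ⟨e.n, e.k, J⟩ R2) ↔
        Odd (cc (fun p => (ev e (epT αT p)).toNat) (fun p => (ev e (epT γT p)).toNat)
          (ev e (ixT cT)).toNat))) := by
  let AE : Fin q ⊕ Fin q → Tm := Sum.elim (fun p => XX q m (epT αT p)) (fun p => XX q m (epT γT p))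
  obtain ⟨F, hF, hF2⟩ := exists_mulP AE
    (∏ p, (MvPolynomial.X (Sum.inl p) * MvPolynomial.X (Sum.inr p)))
  obtain ⟨G, hG, hG2⟩ := exists_mulP AE
    (∏ p, (MvPolynomial.X (Sum.inl p) * MvPolynomial.X (Sum.inr p) -
      MvPolynomial.X (Sum.inr p) - 1))
  let MI : Tm := sh one (XX q m (ixT cT))
  let R : Tm := sub (F MI) (G (add (add J J) one))
  refine ⟨R, sub (sub (G one) one) R, fun e hk hαo hγo hco hαb hγb hcb => ?_⟩
  obtain ⟨hH, hD, hB⟩ := bound_B e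
  have hep : ∀ p, 1 ≤ ev e (epT αT p) := fun p => by
    rw [ev_epT hk]
    exact one_le_ep hH hD hB hαb p
  have hfp : ∀ p, 1 ≤ ev e (epT γT p) := fun p => by
    rw [ev_epT hk]
    exact one_le_ep hH hD hB hγb p
  have hix := ix_bounds hH hD hB hcb
  rw [← ev_ixT hk] at hix
  have hAE : ∀ i, Good e (AE i) := by
    rintro (p | p)
    · exact good_XX hk ⟨ok_epT hk hαo p, by have := hep p; omega⟩
    · exact good_XX hk ⟨ok_epT hk hγo p, by have := hfp p; omega⟩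
  have hMIok : ok e MI := (ok_sh _ _ _).2 ⟨ok_one _, good_XX hk ⟨ok_ixT hk hco, hix.1⟩⟩
  have hRok : ok e R := by
    rw [ok_sub]
    refine ⟨hF _ _ hAE hMIok, hG _ _ hAE ?_⟩
    rw [ok_add, ok_add]
    exact ⟨⟨ok_J e, ok_J e⟩, ok_one e⟩
  refine ⟨⟨hRok, ?_⟩, ?_⟩
  · rw [ok_sub, ok_sub]
    exact ⟨⟨hG _ _ hAE (ok_one _), ok_one _⟩, hRok⟩
  set ef : Fin q → ℕ := fun p => (ev e (epT αT p)).toNat with hef
  set ff : Fin q → ℕ := fun p => (ev e (epT γT p)).toNat with hff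
  set I : ℕ := (ev e (ixT cT)).toNat with hI
  set M : ℕ := 2 ^ ex q m e with hM
  have hef1 : ∀ p, 1 ≤ ef p := fun p => by have := hep p; simp only [hef]; omega
  have hff1 : ∀ p, 1 ≤ ff p := fun p => by have := hfp p; simp only [hff]; omega
  have hU2 := two_le_UU e
  have hX1 : 1 ≤ (UU e ^ 9) ^ (m + 1) := Nat.one_le_pow _ _ (Nat.one_le_pow _ _ (by omega))
  have hex1 : 1 ≤ ex q m e := by
    rw [ex]
    have : 1 ≤ 4 * (2 * q + 1) := by omega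
    exact Nat.mul_pos this hX1
  have hMe : Even M := by
    rw [hM]
    exact (Nat.even_pow.2 ⟨even_two, by omega⟩)
  have hIle : I ≤ (UU e ^ 9) ^ (m + 1) := by
    have h1 := hix.2
    rw [hI]
    have h2 : ((UU e : ℤ) ^ 9) ^ (m + 1) = (((UU e ^ 9) ^ (m + 1) : ℕ) : ℤ) := by push_cast; rfl
    rw [h2] at h1
    omega
  have hbig : ((2 ^ (2 * q + 1)) ^ I + 1) * 2 ^ (2 * q + 1) < M := by
    have h1 : (2 ^ (2 * q + 1)) ^ I + 1 ≤ 2 ^ ((2 * q + 1) * I + 1) := by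
      rw [← pow_mul, pow_succ]
      have := Nat.one_le_two_pow (n := (2 * q + 1) * I)
      omega
    calc ((2 ^ (2 * q + 1)) ^ I + 1) * 2 ^ (2 * q + 1)
        ≤ 2 ^ ((2 * q + 1) * I + 1) * 2 ^ (2 * q + 1) := Nat.mul_le_mul_right _ h1
      _ = 2 ^ ((2 * q + 1) * I + 1 + (2 * q + 1)) := (pow_add _ _ _).symm
      _ < 2 ^ ex q m e := by
        apply Nat.pow_lt_pow_right (by norm_num)
        rw [ex]
        set X := (UU e ^ 9) ^ (m + 1)
        have h2 : (2 * q + 1) * I ≤ (2 * q + 1) * X := Nat.mul_le_mul_left _ hIle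
        have h3 : (2 * q + 1) * 1 ≤ (2 * q + 1) * X := Nat.mul_le_mul_left _ hX1
        have h4 : 4 * (2 * q + 1) * X = 4 * ((2 * q + 1) * X) := by ring
        rw [h4]
        omega
  rw [← parity hef1 hff1 hMe I hbig]
  -- the values substituted for the variables
  have hval : ∀ T, NJ T → 0 ≤ ev e T → ∀ J : ℤ,
      (2 : ℤ) ^ (ev ⟨e.n, e.k, J⟩ (XX q m T)).toNat = (M : ℤ) ^ (ev e T).toNat := by
    intro T hT hT0 J
    have h1 : ev ⟨e.n, e.k, J⟩ (XX q m T) = ev e (XX q m T) := by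
      have h2 := nj_XX (q := q) (m := m) hT e.n e.k J
      have h3 := nj_XX (q := q) (m := m) hT e.n e.k e.J
      rw [h2, ← h3]
    rw [h1, ev_XX hk, Int.toNat_mul (Int.natCast_nonneg _) hT0, Int.toNat_natCast, hM]
    push_cast
    rw [← pow_mul]
  have hya : ∀ J p, (2 : ℤ) ^ (ev ⟨e.n, e.k, J⟩ (AE (Sum.inl p))).toNat = (M : ℤ) ^ ef p :=
    fun J p => hval _ (nj_epT hαj p) (by have := hep p; omega) J
  have hyb : ∀ J p, (2 : ℤ) ^ (ev ⟨e.n, e.k, J⟩ (AE (Sum.inr p))).toNat = (M : ℤ) ^ ff p :=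
    fun J p => hval _ (nj_epT hγj p) (by have := hfp p; omega) J
  have hMI : ∀ J, ev ⟨e.n, e.k, J⟩ MI = (M : ℤ) ^ I := by
    intro J
    have := hval _ (nj_ixT hcj) hix.1 J
    simp only [MI, ev]
    rw [this, one_mul]
  have hM4 : 4 ≤ M := by
    have h1 : 2 ≤ (2 ^ (2 * q + 1)) ^ I + 1 := by
      have := Nat.one_le_pow I (2 ^ (2 * q + 1)) (Nat.two_pow_pos _)
      omega
    have h2 : 2 ≤ 2 ^ (2 * q + 1) := by
      rw [pow_succ]
      have := Nat.one_le_two_pow (n := 2 * q)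
      omega
    have h3 := Nat.mul_le_mul h1 h2
    omega
  have hMr : (3 : ℝ) ≤ M := by
    have : 3 ≤ M := by omega
    exact_mod_cast this
  have hpow : ∀ k : ℕ, 1 ≤ k → (3 : ℝ) ≤ (M : ℝ) ^ k := fun k hk => by
    calc (3 : ℝ) ≤ M := hMr
      _ = (M : ℝ) ^ 1 := (pow_one _).symm
      _ ≤ (M : ℝ) ^ k := pow_le_pow_right₀ (by linarith) hk
  have hrat := fun p => ratio ((M : ℝ) ^ ef p) ((M : ℝ) ^ ff p) (hpow _ (hef1 p)) (hpow _ (hff1 p))
  set NN : ℝ := ∏ p, ((M : ℝ) ^ ef p * (M : ℝ) ^ ff p) with hNN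
  set DD : ℝ := ∏ p, ((M : ℝ) ^ ef p * (M : ℝ) ^ ff p - (M : ℝ) ^ ff p - 1) with hDD
  have hDD0 : 0 < DD := Finset.prod_pos (fun p _ => (hrat p).2)
  have hprod : ∏ p, (1 - ((M : ℝ) ^ ef p)⁻¹ * (1 + ((M : ℝ) ^ ff p)⁻¹))⁻¹ = NN / DD := by
    rw [hNN, hDD, ← Finset.prod_div_distrib]
    exact Finset.prod_congr rfl (fun p _ => (hrat p).1)
  rw [hprod]
  have hG1 : ∀ J T, ((ev ⟨e.n, e.k, J⟩ (G T) : ℤ) : ℝ) =
      DD * (ev ⟨e.n, e.k, J⟩ T : ℤ) := by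
    intro J T
    rw [hG2, Int.cast_mul, cast_eval]
    congr 1
    simp only [map_prod, map_sub, map_mul, map_one, MvPolynomial.aeval_X, hya, hyb]
    push_cast
    rfl
  have hF1 : ∀ J T, ((ev ⟨e.n, e.k, J⟩ (F T) : ℤ) : ℝ) =
      NN * (ev ⟨e.n, e.k, J⟩ T : ℤ) := by
    intro J T
    rw [hF2, Int.cast_mul, cast_eval]
    congr 1
    simp only [map_prod, map_mul, MvPolynomial.aeval_X, hya, hyb]
    push_cast
    rfl
  have hR : ∀ J : ℤ, ((ev ⟨e.n, e.k, J⟩ R : ℤ) : ℝ) =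
      NN * (M : ℝ) ^ I - DD * (2 * J + 1) := by
    intro J
    rw [ev_sub, Int.cast_sub, hF1, hG1, hMI]
    simp only [ev]
    push_cast
    ring
  apply exists_congr
  intro J
  have e1 : 0 ≤ ev ⟨e.n, e.k, J⟩ R ↔ (2 * J + 1 : ℝ) ≤ M ^ I * (NN / DD) := by
    rw [← Int.cast_le (R := ℝ), Int.cast_zero, hR, sub_nonneg, ← mul_div_assoc, le_div_iff₀ hDD0,
      mul_comm (2 * (J : ℝ) + 1), mul_comm ((M : ℝ) ^ I)]
  have e2 : 0 ≤ ev ⟨e.n, e.k, J⟩ (sub (sub (G one) one) R) ↔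
      M ^ I * (NN / DD) < 2 * (J : ℝ) + 1 + 1 := by
    rw [ev_sub, ev_sub]
    have h2 : (0 ≤ ev ⟨e.n, e.k, J⟩ (G one) - ev ⟨e.n, e.k, J⟩ one -
        ev ⟨e.n, e.k, J⟩ R) ↔
        ev ⟨e.n, e.k, J⟩ R < ev ⟨e.n, e.k, J⟩ (G one) := by
      simp only [ev]
      omega
    rw [h2, ← Int.cast_lt (R := ℝ), hR, hG1]
    simp only [ev, Int.cast_one, mul_one]
    rw [← mul_div_assoc, div_lt_iff₀ hDD0, mul_comm ((M : ℝ) ^ I)]
    constructor
    · intro h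
      linarith
    · intro h
      linarith
  rw [e1, e2]

end

end Pool.Agent.H355.OE
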