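import Mathlib

/-!
# Parity of binomial coefficients and digits
-/

set_option autoImplicit false

namespace Pool.Agent.H355.OE

theorem odd_choose_two (a b : ℕ) :
    Odd (a.choose b) ↔ Odd ((a % 2).choose (b % 2)) ∧ Odd ((a / 2).choose (b / 2)) := by
  have h := Choose.choose_modEq_choose_mod_mul_choose_div_nat (n := a) (k := b) (p := 2)
  rw [← Nat.odd_mul, Nat.odd_iff, Nat.odd_iff]
  have h2 : a.choose b % 2 = ((a % 2).choose (b % 2) * (a / 2).choose (b / 2)) % 2 := h
  rw [h2]

theorem odd_choose_pow (l : ℕ) (a b : ℕ) :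
    Odd (a.choose b) ↔
      Odd ((a % 2 ^ l).choose (b % 2 ^ l)) ∧ Odd ((a / 2 ^ l).choose (b / 2 ^ l)) := by
  induction l generalizing a b with
  | zero => simp [Nat.mod_one]
  | succ l ih =>
    have h1 : ∀ c : ℕ, c % 2 ^ (l + 1) % 2 = c % 2 := by
      intro c
      exact Nat.mod_mod_of_dvd c (dvd_pow_self 2 (Nat.succ_ne_zero l))
    have h2 : ∀ c : ℕ, c % 2 ^ (l + 1) / 2 = (c / 2) % 2 ^ l := by
      intro c
      rw [pow_succ, mul_comm, Nat.mod_mul_right_div_self]
    have h3 : ∀ c : ℕ, c / 2 ^ (l + 1) = (c / 2) / 2 ^ l := by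
      intro c
      rw [pow_succ, mul_comm, Nat.div_div_eq_div_mul]
    rw [odd_choose_two (a % 2 ^ (l + 1)), h1, h1, h2, h2, h3, h3, odd_choose_two a b,
      ih (a / 2) (b / 2)]
    tauto

theorem odd_choose_ones (e b : ℕ) : Odd ((2 ^ e - 1).choose b) ↔ b < 2 ^ e := by
  induction e generalizing b with
  | zero =>
    rcases b with _ | b
    · simp
    · simp
  | succ e ih =>
    rw [odd_choose_two]
    have h1 : (2 ^ (e + 1) - 1) % 2 = 1 := by
      have := Nat.one_le_two_pow (n := e)
      rw [pow_succ]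
      omega
    have h2 : (2 ^ (e + 1) - 1) / 2 = 2 ^ e - 1 := by
      have := Nat.one_le_two_pow (n := e)
      rw [pow_succ]
      omega
    rw [h1, h2, ih]
    have h3 : Odd ((1 : ℕ).choose (b % 2)) := by
      rcases Nat.mod_two_eq_zero_or_one b with h | h <;> rw [h] <;> decide
    have h4 : b / 2 < 2 ^ e ↔ b < 2 ^ (e + 1) := by
      rw [pow_succ]
      omega
    rw [h4]
    exact and_iff_right h3

theorem odd_choose_zero (b : ℕ) : Odd ((0 : ℕ).choose b) ↔ b = 0 := by
  rcases b with _ | b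
  · simp
  · simp

theorem odd_choose_one (b : ℕ) : Odd ((1 : ℕ).choose b) ↔ b ≤ 1 := by
  have := odd_choose_ones 1 b
  simp only [pow_one] at this
  rw [show (1 : ℕ) = 2 - 1 from rfl, this]
  omega

theorem le_of_odd_choose {a b : ℕ} (h : Odd (a.choose b)) : b ≤ a := by
  by_contra hc
  push Not at hc
  rw [Nat.choose_eq_zero_of_lt hc] at h
  exact absurd h (by decide)

/-- the number with the digits `f 0, …, f (τ - 1)` in base `Q` -/
def num (Q : ℕ) : ℕ → (ℕ → ℕ) → ℕ
  | 0, _ => 0
  | τ + 1, f => f 0 + Q * num Q τ (fun t => f (t + 1))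

section

variable (Q : ℕ)

theorem num_add (τ : ℕ) (f g : ℕ → ℕ) :
    num Q τ (fun t => f t + g t) = num Q τ f + num Q τ g := by
  induction τ generalizing f g with
  | zero => rfl
  | succ τ ih =>
    rw [num, num, num, ih (fun t => f (t + 1)) (fun t => g (t + 1))]
    ring

theorem num_mul (τ : ℕ) (c : ℕ) (f : ℕ → ℕ) :
    num Q τ (fun t => c * f t) = c * num Q τ f := by
  induction τ generalizing f with
  | zero => rfl
  | succ τ ih =>
    rw [num, num, ih (fun t => f (t + 1))]
    ring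

theorem num_zero (τ : ℕ) : num Q τ (fun _ => 0) = 0 := by
  have := num_mul Q τ 0 (fun _ => 0)
  simpa using this

theorem num_sum {ι : Type} (s : Finset ι) (τ : ℕ) (f : ι → ℕ → ℕ) :
    num Q τ (fun t => ∑ i ∈ s, f i t) = ∑ i ∈ s, num Q τ (f i) := by
  classical
  induction s using Finset.induction_on with
  | empty => simpa using num_zero Q τ
  | insert i s hi ih =>
    rw [Finset.sum_insert hi, ← ih, ← num_add]
    congr 1
    funext t
    rw [Finset.sum_insert hi]

theorem num_shift (τ : ℕ) (f : ℕ → ℕ) :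
    num Q τ f + f τ * Q ^ τ = f 0 + Q * num Q τ (fun t => f (t + 1)) := by
  induction τ generalizing f with
  | zero => simp [num]
  | succ τ ih =>
    have := ih (fun t => f (t + 1))
    rw [num, num, ← this]
    ring

theorem num_succ (τ : ℕ) (f : ℕ → ℕ) : num Q (τ + 1) f = num Q τ f + f τ * Q ^ τ := by
  rw [num_shift, num]

theorem num_congr {τ : ℕ} {f g : ℕ → ℕ} (h : ∀ t < τ, f t = g t) : num Q τ f = num Q τ g := by
  induction τ generalizing f g with
  | zero => rfl
  | succ τ ih =>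
    rw [num, num, h 0 (Nat.succ_pos _), ih (fun t ht => h (t + 1) (by omega))]

theorem num_lt {τ : ℕ} {f : ℕ → ℕ} (h : ∀ t < τ, f t < Q) : num Q τ f < Q ^ τ := by
  induction τ generalizing f with
  | zero => simp [num]
  | succ τ ih =>
    have h1 := ih (f := fun t => f (t + 1)) (fun t ht => h (t + 1) (by omega))
    have h2 := h 0 (Nat.succ_pos _)
    have h3 : Q * num Q τ (fun t => f (t + 1)) + Q ≤ Q * Q ^ τ := by
      rw [← Nat.mul_succ]
      exact Nat.mul_le_mul_left _ h1
    rw [num, pow_succ']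
    omega

theorem num_inj {τ : ℕ} {f g : ℕ → ℕ} (hf : ∀ t < τ, f t < Q) (hg : ∀ t < τ, g t < Q)
    (h : num Q τ f = num Q τ g) : ∀ t < τ, f t = g t := by
  induction τ generalizing f g with
  | zero => intro t ht; omega
  | succ τ ih =>
    rw [num, num] at h
    have hf0 := hf 0 (Nat.succ_pos _)
    have hg0 := hg 0 (Nat.succ_pos _)
    have h1 := congrArg (· % Q) h
    simp only [Nat.add_mul_mod_self_left, Nat.mod_eq_of_lt hf0, Nat.mod_eq_of_lt hg0] at h1
    have h2 : num Q τ (fun t => f (t + 1)) = num Q τ (fun t => g (t + 1)) := by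
      rw [h1] at h
      exact Nat.eq_of_mul_eq_mul_left (by omega) (Nat.add_left_cancel h)
    intro t ht
    rcases t with _ | t
    · exact h1
    · exact ih (fun t ht => hf (t + 1) (by omega)) (fun t ht => hg (t + 1) (by omega)) h2 t
        (by omega)

theorem exists_digits (hQ : 0 < Q) {τ b : ℕ} (h : b < Q ^ τ) :
    ∃ d : ℕ → ℕ, (∀ t, d t < Q) ∧ num Q τ d = b := by
  induction τ generalizing b with
  | zero =>
    refine ⟨fun _ => 0, fun _ => hQ, ?_⟩
    rw [pow_zero] at h
    rw [num]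
    omega
  | succ τ ih =>
    obtain ⟨d, h1, h2⟩ := ih (b := b / Q) (by
      rw [Nat.div_lt_iff_lt_mul hQ, ← pow_succ]
      exact h)
    refine ⟨fun t => if t = 0 then b % Q else d (t - 1), fun t => ?_, ?_⟩
    · change (if t = 0 then b % Q else d (t - 1)) < Q
      split_ifs
      · exact Nat.mod_lt _ hQ
      · exact h1 _
    · rw [num]
      simp only [if_true, Nat.succ_ne_zero, if_false, Nat.add_sub_cancel]
      rw [h2]
      exact Nat.mod_add_div b Q

theorem num_ones (hQ : 1 ≤ Q) (τ : ℕ) : (Q - 1) * num Q τ (fun _ => 1) = Q ^ τ - 1 := by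
  have := num_shift Q τ (fun _ => 1)
  obtain ⟨R, rfl⟩ := Nat.exists_eq_add_of_le hQ
  rw [Nat.add_sub_cancel_left]
  simp only [one_mul] at this
  have h2 : (1 + R) * num (1 + R) τ (fun _ => 1) =
      num (1 + R) τ (fun _ => 1) + R * num (1 + R) τ (fun _ => 1) := by ring
  omega

/-- comparison of two numbers with shifted digits -/
theorem num_compare {τ x y : ℕ} {f g : ℕ → ℕ} (hf : ∀ t < τ, f t < Q) (hg : ∀ t < τ, g t < Q)
    (hx : x < Q) (hy : y < Q) (h : num Q τ f + x * Q ^ τ = y + Q * num Q τ g) :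
    ∀ t ≤ τ, (if t < τ then f t else x) = if t = 0 then y else g (t - 1) := by
  have h1 : num Q (τ + 1) (fun t => if t < τ then f t else x) =
      num Q (τ + 1) (fun t => if t = 0 then y else g (t - 1)) := by
    rw [num_succ, num]
    simp only [lt_self_iff_false, if_false, if_true, Nat.succ_ne_zero, Nat.add_sub_cancel]
    rw [← h]
    congr 1
    apply num_congr
    intro t ht
    simp only [if_pos ht]
  intro t ht
  refine num_inj Q ?_ ?_ h1 t (by omega)
  · intro t ht
    change (if t < τ then f t else x) < Q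
    split_ifs with h2
    · exact hf t h2
    · exact hx
  · intro t ht
    change (if t = 0 then y else g (t - 1)) < Q
    split_ifs with h2
    · exact hy
    · exact hg _ (by omega)

end

theorem odd_choose_num (l τ : ℕ) {f d : ℕ → ℕ} (hf : ∀ t < τ, f t < 2 ^ l)
    (hd : ∀ t < τ, d t < 2 ^ l) :
    Odd ((num (2 ^ l) τ f).choose (num (2 ^ l) τ d)) ↔ ∀ t < τ, Odd ((f t).choose (d t)) := by
  induction τ generalizing f d with
  | zero => simp [num]
  | succ τ ih =>
    rw [odd_choose_pow l, num, num]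
    have hf0 := hf 0 (Nat.succ_pos _)
    have hd0 := hd 0 (Nat.succ_pos _)
    have hpos : 0 < 2 ^ l := Nat.two_pow_pos l
    rw [Nat.add_mul_mod_self_left, Nat.add_mul_mod_self_left, Nat.mod_eq_of_lt hf0,
      Nat.mod_eq_of_lt hd0, Nat.add_mul_div_left _ _ hpos, Nat.add_mul_div_left _ _ hpos,
      Nat.div_eq_of_lt hf0, Nat.div_eq_of_lt hd0, zero_add, zero_add,
      ih (fun t ht => hf (t + 1) (by omega)) (fun t ht => hd (t + 1) (by omega))]
    constructor
    · rintro ⟨h1, h2⟩ t ht
      rcases t with _ | t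
      · exact h1
      · exact h2 t (by omega)
    · intro h
      exact ⟨h 0 (Nat.succ_pos _), fun t ht => h (t + 1) (by omega)⟩

/-- the digits of a masked number -/
theorem digits_of_odd (l τ : ℕ) {f : ℕ → ℕ} (hf : ∀ t < τ, f t < 2 ^ l) {b : ℕ}
    (h : Odd ((num (2 ^ l) τ f).choose b)) :
    ∃ d : ℕ → ℕ, num (2 ^ l) τ d = b ∧ (∀ t < τ, d t < 2 ^ l) ∧
      ∀ t < τ, Odd ((f t).choose (d t)) := by
  have h1 : b < (2 ^ l) ^ τ := lt_of_le_of_lt (le_of_odd_choose h) (num_lt _ hf)
  obtain ⟨d, h2, h3⟩ := exists_digits (2 ^ l) (Nat.two_pow_pos l) h1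
  refine ⟨d, h3, fun t _ => h2 t, ?_⟩
  rw [← h3] at h
  exact (odd_choose_num l τ hf (fun t _ => h2 t)).1 h

end Pool.Agent.H355.OE
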