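import Mathlib
import Pool.Agent.H355.OE.Mask

/-!
# Linear equations and masks describing the runs of a register machine
-/

set_option autoImplicit false

namespace Pool.Agent.H355.OE

/-- A deterministic machine given by branches: a branch `β` leads from the state `src β` to the
state `tgt β`; it requires `pos β j ≤ ρ j` and, if `zer β j ≠ 0`, also `ρ j = pos β j` for the
registers `ρ`, and replaces `ρ j` by `ρ j - pos β j + inc β j`. -/
structure Mch (St Reg Br : Type) where
  src : Br → St
  tgt : Br → St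
  pos : Br → Reg → ℕ
  zer : Br → Reg → ℕ
  inc : Br → Reg → ℕ
  br : St → (Reg → ℕ) → Br
  pos_le : ∀ β j, pos β j ≤ 1
  zer_le : ∀ β j, zer β j ≤ 1
  inc_le : ∀ β j, inc β j ≤ 1
  src_br : ∀ q ρ, src (br q ρ) = q
  pos_br : ∀ q ρ j, pos (br q ρ) j ≤ ρ j
  zer_br : ∀ q ρ j, zer (br q ρ) j ≠ 0 → ρ j = pos (br q ρ) j
  uniq : ∀ β ρ, (∀ j, pos β j ≤ ρ j) → (∀ j, zer β j ≠ 0 → ρ j = pos β j) →
    β = br (src β) ρ

namespace Mch

variable {St Reg Br : Type} (M : Mch St Reg Br)

/-- one step -/
def step (c : St × (Reg → ℕ)) : St × (Reg → ℕ) :=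
  (M.tgt (M.br c.1 c.2), fun j => c.2 j - M.pos (M.br c.1 c.2) j + M.inc (M.br c.1 c.2) j)

/-- the configuration at time `t` -/
def conf (c : St × (Reg → ℕ)) (t : ℕ) : St × (Reg → ℕ) := M.step^[t] c

/-- the branch taken at time `t` -/
def brt (c : St × (Reg → ℕ)) (t : ℕ) : Br := M.br (M.conf c t).1 (M.conf c t).2

theorem conf_succ (c : St × (Reg → ℕ)) (t : ℕ) :
    M.conf c (t + 1) = (M.tgt (M.brt c t),
      fun j => (M.conf c t).2 j - M.pos (M.brt c t) j + M.inc (M.brt c t) j) := by
  rw [conf, Function.iterate_succ_apply']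
  rfl

variable [Fintype St] [Fintype Br] [DecidableEq St] [DecidableEq Br]

/-- the equations and masks: `l` is the number of binary digits of the base, `τ` the number of
steps -/
structure Sol (l τ : ℕ) (q0 q1 : St) (x : Reg → ℕ) (Ib Lb : Br → ℕ) (A Dd : Reg → ℕ) : Prop where
  hI : ∀ β, (2 ^ l - 1) * Ib β = (2 ^ l) ^ τ - 1
  hL : ∀ β, Odd ((Ib β).choose (Lb β))
  hA : ∀ j, (2 ^ l - 1) * A j + (2 ^ l - 1) * (2 ^ (l - 1) - 1) * ∑ β, M.zer β j * Lb β =
    (2 ^ (l - 1) - 1) * ((2 ^ l) ^ τ - 1)
  hD : ∀ j, Odd ((A j).choose (Dd j))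
  hS : ∀ q, (∑ β, if M.src β = q then Lb β else 0) + (if q = q1 then 1 else 0) * (2 ^ l) ^ τ =
    (if q = q0 then 1 else 0) + 2 ^ l * ∑ β, if M.tgt β = q then Lb β else 0
  hR : ∀ j, Dd j + ∑ β, M.pos β j * Lb β = x j + 2 ^ l * (Dd j + ∑ β, M.inc β j * Lb β)

variable (l τ : ℕ) (q0 q1 : St) (x : Reg → ℕ)

/-- the canonical solution -/
def cL (β : Br) : ℕ := num (2 ^ l) τ (fun t => if M.brt (q0, x) t = β then 1 else 0)

def cD (j : Reg) : ℕ :=
  num (2 ^ l) τ (fun t => (M.conf (q0, x) t).2 j - M.pos (M.brt (q0, x) t) j)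

def cA (j : Reg) : ℕ :=
  num (2 ^ l) τ (fun t => (2 ^ (l - 1) - 1) * (1 - M.zer (M.brt (q0, x) t) j))

def cI : ℕ := num (2 ^ l) τ (fun _ => 1)

variable {l τ q0 q1 x}

theorem two_half (hl : 1 ≤ l) : 2 ^ l = 2 * 2 ^ (l - 1) := by
  rw [← pow_succ']
  congr 1
  omega

theorem ite_symm {α : Type} [DecidableEq α] (a b : α) :
    (if a = b then 1 else 0 : ℕ) = if b = a then 1 else 0 := by
  by_cases h : a = b
  · subst h
    rfl
  · rw [if_neg h, if_neg (Ne.symm h)]

omit [Fintype St] [Fintype Br] [DecidableEq St] [DecidableEq Br] in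
theorem sum_num {ι : Type} (s : Finset ι) (w : ι → ℕ) (L : ι → ℕ → ℕ) (Q : ℕ) :
    ∑ i ∈ s, w i * num Q τ (L i) = num Q τ (fun t => ∑ i ∈ s, w i * L i t) := by
  rw [num_sum Q s τ (fun i t => w i * L i t)]
  apply Finset.sum_congr rfl
  intro i _
  rw [num_mul Q τ (w i) (L i)]

omit [Fintype St] [DecidableEq Br] in
theorem sum_ite_num (f : Br → St) (q : St) (L : Br → ℕ → ℕ) (Q : ℕ) :
    (∑ β, if f β = q then num Q τ (L β) else 0) =
      num Q τ (fun t => ∑ β, if f β = q then L β t else 0) := by
  have h := sum_num (τ := τ) Finset.univ (fun β : Br => if f β = q then 1 else 0) L Q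
  simp only [ite_mul, one_mul, zero_mul] at h
  exact h

/-- every solution is the canonical one, and the machine reaches the final state with empty
registers after `τ` steps -/
theorem Sol.canonical {Ib Lb : Br → ℕ} {A Dd : Reg → ℕ} (hl : 1 ≤ l)
    (hb : Fintype.card Br < 2 ^ (l - 1)) (hx : ∀ j, x j < 2 ^ l)
    (h : M.Sol l τ q0 q1 x Ib Lb A Dd) :
    M.conf (q0, x) τ = (q1, fun _ => 0) ∧ Ib = (fun _ => cI l τ) ∧ Lb = M.cL l τ q0 x ∧
      A = M.cA l τ q0 x ∧ Dd = M.cD l τ q0 x := by
  have hh := two_half hl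
  have hpos : 1 ≤ 2 ^ (l - 1) := Nat.one_le_two_pow
  have hQ1 : 0 < 2 ^ l - 1 := by omega
  -- the tops of the indicators
  have hI : ∀ β, Ib β = num (2 ^ l) τ (fun _ => 1) := by
    intro β
    have h1 := num_ones (2 ^ l) (by omega) τ
    rw [← h.hI β] at h1
    exact (Nat.eq_of_mul_eq_mul_left hQ1 h1).symm
  -- the digits of the indicators
  have h1 : ∀ β, ∃ d : ℕ → ℕ, num (2 ^ l) τ d = Lb β ∧ (∀ t < τ, d t < 2 ^ l) ∧
      ∀ t < τ, Odd ((1 : ℕ).choose (d t)) := by
    intro β
    have h2 := h.hL β
    rw [hI β] at h2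
    exact digits_of_odd l τ (fun t _ => by omega) h2
  choose lb hlb1 hlb2 hlb3 using h1
  have hlb : ∀ β, ∀ t < τ, lb β t ≤ 1 := fun β t ht => (odd_choose_one _).1 (hlb3 β t ht)
  have hle : ∀ (f : Br → St) (q : St), ∀ t < τ,
      (∑ β, if f β = q then lb β t else 0) < 2 ^ l := by
    intro f q t ht
    have h2 : (∑ β, if f β = q then lb β t else 0) ≤ ∑ _β : Br, 1 := by
      apply Finset.sum_le_sum
      intro β _
      split_ifs
      · exact hlb β t ht
      · exact Nat.zero_le _
    simp only [Finset.sum_const, Finset.card_univ, smul_eq_mul, mul_one] at h2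
    omega
  -- the equations of the states
  have hS : ∀ q, ∀ t ≤ τ, (if t < τ then (∑ β, if M.src β = q then lb β t else 0)
      else (if q = q1 then 1 else 0)) =
      if t = 0 then (if q = q0 then 1 else 0) else
        (∑ β, if M.tgt β = q then lb β (t - 1) else 0) := by
    intro q
    apply num_compare (2 ^ l) (hle M.src q) (hle M.tgt q)
    · split_ifs <;> omega
    · split_ifs <;> omega
    · have h2 := h.hS q
      simp only [← hlb1] at h2
      rw [sum_ite_num, sum_ite_num] at h2
      exact h2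
  -- exactly one branch is active at each time
  have act : ∀ t < τ, ∀ s : St, (∀ q, (∑ β, if M.src β = q then lb β t else 0) =
      if q = s then 1 else 0) → ∃ β', M.src β' = s ∧ ∀ β, lb β t = if β = β' then 1 else 0 := by
    intro t ht s hs
    have h2 : ∑ β, lb β t = 1 := by
      have h3 : ∑ q, (∑ β, if M.src β = q then lb β t else 0) = ∑ β, lb β t := by
        rw [Finset.sum_comm]
        apply Finset.sum_congr rfl
        intro β _
        simp
      rw [← h3]
      simp [hs]
    obtain ⟨β', hβ'⟩ : ∃ β', lb β' t = 1 := by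
      by_contra hne
      push Not at hne
      have : ∑ β, lb β t = 0 := Finset.sum_eq_zero (fun β _ => by
        have := hlb β t ht
        have := hne β
        omega)
      omega
    have h4 : ∀ β, lb β t = if β = β' then 1 else 0 := by
      intro β
      by_cases hβ : β = β'
      · rw [if_pos hβ, hβ, hβ']
      · rw [if_neg hβ]
        have h5 : lb β' t + lb β t ≤ ∑ β, lb β t := by
          rw [← Finset.sum_pair (f := fun β => lb β t) (Ne.symm hβ)]
          exact Finset.sum_le_sum_of_subset (Finset.subset_univ _)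
        omega
    refine ⟨β', ?_, h4⟩
    by_contra hne
    have h5 := hs (M.src β')
    rw [if_neg hne] at h5
    have h6 : (if M.src β' = M.src β' then lb β' t else 0) ≤
        ∑ β, if M.src β = M.src β' then lb β t else 0 :=
      Finset.single_le_sum (f := fun β => if M.src β = M.src β' then lb β t else 0)
        (fun _ _ => Nat.zero_le _) (Finset.mem_univ β')
    rw [if_pos rfl, hβ'] at h6
    omega
  have act2 : ∀ t, t < τ → ∃ s, ∀ q, (∑ β, if M.src β = q then lb β t else 0) =
      if q = s then 1 else 0 := by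
    intro t
    induction t with
    | zero =>
      intro ht
      refine ⟨q0, fun q => ?_⟩
      have := hS q 0 (Nat.zero_le _)
      rwa [if_pos ht, if_pos rfl] at this
    | succ t ih =>
      intro ht
      obtain ⟨s, hs⟩ := ih (by omega)
      obtain ⟨β', _, hβ'⟩ := act t (by omega) s hs
      refine ⟨M.tgt β', fun q => ?_⟩
      have := hS q (t + 1) (by omega)
      rw [if_pos ht, if_neg (Nat.succ_ne_zero t), Nat.add_sub_cancel] at this
      rw [this]
      simp only [hβ']
      have h2 : ∀ β, (if M.tgt β = q then (if β = β' then 1 else 0) else 0) =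
          if β = β' then (if M.tgt β' = q then 1 else 0) else 0 := by
        intro β
        by_cases hβ : β = β'
        · subst hβ
          simp
        · simp [hβ]
      simp only [h2, Finset.sum_ite_eq', Finset.mem_univ, if_true]
      exact ite_symm _ _
  have act3 : ∀ t, t < τ → ∃ β', ∀ β, lb β t = if β = β' then 1 else 0 := by
    intro t ht
    obtain ⟨s, hs⟩ := act2 t ht
    obtain ⟨β', _, h2⟩ := act t ht s hs
    exact ⟨β', h2⟩
  have wsum : ∀ (w : Br → Reg → ℕ) (j : Reg) (t : ℕ) (β' : Br),
      (∀ β, lb β t = if β = β' then 1 else 0) → ∑ β, w β j * lb β t = w β' j := by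
    intro w j t β' hβ'
    simp only [hβ', mul_ite, mul_one, mul_zero, Finset.sum_ite_eq', Finset.mem_univ, if_true]
  have wle : ∀ (w : Br → Reg → ℕ) (_ : ∀ β j, w β j ≤ 1) (j : Reg) (t : ℕ), t < τ →
      ∑ β, w β j * lb β t ≤ 1 := by
    intro w hw j t ht
    obtain ⟨β', hβ'⟩ := act3 t ht
    rw [wsum w j t β' hβ']
    exact hw β' j
  -- the tops of the registers
  set h0 := 2 ^ (l - 1) - 1 with hh0
  have hA : ∀ j, A j = num (2 ^ l) τ (fun t => h0 * (1 - ∑ β, M.zer β j * lb β t)) := by
    intro j
    have h2 := h.hA j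
    rw [← num_ones (2 ^ l) (by omega) τ] at h2
    have h3 : A j + h0 * ∑ β, M.zer β j * Lb β = h0 * num (2 ^ l) τ (fun _ => 1) := by
      apply Nat.eq_of_mul_eq_mul_left hQ1
      rw [mul_add, ← mul_assoc, h2]
      ring
    simp only [← hlb1] at h3
    rw [sum_num, ← num_mul, ← num_mul] at h3
    have h4 : num (2 ^ l) τ (fun t => h0 * (1 - ∑ β, M.zer β j * lb β t)) +
        num (2 ^ l) τ (fun t => h0 * ∑ β, M.zer β j * lb β t) =
        num (2 ^ l) τ (fun _ => h0 * 1) := by
      rw [← num_add]
      apply num_congr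
      intro t ht
      have := wle M.zer M.zer_le j t ht
      rw [← mul_add]
      congr 1
      omega
    omega
  have h2 : ∀ j, ∃ d : ℕ → ℕ, num (2 ^ l) τ d = Dd j ∧ (∀ t < τ, d t < 2 ^ l) ∧
      ∀ t < τ, Odd ((h0 * (1 - ∑ β, M.zer β j * lb β t)).choose (d t)) := by
    intro j
    have h3 := h.hD j
    rw [hA j] at h3
    refine digits_of_odd l τ (fun t _ => ?_) h3
    have h4 : h0 * (1 - ∑ β, M.zer β j * lb β t) ≤ h0 * 1 :=
      Nat.mul_le_mul_left _ (Nat.sub_le _ _)
    omega
  choose dd hdd1 hdd2 hdd3 using h2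
  have hdd : ∀ j, ∀ t < τ, dd j t < 2 ^ (l - 1) := by
    intro j t ht
    have h3 := le_of_odd_choose (hdd3 j t ht)
    have h4 : h0 * (1 - ∑ β, M.zer β j * lb β t) ≤ h0 * 1 :=
      Nat.mul_le_mul_left _ (Nat.sub_le _ _)
    omega
  have hdz : ∀ j, ∀ t < τ, (∑ β, M.zer β j * lb β t) ≠ 0 → dd j t = 0 := by
    intro j t ht hz
    have h3 := hdd3 j t ht
    have h4 := wle M.zer M.zer_le j t ht
    have h5 : 1 - ∑ β, M.zer β j * lb β t = 0 := by omega
    rw [h5, mul_zero] at h3
    exact (odd_choose_zero _).1 h3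
  -- the equations of the registers
  have hR : ∀ j, ∀ t ≤ τ, (if t < τ then dd j t + ∑ β, M.pos β j * lb β t else 0) =
      if t = 0 then x j else dd j (t - 1) + ∑ β, M.inc β j * lb β (t - 1) := by
    intro j
    refine num_compare (2 ^ l) (f := fun t => dd j t + ∑ β, M.pos β j * lb β t)
      (g := fun t => dd j t + ∑ β, M.inc β j * lb β t) (x := 0) (y := x j) ?_ ?_ ?_ ?_ ?_
    · intro t ht
      have := wle M.pos M.pos_le j t ht
      have := hdd j t ht
      omega
    · intro t ht
      have := wle M.inc M.inc_le j t ht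
      have := hdd j t ht
      omega
    · omega
    · exact hx j
    · have h3 := h.hR j
      simp only [← hlb1, ← hdd1] at h3
      rw [sum_num, sum_num, ← num_add, ← num_add] at h3
      rw [zero_mul, add_zero]
      exact h3
  -- the main induction
  have main : ∀ t ≤ τ, (∀ q, (if t < τ then (∑ β, if M.src β = q then lb β t else 0)
      else (if q = q1 then 1 else 0)) = if q = (M.conf (q0, x) t).1 then 1 else 0) ∧
      (∀ j, (if t < τ then dd j t + ∑ β, M.pos β j * lb β t else 0) = (M.conf (q0, x) t).2 j) ∧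
      ∀ s < t, (∀ β, lb β s = if M.brt (q0, x) s = β then 1 else 0) ∧
        ∀ j, dd j s = (M.conf (q0, x) s).2 j - M.pos (M.brt (q0, x) s) j := by
    intro t
    induction t with
    | zero =>
      intro ht
      refine ⟨fun q => ?_, fun j => ?_, fun s hs => by omega⟩
      · rw [hS q 0 (Nat.zero_le _), if_pos rfl]
        rfl
      · rw [hR j 0 (Nat.zero_le _), if_pos rfl]
        rfl
    | succ t ih =>
      intro ht
      obtain ⟨h3, h4, h5⟩ := ih (by omega)
      have ht' : t < τ := by omega
      simp only [if_pos ht'] at h3 h4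
      obtain ⟨β', hsrc, hβ'⟩ := act t ht' _ h3
      have hpos' := fun j => wsum M.pos j t β' hβ'
      have hzer' := fun j => wsum M.zer j t β' hβ'
      have hinc' := fun j => wsum M.inc j t β' hβ'
      have hbr : β' = M.brt (q0, x) t := by
        rw [brt, ← hsrc]
        apply M.uniq
        · intro j
          rw [← h4 j, hpos' j]
          exact Nat.le_add_left _ _
        · intro j hj
          rw [← h4 j, hpos' j, hdz j t ht' (by rw [hzer' j]; exact hj), zero_add]
      have hd : ∀ j, dd j t = (M.conf (q0, x) t).2 j - M.pos (M.brt (q0, x) t) j := by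
        intro j
        rw [← h4 j, hpos' j, ← hbr]
        omega
      refine ⟨fun q => ?_, fun j => ?_, fun s hs => ?_⟩
      · rw [hS q (t + 1) ht, if_neg (Nat.succ_ne_zero t), Nat.add_sub_cancel, conf_succ, ← hbr]
        simp only [hβ']
        have h6 : ∀ β, (if M.tgt β = q then (if β = β' then 1 else 0) else 0) =
            if β = β' then (if M.tgt β' = q then 1 else 0) else 0 := by
          intro β
          by_cases hβ : β = β'
          · subst hβ
            simp
          · simp [hβ]
        simp only [h6, Finset.sum_ite_eq', Finset.mem_univ, if_true]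
        exact ite_symm _ _
      · rw [hR j (t + 1) ht, if_neg (Nat.succ_ne_zero t), Nat.add_sub_cancel, conf_succ, hinc' j,
          hd j, ← hbr]
      · rcases Nat.lt_succ_iff_lt_or_eq.1 hs with hs | rfl
        · exact h5 s hs
        · refine ⟨fun β => ?_, hd⟩
          rw [hβ' β, ← hbr]
          exact ite_symm _ _
  obtain ⟨h3, h4, h5⟩ := main τ le_rfl
  simp only [lt_self_iff_false, if_false] at h3 h4
  refine ⟨?_, funext hI, ?_, ?_, ?_⟩
  · refine Prod.ext ?_ ?_
    · have := h3 q1
      rw [if_pos rfl] at this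
      by_contra hne
      rw [if_neg (fun e => hne e.symm)] at this
      omega
    · funext j
      exact (h4 j).symm
  · funext β
    rw [← hlb1 β]
    exact num_congr _ (fun t ht => (h5 t ht).1 β)
  · funext j
    rw [hA j]
    apply num_congr
    intro t ht
    have h6 : ∀ β, lb β t = if β = M.brt (q0, x) t then 1 else 0 := by
      intro β
      rw [(h5 t ht).1 β]
      exact ite_symm _ _
    rw [wsum M.zer j t _ h6]
  · funext j
    rw [← hdd1 j]
    exact num_congr _ (fun t ht => (h5 t ht).2 j)

omit [Fintype St] [DecidableEq St] in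
theorem sum_cL (w : Br → ℕ) :
    ∑ β, w β * M.cL l τ q0 x β = num (2 ^ l) τ (fun t => w (M.brt (q0, x) t)) := by
  have h := sum_num (τ := τ) Finset.univ w
    (fun β t => if M.brt (q0, x) t = β then 1 else 0) (2 ^ l)
  simp only [mul_ite, mul_one, mul_zero, Finset.sum_ite_eq, Finset.mem_univ, if_true] at h
  exact h

omit [Fintype St] in
/-- the canonical solution is a solution if the machine reaches the final state with empty
registers after `τ` steps and the registers are small -/
theorem canonical_sol (hl : 1 ≤ l) (hfin : M.conf (q0, x) τ = (q1, fun _ => 0))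
    (hbd : ∀ t < τ, ∀ j, (M.conf (q0, x) t).2 j < 2 ^ (l - 1)) :
    M.Sol l τ q0 q1 x (fun _ => cI l τ) (M.cL l τ q0 x) (M.cA l τ q0 x) (M.cD l τ q0 x) := by
  have hh := two_half hl
  have hpos : 1 ≤ 2 ^ (l - 1) := Nat.one_le_two_pow
  constructor
  · intro β
    exact num_ones (2 ^ l) (by omega) τ
  · intro β
    rw [cI, cL, odd_choose_num l τ (fun t _ => by omega) (fun t _ => by split_ifs <;> omega)]
    intro t _
    rw [odd_choose_one]
    split_ifs <;> omega
  · intro j
    rw [sum_cL M (fun β => M.zer β j), ← num_ones (2 ^ l) (by omega) τ, cA, mul_assoc, ← mul_add,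
      ← num_mul, ← num_add]
    have : num (2 ^ l) τ (fun t => (2 ^ (l - 1) - 1) * (1 - M.zer (M.brt (q0, x) t) j) +
        (2 ^ (l - 1) - 1) * M.zer (M.brt (q0, x) t) j) =
        num (2 ^ l) τ (fun _ => (2 ^ (l - 1) - 1) * 1) := by
      apply num_congr
      intro t _
      have := M.zer_le (M.brt (q0, x) t) j
      rw [← mul_add]
      congr 1
      omega
    rw [this, num_mul]
    ring
  · intro j
    rw [cA, cD, odd_choose_num l τ]
    · intro t ht
      by_cases hz : M.zer (M.brt (q0, x) t) j = 0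
      · rw [hz, Nat.sub_zero, mul_one, odd_choose_ones]
        have := hbd t ht j
        omega
      · have h1 := M.zer_br (M.conf (q0, x) t).1 (M.conf (q0, x) t).2 j hz
        have h2 : (M.conf (q0, x) t).2 j = M.pos (M.brt (q0, x) t) j := h1
        have h3 := M.zer_le (M.brt (q0, x) t) j
        have h4 : 1 - M.zer (M.brt (q0, x) t) j = 0 := by omega
        rw [h2, Nat.sub_self, h4, mul_zero]
        decide
    · intro t _
      have h4 : (2 ^ (l - 1) - 1) * (1 - M.zer (M.brt (q0, x) t) j) ≤ (2 ^ (l - 1) - 1) * 1 :=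
        Nat.mul_le_mul_left _ (Nat.sub_le _ _)
      omega
    · intro t ht
      have := hbd t ht j
      omega
  · intro q
    have h1 := sum_cL M (l := l) (τ := τ) (q0 := q0) (x := x)
      (fun β => if M.src β = q then 1 else 0)
    have h2 := sum_cL M (l := l) (τ := τ) (q0 := q0) (x := x)
      (fun β => if M.tgt β = q then 1 else 0)
    simp only [ite_mul, one_mul, zero_mul] at h1 h2
    rw [h1, h2]
    have h3 := num_shift (2 ^ l) τ (fun t => if (M.conf (q0, x) t).1 = q then 1 else 0)
    have h4 : ∀ t, M.src (M.brt (q0, x) t) = (M.conf (q0, x) t).1 := fun t => M.src_br _ _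
    have h5 : ∀ t, (M.conf (q0, x) (t + 1)).1 = M.tgt (M.brt (q0, x) t) := by
      intro t
      rw [conf_succ]
    simp only [h4]
    simp only [h5, hfin] at h3
    have h6 : (M.conf (q0, x) 0).1 = q0 := rfl
    rw [h6] at h3
    rw [ite_symm q q1, ite_symm q q0]
    exact h3
  · intro j
    rw [sum_cL M (fun β => M.pos β j), sum_cL M (fun β => M.inc β j), cD, ← num_add, ← num_add]
    have h3 := num_shift (2 ^ l) τ (fun t => (M.conf (q0, x) t).2 j)
    have h5 : ∀ t, (M.conf (q0, x) (t + 1)).2 j = (M.conf (q0, x) t).2 j -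
        M.pos (M.brt (q0, x) t) j + M.inc (M.brt (q0, x) t) j := by
      intro t
      rw [conf_succ]
    simp only [h5, hfin, zero_mul, add_zero] at h3
    have h6 : (M.conf (q0, x) 0).2 j = x j := rfl
    rw [h6] at h3
    rw [← h3]
    apply num_congr
    intro t _
    have := M.pos_br (M.conf (q0, x) t).1 (M.conf (q0, x) t).2 j
    have h7 : M.pos (M.brt (q0, x) t) j ≤ (M.conf (q0, x) t).2 j := this
    omega

omit [Fintype St] [Fintype Br] [DecidableEq St] [DecidableEq Br] in
/-- registers grow by at most one in each step -/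
theorem conf_le (c : St × (Reg → ℕ)) (t : ℕ) (j : Reg) : (M.conf c t).2 j ≤ c.2 j + t := by
  induction t with
  | zero => exact le_rfl
  | succ t ih =>
    rw [conf_succ]
    have := M.inc_le (M.brt c t) j
    simp only
    omega

end Mch

end Pool.Agent.H355.OE
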