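import Mathlib
import Pool.Agent.H355.OE.Run
import Pool.Graph.R_seed8.Helper273.Machine

/-!
# Register machines for recursively enumerable sets
-/

set_option autoImplicit false

namespace Pool.Agent.H355.OE

open Function Pool.Agent.Helper273.Reg Pool.Agent.Helper273.Machine

/-- a register machine for a primitive recursive function of two arguments: it reaches the last
state with empty registers if and only if the value is zero -/
theorem machine_of_primrec (f : List.Vector ℕ 2 → ℕ) (hf : Nat.Primrec' f) :
    ∃ (N L : ℕ) (ins : Fin (L + 1) → MI (N + 3) (Fin (L + 1))),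
      ins (Fin.last L) = .dec (Fin.last (N + 2)) (Fin.last L) (Fin.last L) ∧
      ∀ n k, f (k ::ᵥ n ::ᵥ List.Vector.nil) = 0 ↔
        ∃ j, (mstep ins)^[j] (0, st0 (N + 3) n k) = (Fin.last L, fun _ => 0) := by
  obtain ⟨c, hc⟩ := comp_of_primrec hf ![1, 0] 2 3 (by intro i; fin_cases i <;> simp) (by omega)
    (by intro i; fin_cases i <;> simp)
  set pr : Cmd := .seq c (.seq (clear 0) (clear 1)) with hpr
  have hex : ∀ n k, Exec pr (st1 n k)
      (fun r => if r = 2 then f (k ::ᵥ n ::ᵥ List.Vector.nil) else 0) := by
    intro n k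
    have h1 := hc (st1 n k) (fun r hr => by unfold st1; rw [if_neg (by omega), if_neg (by omega)])
      (by simp [st1])
    have e1 : (List.Vector.ofFn fun i : Fin 2 => st1 n k (![1, 0] i))
        = k ::ᵥ n ::ᵥ List.Vector.nil := rfl
    rw [e1] at h1
    refine Exec.seq h1 (Exec.seq (exec_clear _ _) ((exec_clear _ _).congr rfl ?_))
    funext r
    simp only [update_apply, st1]
    split_ifs <;> first | rfl | omega
  set P := code pr 0 with hPdef
  set L := len pr with hL
  have hlen : P.length = L := length_code _ _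
  obtain ⟨K0, hK0⟩ := code_ok pr
  have hP : ∀ i ∈ P, Ok (K0 + 2) L i := fun i hi => (hK0 0 i hi).mono (by omega) (by omega)
  have hat : IsAt P 0 (code pr 0) := ⟨[], [], by simp [hPdef], rfl⟩
  refine ⟨K0, L, convP K0 L P, ?_, fun n k => ?_⟩
  · have : P[((Fin.last L : Fin (L + 1)) : ℕ)]? = none := by
      rw [List.getElem?_eq_none_iff, hlen]
      simp
    simp only [convP, this]
  have hst : ∀ r, K0 + 2 ≤ r → st1 n k r = 0 := by
    intro r hr
    unfold st1
    rw [if_neg (by omega), if_neg (by omega)]
  have hres : res (K0 + 3) (st1 n k) = st0 (K0 + 3) n k := rfl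
  have hzero : (Fin.ofNat (L + 1) 0 : Fin (L + 1)) = 0 := rfl
  have hlast : (Fin.ofNat (L + 1) L : Fin (L + 1)) = Fin.last L := by
    apply Fin.ext
    rw [ofNat_val L L (by omega)]
    rfl
  have hfix : ∀ σ, Pool.Agent.Helper273.Reg.step P (L, σ) = (L, σ) := by
    intro σ
    have : P[L]? = none := by
      rw [List.getElem?_eq_none_iff, hlen]
    simp only [Pool.Agent.Helper273.Reg.step, this]
  obtain ⟨T, hT⟩ := sim (hex n k) P 0 hat
  rw [zero_add] at hT
  constructor
  · intro h0
    refine ⟨T, ?_⟩
    have h1 := (conv_iter hlen hP (st1 n k) hst T).1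
    rw [hzero, hres, hT] at h1
    rw [h1]
    refine Prod.ext hlast ?_
    funext r
    simp only [res, h0]
    split_ifs <;> rfl
  · rintro ⟨j, hj⟩
    obtain ⟨h1, h2, h3⟩ := conv_iter hlen hP (st1 n k) hst j
    rw [hzero, hres, hj] at h1
    set y := (Pool.Agent.Helper273.Reg.step P)^[j] (0, st1 n k) with hy
    have hy1 : y.1 = L := by
      have := congrArg (fun p => ((p.1 : Fin (L + 1)) : ℕ)) h1
      simp only [Fin.val_last] at this
      rw [ofNat_val L y.1 (by omega)] at this
      exact this.symm
    have hy2 : ∀ r : ℕ, r < K0 + 3 → y.2 r = 0 := by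
      intro r hr
      have := congrFun (congrArg Prod.snd h1) ⟨r, hr⟩
      simp only [res] at this
      exact this.symm
    have hyfix : Pool.Agent.Helper273.Reg.step P y = y := by
      have := hfix y.2
      rw [← hy1] at this
      exact this
    have e1 : (Pool.Agent.Helper273.Reg.step P)^[T + j] (0, st1 n k) = y := by
      rw [iterate_add_apply, ← hy]
      exact iterate_fixed hyfix T
    have e2 : (Pool.Agent.Helper273.Reg.step P)^[T + j] (0, st1 n k) =
        (L, fun r => if r = 2 then f (k ::ᵥ n ::ᵥ List.Vector.nil) else 0) := by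
      rw [add_comm, iterate_add_apply, hT]
      exact iterate_fixed (hfix _) j
    rw [e1] at e2
    have := hy2 2 (by omega)
    rw [e2] at this
    simpa using this

open Nat.Partrec (Code)
open Nat.Partrec.Code

/-- a recursively enumerable set of numbers has a primitive recursive description with unique
witnesses -/
theorem exists_primrec_unique {S : ℕ → Prop} (hS : REPred S) :
    ∃ f : List.Vector ℕ 2 → ℕ, Nat.Primrec' f ∧
    (∀ n k k', f (k ::ᵥ n ::ᵥ List.Vector.nil) = 0 → f (k' ::ᵥ n ::ᵥ List.Vector.nil) = 0 →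
      k = k') ∧
    ∀ n, S n ↔ ∃ k, f (k ::ᵥ n ::ᵥ List.Vector.nil) = 0 := by
  have h1 : Partrec fun n : ℕ => Part.assert (S n) fun _ => Part.some () := hS
  have h2 : Partrec fun n : ℕ => (Part.assert (S n) fun _ => Part.some ()).map
      (fun _ => (0 : ℕ)) := h1.map ((Computable.const 0).to₂)
  have h3 := Partrec.nat_iff.1 h2
  obtain ⟨c, hc⟩ := Nat.Partrec.Code.exists_code.1 h3
  have h4 : ∀ n, S n ↔ (c.eval n).Dom := by
    intro n
    rw [hc]
    constructor
    · intro h
      exact ⟨h, trivial⟩
    · rintro ⟨h, _⟩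
      exact h
  let g : ℕ → ℕ → Bool := fun k n => (evaln k c n).isSome
  have hg : Primrec₂ g := by
    have h2 : Primrec fun v : ℕ × ℕ => (((v.1, c), v.2) : (ℕ × Code) × ℕ) :=
      Primrec.pair (Primrec.pair Primrec.fst (Primrec.const c)) Primrec.snd
    exact Primrec.option_isSome.comp (primrec_evaln.comp h2)
  let f : List.Vector ℕ 2 → ℕ := fun v =>
    if g v.head v.tail.head = true ∧ ¬ g (v.head - 1) v.tail.head = true then 0 else 1
  have hf : Primrec f := by
    have p1 : Primrec fun v : List.Vector ℕ 2 => g v.head v.tail.head :=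
      hg.comp Primrec.vector_head (Primrec.vector_head.comp Primrec.vector_tail)
    have p2 : Primrec fun v : List.Vector ℕ 2 => g (v.head - 1) v.tail.head :=
      hg.comp (Primrec.nat_sub.comp Primrec.vector_head (Primrec.const 1))
        (Primrec.vector_head.comp Primrec.vector_tail)
    exact Primrec.ite ((Primrec.eq.comp p1 (Primrec.const true)).and
      ((Primrec.eq.comp p2 (Primrec.const true)).not)) (Primrec.const 0) (Primrec.const 1)
  have h5 : ∀ k n, f (k ::ᵥ n ::ᵥ List.Vector.nil) = 0 ↔
      (evaln k c n).isSome = true ∧ ¬ (evaln (k - 1) c n).isSome = true := by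
    intro k n
    simp only [f, g, List.Vector.head_cons, List.Vector.tail_cons]
    by_cases h : (evaln k c n).isSome = true ∧ ¬ (evaln (k - 1) c n).isSome = true
    · rw [if_pos h]
      exact iff_of_true rfl h
    · rw [if_neg h]
      exact iff_of_false one_ne_zero h
  have mono : ∀ k k' n, k ≤ k' → (evaln k c n).isSome = true → (evaln k' c n).isSome = true := by
    intro k k' n hk h
    obtain ⟨y, hy⟩ := Option.isSome_iff_exists.1 h
    exact Option.isSome_iff_exists.2 ⟨y, evaln_mono hk hy⟩
  refine ⟨f, Nat.Primrec'.of_prim hf, ?_, ?_⟩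
  · intro n k k' hk hk'
    rw [h5] at hk hk'
    rcases lt_trichotomy k k' with h | h | h
    · exact absurd (mono k (k' - 1) n (by omega) hk.1) hk'.2
    · exact h
    · exact absurd (mono k' (k - 1) n (by omega) hk'.1) hk.2
  · intro n
    simp only [h5]
    rw [h4, Part.dom_iff_mem]
    constructor
    · rintro ⟨y, hy⟩
      have hex : ∃ k, (evaln k c n).isSome = true := by
        obtain ⟨k, hk⟩ := evaln_complete.1 hy
        exact ⟨k, Option.isSome_iff_exists.2 ⟨y, hk⟩⟩
      classical
      refine ⟨Nat.find hex, Nat.find_spec hex, ?_⟩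
      have hpos : Nat.find hex ≠ 0 := by
        intro h0
        have h7 := Nat.find_spec hex
        rw [h0] at h7
        simp [evaln] at h7
      exact Nat.find_min hex (by omega)
    · rintro ⟨k, hk, _⟩
      obtain ⟨y, hy⟩ := Option.isSome_iff_exists.1 hk
      exact ⟨y, evaln_complete.2 ⟨k, hy⟩⟩

section convert

variable {N Q : ℕ}

/-- the instruction is a test -/
def isDec : MI N (Fin Q) → Bool
  | .dec _ _ _ => true
  | _ => false

def tgtI : MI N (Fin Q) → Bool → Fin Q
  | .inc _ q, _ => q
  | .dec _ a _, true => a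
  | .dec _ _ b, false => b
  | .jmp q, _ => q

def posI : MI N (Fin Q) → Bool → Fin N → ℕ
  | .dec r _ _, true, j => if j = r then 1 else 0
  | _, _, _ => 0

def zerI : MI N (Fin Q) → Bool → Fin N → ℕ
  | .dec r _ _, false, j => if j = r then 1 else 0
  | _, _, _ => 0

def incI : MI N (Fin Q) → Fin N → ℕ
  | .inc r _, j => if j = r then 1 else 0
  | _, _ => 0

def brI : MI N (Fin Q) → (Fin N → ℕ) → Bool
  | .dec r _ _, ρ => !(decide (ρ r = 0))
  | _, _ => true

variable (ins : Fin Q → MI N (Fin Q))

/-- the branches: a state and a flag, which is `true` unless the instruction is a test -/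
abbrev Bx : Type := {p : Fin Q × Bool // p.2 = true ∨ isDec (ins p.1) = true}

/-- the machine with branches -/
def toMch : Mch (Fin Q) (Fin N) (Bx ins) where
  src β := β.1.1
  tgt β := tgtI (ins β.1.1) β.1.2
  pos β := posI (ins β.1.1) β.1.2
  zer β := zerI (ins β.1.1) β.1.2
  inc β := incI (ins β.1.1)
  br q ρ := ⟨(q, brI (ins q) ρ), by cases h : ins q <;> simp [brI, isDec]⟩
  pos_le β j := by
    rcases h : ins β.1.1 with r | ⟨r, a, b⟩ | a <;> rcases h2 : β.1.2 <;> simp only [posI] <;>
      first | omega | (split_ifs <;> omega)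
  zer_le β j := by
    rcases h : ins β.1.1 with r | ⟨r, a, b⟩ | a <;> rcases h2 : β.1.2 <;> simp only [zerI] <;>
      first | omega | (split_ifs <;> omega)
  inc_le β j := by
    rcases h : ins β.1.1 with r | ⟨r, a, b⟩ | a <;> simp only [incI] <;>
      first | omega | (split_ifs <;> omega)
  src_br q ρ := rfl
  pos_br q ρ j := by
    simp only
    cases h : ins q with
    | inc r a => simp [posI]
    | jmp a => simp [posI]
    | dec r a b =>
      by_cases h0 : ρ r = 0
      · simp [posI, brI, h0]
      · simp only [posI, brI, h0, decide_false, Bool.not_false]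
        split_ifs with h1
        · subst h1
          omega
        · exact Nat.zero_le _
  zer_br q ρ j := by
    simp only
    cases h : ins q with
    | inc r a => simp [zerI]
    | jmp a => simp [zerI]
    | dec r a b =>
      by_cases h0 : ρ r = 0
      · simp only [zerI, posI, brI, h0, decide_true, Bool.not_true]
        intro h1
        by_cases h2 : j = r
        · rw [h2, h0]
        · simp [h2] at h1
      · simp [zerI, brI, h0]
  uniq β ρ h1 h2 := by
    obtain ⟨⟨q, b⟩, hβ⟩ := β
    apply Subtype.ext
    simp only at h1 h2 hβ ⊢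
    cases h : ins q with
    | inc r a =>
      rw [h] at hβ
      simp only [isDec, Bool.false_eq_true, or_false] at hβ
      rw [hβ]
      rfl
    | jmp a =>
      rw [h] at hβ
      simp only [isDec, Bool.false_eq_true, or_false] at hβ
      rw [hβ]
      rfl
    | dec r x y =>
      rw [h] at h1 h2
      cases b with
      | true =>
        have := h1 r
        simp only [posI, if_true] at this
        have h0 : ρ r ≠ 0 := by omega
        simp [brI, h0]
      | false =>
        have := h2 r
        simp [zerI, posI] at this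
        simp [brI, this]

theorem toMch_step (c : Fin Q × (Fin N → ℕ)) : (toMch ins).step c = mstep ins c := by
  obtain ⟨q, ρ⟩ := c
  simp only [Mch.step, toMch, mstep]
  cases h : ins q with
  | inc r a =>
    refine Prod.ext rfl ?_
    funext j
    simp only [posI, incI, update_apply]
    split_ifs with h1
    · subst h1
      omega
    · omega
  | jmp a =>
    refine Prod.ext rfl ?_
    funext j
    simp [posI, incI]
  | dec r a b =>
    by_cases h0 : ρ r = 0
    · simp [h0, brI, tgtI, posI, incI]
    · simp only [h0, brI, decide_false, Bool.not_false, tgtI, posI, incI, if_false]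
      refine Prod.ext rfl ?_
      funext j
      simp only [update_apply]
      split_ifs with h1
      · subst h1
        omega
      · omega

end convert

/-- the initial registers: `n` in register `j0` and `k` in register `j1` -/
def ini {Reg : Type} [DecidableEq Reg] (j0 j1 : Reg) (n k : ℕ) (j : Reg) : ℕ :=
  (if j = j0 then n else 0) + (if j = j1 then k else 0)

/-- a machine for a recursively enumerable set -/
theorem exists_mch {S : ℕ → Prop} (hS : REPred S) : ∃ (St Reg Br : Type) (_ : Fintype St) (_ : Fintype Reg) (_ : Fintype Br)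
    (_ : DecidableEq St) (_ : DecidableEq Reg) (_ : DecidableEq Br) (M : Mch St Reg Br)
    (q0 q1 : St) (j0 j1 : Reg), j0 ≠ j1 ∧
    (∀ n k k' t t', M.conf (q0, ini j0 j1 n k) t = (q1, fun _ => 0) →
      M.conf (q0, ini j0 j1 n k') t' = (q1, fun _ => 0) → k = k') ∧
    (∀ n k t t', t ≤ t' → M.conf (q0, ini j0 j1 n k) t = (q1, fun _ => 0) →
      M.conf (q0, ini j0 j1 n k) t' = (q1, fun _ => 0)) ∧
    ∀ n, S n ↔ ∃ k t, M.conf (q0, ini j0 j1 n k) t = (q1, fun _ => 0) := by
  obtain ⟨f, hf, hu, hc⟩ := exists_primrec_unique hS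
  obtain ⟨N, L, ins, hlast, hins⟩ := machine_of_primrec f hf
  have hstep : (toMch ins).step = mstep ins := funext (toMch_step ins)
  have hini : ∀ n k, ini (0 : Fin (N + 3)) 1 n k = st0 (N + 3) n k := by
    intro n k
    funext j
    have h0 : j = 0 ↔ (j : ℕ) = 0 := by rw [Fin.ext_iff]; rfl
    have h1 : j = 1 ↔ (j : ℕ) = 1 := by rw [Fin.ext_iff]; rfl
    simp only [ini, st0, h0, h1]
    split_ifs <;> omega
  have hconf : ∀ n k t, (toMch ins).conf (0, ini (0 : Fin (N + 3)) 1 n k) t =
      (mstep ins)^[t] (0, st0 (N + 3) n k) := by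
    intro n k t
    rw [Mch.conf, hstep, hini]
  have key : ∀ n k, f (k ::ᵥ n ::ᵥ List.Vector.nil) = 0 ↔
      ∃ t, (toMch ins).conf (0, ini (0 : Fin (N + 3)) 1 n k) t = (Fin.last L, fun _ => 0) := by
    intro n k
    rw [hins]
    simp only [hconf]
  refine ⟨Fin (L + 1), Fin (N + 3), Bx ins, inferInstance, inferInstance, inferInstance,
    inferInstance, inferInstance, inferInstance, toMch ins, 0, Fin.last L, 0, 1, ?_, ?_, ?_, ?_⟩
  · intro h
    have := congrArg Fin.val h
    simp at this
  · intro n k k' t t' h h'
    exact hu n k k' ((key n k).2 ⟨t, h⟩) ((key n k').2 ⟨t', h'⟩)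
  · intro n k t t' htt h
    rw [hconf] at h ⊢
    obtain ⟨d, rfl⟩ := Nat.exists_eq_add_of_le htt
    rw [add_comm t d, iterate_add_apply, h]
    apply iterate_fixed
    simp [mstep, hlast]
  · intro n
    rw [hc n]
    exact exists_congr fun k => key n k

end Pool.Agent.H355.OE
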