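import Mathlib
import Pool.Agent.H355.OE.Core
import Pool.Agent.H355.OE.Run
import Pool.Agent.H355.OE.Mach

/-!
# The linear equations of a machine as terms
-/

set_option autoImplicit false

namespace Pool.Agent.H355.OE

open Tm

/-- `Q / 2 - 1` -/
def hT : Tm := sub (sh one (sub lT one)) one

/-- `Q - 1` -/
def qT : Tm := sub (sh one lT) one

/-- `(Q / 2 - 1) (Q - 1)` -/
def hqT : Tm := sub (sh hT lT) hT

/-- `U - 1` -/
def umT : Tm := sub (sh one uT) one

/-- `(Q / 2 - 1) (U - 1)` -/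
def huT : Tm := sub (sh hT uT) hT

/-- zero -/
def zT : Tm := sub one one

section values

variable {e : Env} (hk : 0 ≤ e.k)

/-- the number `Q` -/
def QQ (e : Env) : ℕ := 2 ^ 2 ^ e.k.toNat

/-- the number `Q / 2 - 1` -/
def hh (e : Env) : ℕ := 2 ^ (2 ^ e.k.toNat - 1) - 1

theorem UU_eq (e : Env) : UU e = QQ e ^ 2 ^ e.k.toNat := by
  rw [UU, QQ, ← pow_mul, ← pow_add]
  congr 2
  ring

theorem two_le_QQ (e : Env) : 2 ≤ QQ e := by
  rw [QQ]
  calc 2 = 2 ^ 1 := rfl
    _ ≤ 2 ^ 2 ^ e.k.toNat := Nat.pow_le_pow_right (by norm_num) Nat.one_le_two_pow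

theorem QQ_le_UU (e : Env) : QQ e ≤ UU e := by
  rw [UU_eq]
  exact Nat.le_self_pow (Nat.two_pow_pos _).ne' _

theorem hh_lt (e : Env) : hh e < QQ e := by
  rw [hh, QQ]
  have : 2 ^ (2 ^ e.k.toNat - 1) ≤ 2 ^ 2 ^ e.k.toNat :=
    Nat.pow_le_pow_right (by norm_num) (Nat.sub_le _ _)
  have := Nat.one_le_two_pow (n := 2 ^ e.k.toNat - 1)
  omega

theorem ev_Q : ev e (sh one lT) = QQ e := by
  rw [ev, two_pow_l, QQ]
  simp [ev]

theorem ev_zT : ev e zT = 0 := by simp [zT, ev_sub]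

theorem ev_hT : ev e hT = hh e := by
  have h0 : ev e (sh one (sub lT one)) = 1 * 2 ^ (ev e (sub lT one)).toNat := rfl
  rw [hT, ev_sub, h0, ev_sub, ev_lT, hh]
  have h1 := Nat.one_le_two_pow (n := e.k.toNat)
  have h2 : ((2 ^ e.k.toNat : ℕ) : ℤ) - ev e one = ((2 ^ e.k.toNat - 1 : ℕ) : ℤ) := by
    simp only [ev]
    omega
  rw [h2, Int.toNat_natCast]
  have h3 := Nat.one_le_two_pow (n := 2 ^ e.k.toNat - 1)
  simp only [ev]
  rw [Nat.cast_sub h3]
  push_cast
  ring

theorem ev_qT : ev e qT = (QQ e : ℤ) - 1 := by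
  rw [qT, ev_sub, ev_Q]
  simp [ev]

theorem ev_hqT : ev e hqT = ((QQ e : ℤ) - 1) * hh e := by
  rw [hqT, ev_sub, ev, ev_hT, two_pow_l, QQ]
  ring

include hk

theorem ev_U : ev e (sh one uT) = UU e := by
  have h := two_pow_u hk 1
  rw [ev_ns, Nat.cast_one, one_mul, pow_one] at h
  rw [ev, h]
  simp [ev]

theorem ev_umT : ev e umT = (UU e : ℤ) - 1 := by
  rw [umT, ev_sub, ev_U hk]
  simp [ev]

theorem ev_huT : ev e huT = hh e * ((UU e : ℤ) - 1) := by
  have h := two_pow_u hk 1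
  rw [ev_ns, Nat.cast_one, one_mul, pow_one] at h
  rw [huT, ev_sub, ev, ev_hT, h]
  ring

theorem ok_zT : ok e zT := (ok_sub _ _ _).2 ⟨ok_one e, ok_one e⟩

theorem ok_Q : ok e (sh one lT) := (ok_sh _ _ _).2 ⟨ok_one e, good_lT hk⟩

theorem ok_U : ok e (sh one uT) := (ok_sh _ _ _).2 ⟨ok_one e, good_uT hk⟩

theorem ok_hT : ok e hT := by
  rw [hT, ok_sub, ok_sh, Good, ok_sub]
  refine ⟨⟨ok_one e, ⟨(good_lT hk).1, ok_one e⟩, ?_⟩, ok_one e⟩
  rw [ev_sub, ev_lT]
  have := Nat.one_le_two_pow (n := e.k.toNat)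
  simp only [ev]
  omega

theorem ok_qT : ok e qT := (ok_sub _ _ _).2 ⟨ok_Q hk, ok_one e⟩

theorem ok_hqT : ok e hqT := by
  rw [hqT, ok_sub, ok_sh]
  exact ⟨⟨ok_hT hk, good_lT hk⟩, ok_hT hk⟩

theorem ok_umT : ok e umT := (ok_sub _ _ _).2 ⟨ok_U hk, ok_one e⟩

theorem ok_huT : ok e huT := by
  rw [huT, ok_sub, ok_sh]
  exact ⟨⟨ok_hT hk, good_uT hk⟩, ok_hT hk⟩

end values

theorem nj_zT : NJ zT := nj_sub nj_one nj_one
theorem nj_Q : NJ (sh one lT) := nj_sh nj_one nj_lT
theorem nj_U : NJ (sh one uT) := nj_sh nj_one nj_uT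
theorem nj_hT : NJ hT := nj_sub (nj_sh nj_one (nj_sub nj_lT nj_one)) nj_one
theorem nj_qT : NJ qT := nj_sub nj_Q nj_one
theorem nj_hqT : NJ hqT := nj_sub (nj_sh nj_hT nj_lT) nj_hT
theorem nj_umT : NJ umT := nj_sub nj_U nj_one
theorem nj_huT : NJ huT := nj_sub (nj_sh nj_hT nj_uT) nj_hT

section

variable {St Reg Br : Type} [Fintype St] [Fintype Reg] [Fintype Br] [DecidableEq St]
  [DecidableEq Reg] [DecidableEq Br] (M : Mch St Reg Br) (q0 q1 : St) (j0 j1 : Reg)

/-- the pairs of variables: indicators of branches, registers, and (`true`) the second argument of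
the machine and (`false`) a slack variable -/
abbrev Pt (Reg Br : Type) : Type := Br ⊕ (Reg ⊕ Bool)

/-- the equations -/
abbrev Et (St Reg Br : Type) : Type := Br ⊕ (Reg ⊕ (St ⊕ (Reg ⊕ Bool)))

/-- coefficients of the first entries -/
def aT : Et St Reg Br → Pt Reg Br → Tm
  | .inl β, .inl β' => if β = β' then qT else zT
  | .inr (.inl j), .inr (.inl j') => if j = j' then qT else zT
  | .inr (.inr (.inr (.inr true))), .inr (.inr true) => one
  | _, _ => zT

/-- coefficients of the second entries -/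
def gT : Et St Reg Br → Pt Reg Br → Tm
  | .inr (.inl j), .inl β => ns (M.zer β j) hqT
  | .inr (.inr (.inl q)), .inl β =>
    sub (if M.src β = q then one else zT) (if M.tgt β = q then sh one lT else zT)
  | .inr (.inr (.inr (.inl j))), .inl β => sub (ns (M.pos β j) one) (ns (M.inc β j) (sh one lT))
  | .inr (.inr (.inr (.inl j))), .inr (.inl j') => if j = j' then sub one (sh one lT) else zT
  | .inr (.inr (.inr (.inl j))), .inr (.inr true) => if j = j1 then neg one else zT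
  | .inr (.inr (.inr (.inr false))), .inr (.inr false) => one
  | _, _ => zT

/-- the right-hand sides -/
def rT : Et St Reg Br → Tm
  | .inl _ => umT
  | .inr (.inl _) => huT
  | .inr (.inr (.inl q)) => sub (if q = q0 then one else zT) (if q = q1 then sh one uT else zT)
  | .inr (.inr (.inr (.inl j))) => if j = j0 then par else zT
  | .inr (.inr (.inr (.inr true))) => hT
  | .inr (.inr (.inr (.inr false))) => zT

omit [Fintype St] [Fintype Reg] [Fintype Br] [DecidableEq St] in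
theorem nj_aT (i : Et St Reg Br) (p : Pt Reg Br) : NJ (aT i p) := by
  unfold aT
  split <;> (try split_ifs) <;> first | exact nj_qT | exact nj_zT | exact nj_one

omit [Fintype St] [Fintype Reg] [Fintype Br] [DecidableEq Br] in
theorem nj_gT (i : Et St Reg Br) (p : Pt Reg Br) : NJ (gT M j1 i p) := by
  unfold gT
  split
  · exact nj_ns nj_hqT _
  · refine nj_sub ?_ ?_ <;> split_ifs <;> first | exact nj_one | exact nj_zT | exact nj_Q
  · exact nj_sub (nj_ns nj_one _) (nj_ns nj_Q _)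
  · split_ifs
    · exact nj_sub nj_one nj_Q
    · exact nj_zT
  · split_ifs
    · exact nj_neg nj_one
    · exact nj_zT
  · exact nj_one
  · exact nj_zT

omit [Fintype St] [Fintype Reg] [Fintype Br] [DecidableEq Br] in
theorem nj_rT (i : Et St Reg Br) : NJ (rT q0 q1 j0 i) := by
  unfold rT
  split
  · exact nj_umT
  · exact nj_huT
  · refine nj_sub ?_ ?_ <;> split_ifs <;> first | exact nj_one | exact nj_zT | exact nj_U
  · split_ifs
    · exact nj_par
    · exact nj_zT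
  · exact nj_hT
  · exact nj_zT

omit [Fintype St] [Fintype Reg] [Fintype Br] [DecidableEq St] in
theorem ok_aT {e : Env} (hk : 0 ≤ e.k) (i : Et St Reg Br) (p : Pt Reg Br) : ok e (aT i p) := by
  unfold aT
  split <;> (try split_ifs) <;> first | exact ok_qT hk | exact ok_zT hk | exact ok_one e

omit [Fintype St] [Fintype Reg] [Fintype Br] [DecidableEq Br] in
theorem ok_gT {e : Env} (hk : 0 ≤ e.k) (i : Et St Reg Br) (p : Pt Reg Br) :
    ok e (gT M j1 i p) := by
  unfold gT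
  split
  · exact ok_ns e (ok_hqT hk) _
  · rw [ok_sub]
    constructor <;> split_ifs <;> first | exact ok_one e | exact ok_zT hk | exact ok_Q hk
  · rw [ok_sub]
    exact ⟨ok_ns e (ok_one e) _, ok_ns e (ok_Q hk) _⟩
  · split_ifs
    · exact (ok_sub _ _ _).2 ⟨ok_one e, ok_Q hk⟩
    · exact ok_zT hk
  · split_ifs
    · exact ok_one e
    · exact ok_zT hk
  · exact ok_one e
  · exact ok_zT hk

omit [Fintype St] [Fintype Reg] [Fintype Br] [DecidableEq Br] in
theorem ok_rT {e : Env} (hk : 0 ≤ e.k) (i : Et St Reg Br) : ok e (rT q0 q1 j0 i) := by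
  unfold rT
  split
  · exact ok_umT hk
  · exact ok_huT hk
  · rw [ok_sub]
    constructor <;> split_ifs <;> first | exact ok_one e | exact ok_zT hk | exact ok_U hk
  · split_ifs
    · exact ok_par e
    · exact ok_zT hk
  · exact ok_hT hk
  · exact ok_zT hk

/-- facts used for the bounds -/
theorem bounds (e : Env) : (2 : ℤ) ≤ QQ e ∧ (QQ e : ℤ) ≤ UU e ∧ (0 : ℤ) ≤ hh e ∧
    (hh e : ℤ) + 1 ≤ QQ e := by
  have h1 := two_le_QQ e
  have h2 := QQ_le_UU e
  have h3 := hh_lt e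
  refine ⟨by exact_mod_cast h1, by exact_mod_cast h2, Int.natCast_nonneg _, by exact_mod_cast h3⟩

theorem le_cube {Q U x : ℤ} (hQ : 2 ≤ Q) (hU : Q ≤ U) (hx : x ≤ U ^ 2) : x ≤ U ^ 3 := by
  have h1 : (1 : ℤ) ≤ U := by linarith
  have h2 : U ^ 2 ≤ U ^ 3 := pow_le_pow_right₀ h1 (by norm_num)
  linarith

omit [Fintype St] [Fintype Reg] [Fintype Br] [DecidableEq St] in
theorem abs_aT {e : Env} (i : Et St Reg Br) (p : Pt Reg Br) :
    |ev e (aT i p)| ≤ (UU e : ℤ) ^ 3 := by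
  obtain ⟨h1, h2, h3, h4⟩ := bounds e
  have h5 : (1 : ℤ) ≤ UU e := by linarith
  have h6 : (UU e : ℤ) ≤ (UU e : ℤ) ^ 3 := by
    calc (UU e : ℤ) = (UU e : ℤ) ^ 1 := (pow_one _).symm
      _ ≤ (UU e : ℤ) ^ 3 := pow_le_pow_right₀ h5 (by norm_num)
  have hz : |ev e zT| ≤ (UU e : ℤ) ^ 3 := by rw [ev_zT, abs_zero]; linarith
  have hq : |ev e qT| ≤ (UU e : ℤ) ^ 3 := by
    rw [ev_qT, abs_of_nonneg (by linarith)]
    linarith
  have ho : |ev e one| ≤ (UU e : ℤ) ^ 3 := by
    simp only [ev, abs_one]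
    linarith
  unfold aT
  split <;> (try split_ifs) <;> assumption

omit [Fintype St] [Fintype Reg] [Fintype Br] [DecidableEq Br] in
theorem abs_gT {e : Env} (i : Et St Reg Br) (p : Pt Reg Br) :
    |ev e (gT M j1 i p)| ≤ (UU e : ℤ) ^ 3 := by
  obtain ⟨h1, h2, h3, h4⟩ := bounds e
  have h5 : (1 : ℤ) ≤ UU e := by linarith
  have h6 : (UU e : ℤ) ≤ (UU e : ℤ) ^ 3 := by
    calc (UU e : ℤ) = (UU e : ℤ) ^ 1 := (pow_one _).symm
      _ ≤ (UU e : ℤ) ^ 3 := pow_le_pow_right₀ h5 (by norm_num)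
  have h7 : (UU e : ℤ) ^ 2 ≤ (UU e : ℤ) ^ 3 := pow_le_pow_right₀ h5 (by norm_num)
  have hz : |ev e zT| ≤ (UU e : ℤ) ^ 3 := by rw [ev_zT, abs_zero]; linarith
  have ho : |ev e one| ≤ (UU e : ℤ) ^ 3 := by
    simp only [ev, abs_one]
    linarith
  unfold gT
  split
  · rename_i j β
    rw [ev_ns, ev_hqT]
    have h8 := M.zer_le β j
    have h9 : (M.zer β j : ℤ) ≤ 1 := by exact_mod_cast h8
    have h10 : (0 : ℤ) ≤ M.zer β j := Int.natCast_nonneg _
    have h11 : ((QQ e : ℤ) - 1) * hh e ≤ (UU e : ℤ) ^ 2 := by nlinarith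
    have h12 : (0 : ℤ) ≤ ((QQ e : ℤ) - 1) * hh e := mul_nonneg (by linarith) h3
    rw [abs_of_nonneg (mul_nonneg h10 h12)]
    nlinarith
  · rw [ev_sub]
    have ha : ∀ c : Prop, [Decidable c] → 0 ≤ ev e (if c then one else zT) ∧
        ev e (if c then one else zT) ≤ 1 := by
      intro c _
      split_ifs
      · simp [ev]
      · rw [ev_zT]; simp
    have hb : ∀ c : Prop, [Decidable c] → 0 ≤ ev e (if c then sh one lT else zT) ∧
        ev e (if c then sh one lT else zT) ≤ QQ e := by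
      intro c _
      split_ifs
      · rw [ev_Q]; exact ⟨by linarith, le_rfl⟩
      · rw [ev_zT]; exact ⟨le_rfl, by linarith⟩
    rename_i q β
    obtain ⟨h8, h9⟩ := ha (M.src β = q)
    obtain ⟨h10, h11⟩ := hb (M.tgt β = q)
    rw [abs_le]
    constructor <;> linarith
  · rename_i j β
    rw [ev_sub, ev_ns, ev_ns, ev_Q]
    have h8 : (M.pos β j : ℤ) ≤ 1 := by exact_mod_cast M.pos_le β j
    have h9 : (M.inc β j : ℤ) ≤ 1 := by exact_mod_cast M.inc_le β j
    have h10 : (0 : ℤ) ≤ M.pos β j := Int.natCast_nonneg _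
    have h11 : (0 : ℤ) ≤ M.inc β j := Int.natCast_nonneg _
    simp only [ev, mul_one]
    rw [abs_le]
    constructor <;> nlinarith
  · split_ifs
    · rw [ev_sub, ev_Q]
      simp only [ev]
      rw [abs_le]
      constructor <;> linarith
    · exact hz
  · split_ifs
    · simp only [ev, abs_neg, abs_one]
      linarith
    · exact hz
  · exact ho
  · exact hz

omit [Fintype St] [Fintype Reg] [Fintype Br] [DecidableEq Br] in
theorem abs_rT {e : Env} (hk : 0 ≤ e.k) (hn : e.n ≤ UU e) (i : Et St Reg Br) :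
    |ev e (rT q0 q1 j0 i)| ≤ (UU e : ℤ) ^ 3 := by
  obtain ⟨h1, h2, h3, h4⟩ := bounds e
  have h5 : (1 : ℤ) ≤ UU e := by linarith
  have h6 : (UU e : ℤ) ≤ (UU e : ℤ) ^ 3 := by
    calc (UU e : ℤ) = (UU e : ℤ) ^ 1 := (pow_one _).symm
      _ ≤ (UU e : ℤ) ^ 3 := pow_le_pow_right₀ h5 (by norm_num)
  have h7 : (UU e : ℤ) ^ 2 ≤ (UU e : ℤ) ^ 3 := pow_le_pow_right₀ h5 (by norm_num)
  have hn' : (e.n : ℤ) ≤ UU e := by exact_mod_cast hn
  have hz : |ev e zT| ≤ (UU e : ℤ) ^ 3 := by rw [ev_zT, abs_zero]; linarith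
  unfold rT
  split
  · rw [ev_umT hk, abs_of_nonneg (by linarith)]
    linarith
  · rw [ev_huT hk, abs_of_nonneg (mul_nonneg h3 (by linarith))]
    nlinarith
  · rw [ev_sub]
    have ha : ∀ c : Prop, [Decidable c] → 0 ≤ ev e (if c then one else zT) ∧
        ev e (if c then one else zT) ≤ 1 := by
      intro c _
      split_ifs
      · simp [ev]
      · rw [ev_zT]; simp
    have hb : ∀ c : Prop, [Decidable c] → 0 ≤ ev e (if c then sh one uT else zT) ∧
        ev e (if c then sh one uT else zT) ≤ UU e := by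
      intro c _
      split_ifs
      · rw [ev_U hk]; exact ⟨by linarith, le_rfl⟩
      · rw [ev_zT]; exact ⟨le_rfl, by linarith⟩
    rename_i q
    obtain ⟨h8, h9⟩ := ha (q = q0)
    obtain ⟨h10, h11⟩ := hb (q = q1)
    rw [abs_le]
    constructor <;> linarith
  · split_ifs
    · simp only [ev]
      rw [abs_of_nonneg (Int.natCast_nonneg _)]
      linarith
    · exact hz
  · rw [ev_hT, abs_of_nonneg h3]
    linarith
  · exact hz

end

end Pool.Agent.H355.OE
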