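import Mathlib
import Pool.Agent.H355.OE.System

/-!
# The machine as a system of terms
-/

set_option autoImplicit false

namespace Pool.Agent.H355.OE

open Tm

section

variable {St Reg Br : Type} [Fintype St] [Fintype Reg] [Fintype Br] [DecidableEq St]
  [DecidableEq Reg] [DecidableEq Br] (M : Mch St Reg Br) (q0 q1 : St) (j0 j1 : Reg)

theorem ev_ite (e : Env) (c : Prop) [Decidable c] (S T : Tm) :
    ev e (if c then S else T) = if c then ev e S else ev e T := apply_ite _ _ _ _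

theorem ev_one' (e : Env) : ev e one = 1 := rfl
theorem ev_par' (e : Env) : ev e par = e.n := rfl
theorem ev_neg' (e : Env) (T : Tm) : ev e (neg T) = - ev e T := rfl

theorem cast_QQ (e : Env) : ((QQ e - 1 : ℕ) : ℤ) = (QQ e : ℤ) - 1 := by
  have := two_le_QQ e
  rw [Nat.cast_sub (by omega)]
  rfl

theorem cast_UU (e : Env) : ((UU e - 1 : ℕ) : ℤ) = (UU e : ℤ) - 1 := by
  have := two_le_UU e
  rw [Nat.cast_sub (by omega)]
  rfl

/-- the left-hand side of an equation -/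
def lhs (e : Env) (w : Pt Reg Br → ℕ × ℕ) (i : Et St Reg Br) : ℤ :=
  ∑ p, (ev e (aT i p) * ((w p).1 : ℤ) + ev e (gT M j1 i p) * ((w p).2 : ℤ))

theorem lhs_split (e : Env) (w : Pt Reg Br → ℕ × ℕ) (i : Et St Reg Br) :
    lhs M j1 e w i =
      ∑ β, (ev e (aT i (.inl β)) * ((w (.inl β)).1 : ℤ) +
        ev e (gT M j1 i (.inl β)) * ((w (.inl β)).2 : ℤ)) +
      (∑ j, (ev e (aT i (.inr (.inl j))) * ((w (.inr (.inl j))).1 : ℤ) +
        ev e (gT M j1 i (.inr (.inl j))) * ((w (.inr (.inl j))).2 : ℤ)) +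
      ((ev e (aT i (.inr (.inr true))) * ((w (.inr (.inr true))).1 : ℤ) +
        ev e (gT M j1 i (.inr (.inr true))) * ((w (.inr (.inr true))).2 : ℤ)) +
      (ev e (aT i (.inr (.inr false))) * ((w (.inr (.inr false))).1 : ℤ) +
        ev e (gT M j1 i (.inr (.inr false))) * ((w (.inr (.inr false))).2 : ℤ)))) := by
  rw [lhs, Fintype.sum_sum_type, Fintype.sum_sum_type, Fintype.sum_bool]

theorem eq1 {e : Env} (hk : 0 ≤ e.k) (w : Pt Reg Br → ℕ × ℕ) (β : Br) :
    lhs M j1 e w (.inl β) = ev e (rT q0 q1 j0 (Br := Br) (.inl β)) ↔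
      (QQ e - 1) * (w (.inl β)).1 = UU e - 1 := by
  rw [lhs_split]
  simp only [aT, gT, rT, ev_ite, ev_zT, ev_qT, ev_umT hk, ite_mul, zero_mul, add_zero,
    Finset.sum_const_zero, Finset.sum_ite_eq, Finset.mem_univ, if_true]
  rw [← Nat.cast_inj (R := ℤ), Nat.cast_mul, cast_QQ, cast_UU]

theorem eq2 {e : Env} (hk : 0 ≤ e.k) (w : Pt Reg Br → ℕ × ℕ) (j : Reg) :
    lhs M j1 e w (.inr (.inl j)) = ev e (rT q0 q1 j0 (Br := Br) (.inr (.inl j))) ↔
      (QQ e - 1) * (w (.inr (.inl j))).1 +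
        (QQ e - 1) * hh e * ∑ β, M.zer β j * (w (.inl β)).2 = hh e * (UU e - 1) := by
  rw [lhs_split]
  simp only [aT, gT, rT, ev_ite, ev_zT, ev_qT, ev_huT hk, ev_ns, ev_hqT, ite_mul, zero_mul,
    add_zero, zero_add,
    Finset.sum_const_zero, Finset.sum_ite_eq, Finset.mem_univ, if_true]
  rw [← Nat.cast_inj (R := ℤ), Nat.cast_mul, Nat.cast_add, Nat.cast_mul, Nat.cast_mul,
    Nat.cast_mul, cast_QQ, cast_UU, Nat.cast_sum, Finset.mul_sum]
  have : ∀ β, (M.zer β j : ℤ) * (((QQ e : ℤ) - 1) * hh e) * ((w (.inl β)).2 : ℤ) =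
      ((QQ e : ℤ) - 1) * hh e * ((M.zer β j * (w (.inl β)).2 : ℕ) : ℤ) := by
    intro β
    push_cast
    ring
  simp only [this]
  rw [add_comm]

theorem eq3 {e : Env} (hk : 0 ≤ e.k) (w : Pt Reg Br → ℕ × ℕ) (q : St) :
    lhs M j1 e w (.inr (.inr (.inl q))) =
      ev e (rT q0 q1 j0 (Br := Br) (.inr (.inr (.inl q)))) ↔
      (∑ β, if M.src β = q then (w (.inl β)).2 else 0) + (if q = q1 then 1 else 0) * UU e =
        (if q = q0 then 1 else 0) + QQ e * ∑ β, if M.tgt β = q then (w (.inl β)).2 else 0 := by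
  rw [lhs_split]
  simp only [aT, gT, rT, ev_ite, ev_zT, ev_sub, ev_U hk, ev_Q, ite_mul, zero_mul, sub_mul,
    add_zero, zero_add, ev_one', one_mul, Finset.sum_sub_distrib,
    Finset.sum_const_zero]
  rw [← Nat.cast_inj (R := ℤ)]
  push_cast
  rw [Finset.mul_sum]
  simp only [mul_ite, mul_zero]
  constructor
  · intro h
    linarith
  · intro h
    linarith

theorem eq4 {e : Env} (w : Pt Reg Br → ℕ × ℕ) (j : Reg) :
    lhs M j1 e w (.inr (.inr (.inr (.inl j)))) =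
      ev e (rT q0 q1 j0 (Br := Br) (.inr (.inr (.inr (.inl j))))) ↔
      (w (.inr (.inl j))).2 + ∑ β, M.pos β j * (w (.inl β)).2 =
        ini j0 j1 e.n (w (.inr (.inr true))).2 j +
          QQ e * ((w (.inr (.inl j))).2 + ∑ β, M.inc β j * (w (.inl β)).2) := by
  rw [lhs_split]
  simp only [aT, gT, rT, ev_ite, ev_zT, ev_sub, ev_ns, ev_Q, ite_mul, zero_mul, sub_mul,
    add_zero, zero_add, ev_one', ev_neg', ev_par', one_mul, mul_one, Finset.sum_sub_distrib,
    Finset.sum_ite_eq, Finset.mem_univ, if_true, ini]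
  rw [← Nat.cast_inj (R := ℤ)]
  push_cast
  have : ∀ β, (M.inc β j : ℤ) * (QQ e : ℤ) * ((w (.inl β)).2 : ℤ) =
      (QQ e : ℤ) * ((M.inc β j : ℤ) * ((w (.inl β)).2 : ℤ)) := by
    intro β
    ring
  simp only [this]
  rw [← Finset.mul_sum]
  have h2 : (if j = j1 then -1 * ((w (.inr (.inr true))).2 : ℤ) else 0) =
      - (if j = j1 then ((w (.inr (.inr true))).2 : ℤ) else 0) := by
    split_ifs <;> ring
  rw [h2]
  constructor
  · intro h
    linarith
  · intro h
    linarith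

theorem eq5 {e : Env} (w : Pt Reg Br → ℕ × ℕ) :
    lhs M j1 e w (.inr (.inr (.inr (.inr true)))) =
      ev e (rT q0 q1 j0 (Br := Br) (.inr (.inr (.inr (.inr true))))) ↔
      (w (.inr (.inr true))).1 = hh e := by
  rw [lhs_split]
  simp only [aT, gT, rT, ev_zT, ev_hT, zero_mul,
    add_zero, zero_add, ev_one', one_mul, Finset.sum_const_zero]
  exact Nat.cast_inj

theorem eq6 {e : Env} (w : Pt Reg Br → ℕ × ℕ) :
    lhs M j1 e w (.inr (.inr (.inr (.inr false)))) =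
      ev e (rT q0 q1 j0 (Br := Br) (.inr (.inr (.inr (.inr false))))) ↔
      (w (.inr (.inr false))).2 = 0 := by
  rw [lhs_split]
  simp only [aT, gT, rT, ev_zT, zero_mul,
    add_zero, zero_add, ev_one', one_mul, Finset.sum_const_zero]
  exact Nat.cast_eq_zero

/-- the equations and masks are those of the runs of the machine -/
theorem lin_iff {e : Env} (hk : 0 ≤ e.k) (w : Pt Reg Br → ℕ × ℕ) :
    ((∀ i : Et St Reg Br, lhs M j1 e w i = ev e (rT q0 q1 j0 i)) ∧
      ∀ p, Odd ((w p).1.choose (w p).2)) ↔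
    M.Sol (2 ^ e.k.toNat) (2 ^ e.k.toNat) q0 q1 (ini j0 j1 e.n (w (.inr (.inr true))).2)
      (fun β => (w (.inl β)).1) (fun β => (w (.inl β)).2)
      (fun j => (w (.inr (.inl j))).1) (fun j => (w (.inr (.inl j))).2) ∧
    (w (.inr (.inr true))).1 = hh e ∧
      Odd ((w (.inr (.inr true))).1.choose (w (.inr (.inr true))).2) ∧
      (w (.inr (.inr false))).2 = 0 := by
  have hU := UU_eq e
  have hQ : (2 : ℕ) ^ 2 ^ e.k.toNat = QQ e := rfl
  have hh' : (2 : ℕ) ^ (2 ^ e.k.toNat - 1) - 1 = hh e := rfl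
  constructor
  · rintro ⟨h, hm⟩
    refine ⟨?_, (eq5 M q0 q1 j0 j1 w).1 (h _), hm _, (eq6 M q0 q1 j0 j1 w).1 (h _)⟩
    constructor
    · intro β
      rw [hQ, ← hU]
      exact (eq1 M q0 q1 j0 j1 hk w β).1 (h _)
    · intro β
      exact hm _
    · intro j
      rw [hQ, ← hU, hh']
      exact (eq2 M q0 q1 j0 j1 hk w j).1 (h _)
    · intro j
      exact hm _
    · intro q
      rw [hQ, ← hU]
      exact (eq3 M q0 q1 j0 j1 hk w q).1 (h _)
    · intro j
      rw [hQ]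
      exact (eq4 M q0 q1 j0 j1 w j).1 (h _)
  · rintro ⟨h, h5, h6, h7⟩
    constructor
    · rintro (β | j | q | j | _ | _)
      · rw [eq1 M q0 q1 j0 j1 hk, hU]
        exact h.hI β
      · rw [eq2 M q0 q1 j0 j1 hk, hU]
        exact h.hA j
      · rw [eq3 M q0 q1 j0 j1 hk, hU]
        exact h.hS q
      · rw [eq4 M q0 q1 j0 j1]
        exact h.hR j
      · exact (eq6 M q0 q1 j0 j1 w).2 h7
      · exact (eq5 M q0 q1 j0 j1 w).2 h5
    · rintro (β | j | _ | _)
      · exact h.hL β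
      · exact h.hD j
      · rw [h7, Nat.choose_zero_right]
        exact odd_one
      · exact h6

end


section

variable {St Reg Br : Type} [Fintype St] [Fintype Reg] [Fintype Br] [DecidableEq St]
  [DecidableEq Reg] [DecidableEq Br] (M : Mch St Reg Br) (q0 q1 : St) (j0 j1 : Reg)
  {q m : ℕ} (σE : Et St Reg Br ≃ Fin m) (σP : Pt Reg Br ≃ Fin q)

omit [Fintype St] [Fintype Reg] [Fintype Br] [DecidableEq St] in
/-- renumbered coefficients -/
def αF (l : Fin m) (p : Fin q) : Tm := aT (σE.symm l) (σP.symm p)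

/-- renumbered coefficients -/
def γF (l : Fin m) (p : Fin q) : Tm := gT M j1 (σE.symm l) (σP.symm p)

/-- renumbered right-hand sides -/
def cF (l : Fin m) : Tm := rT q0 q1 j0 (σE.symm l)

/-- the odd coefficient condition -/
def OddC (e : Env) : Prop :=
  Odd (cc (fun p => (ev e (epT (αF σE σP) p)).toNat)
    (fun p => (ev e (epT (γF M j1 σE σP) p)).toNat) (ev e (ixT (cF q0 q1 j0 σE))).toNat)

theorem cast_idx {E F : Fin q → ℤ} {I : ℤ} (hE : ∀ p, 1 ≤ E p) (hF : ∀ p, 1 ≤ F p) (hI : 0 ≤ I)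
    (v : Fin q → ℕ × ℕ) :
    idx (fun p => (E p).toNat) (fun p => (F p).toNat) v = I.toNat ↔
      ∑ p, (E p * (v p).1 + F p * (v p).2) = I := by
  rw [← Nat.cast_inj (R := ℤ), Int.toNat_of_nonneg hI, idx]
  push_cast
  have h1 : ∀ p, ((E p).toNat : ℤ) = E p := fun p => Int.toNat_of_nonneg (by linarith [hE p])
  have h2 : ∀ p, ((F p).toNat : ℤ) = F p := fun p => Int.toNat_of_nonneg (by linarith [hF p])
  have h3 : ∀ p, max (E p) 0 = E p := fun p => max_eq_left (by linarith [hE p])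
  have h4 : ∀ p, max (F p) 0 = F p := fun p => max_eq_left (by linarith [hF p])
  simp only [h1, h2, h3, h4]

variable {e : Env} (hk : 0 ≤ e.k) (hn : e.n ≤ UU e)

include hk hn in
theorem one_le_e (p : Fin q) : 1 ≤ ev e (epT (αF σE σP) p) := by
  obtain ⟨hH, hD, hB⟩ := bound_B e
  rw [ev_epT hk]
  exact one_le_ep hH hD hB (fun l p => abs_aT _ _) p

include hk hn in
theorem one_le_f (p : Fin q) : 1 ≤ ev e (epT (γF M j1 σE σP) p) := by
  obtain ⟨hH, hD, hB⟩ := bound_B e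
  rw [ev_epT hk]
  exact one_le_ep hH hD hB (fun l p => abs_gT M j1 _ _) p

include hk hn in
theorem idx_iff (v : Fin q → ℕ × ℕ) :
    idx (fun p => (ev e (epT (αF σE σP) p)).toNat)
      (fun p => (ev e (epT (γF M j1 σE σP) p)).toNat) v =
        (ev e (ixT (cF q0 q1 j0 σE))).toNat ↔
      (∑ p : Pt Reg Br, ((v (σP p)).1 + (v (σP p)).2) = UU e ^ 2 ∧
        ∀ i : Et St Reg Br, lhs M j1 e (fun p => v (σP p)) i = ev e (rT q0 q1 j0 i)) := by
  obtain ⟨hH, hD, hB⟩ := bound_B e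
  have hix := ix_bounds hH hD hB (c := fun l => ev e (cF q0 q1 j0 σE l))
    (fun l => abs_rT q0 q1 j0 hk hn _)
  rw [← ev_ixT hk] at hix
  rw [cast_idx (one_le_e σE σP hk hn) (one_le_f M j1 σE σP hk hn) hix.1]
  simp only [ev_epT hk]
  rw [ev_ixT hk, pack (α := fun l p => ev e (αF σE σP l p))
    (γ := fun l p => ev e (γF M j1 σE σP l p)) (c := fun l => ev e (cF q0 q1 j0 σE l)) hH hD hB
    (fun l p => abs_aT _ _) (fun l p => abs_gT M j1 _ _) (fun l => abs_rT q0 q1 j0 hk hn _)]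
  constructor
  · rintro ⟨h1, h2⟩
    constructor
    · rw [← Nat.cast_inj (R := ℤ)]
      push_cast
      rw [← h1]
      exact Equiv.sum_comp σP (fun p => ((v p).1 : ℤ) + (v p).2)
    · intro i
      have h3 := h2 (σE i)
      simp only [αF, γF, cF, Equiv.symm_apply_apply] at h3
      rw [← h3, lhs]
      have h4 := Equiv.sum_comp σP (fun p => ev e (aT i (σP.symm p)) * ((v p).1 : ℤ) +
        ev e (gT M j1 i (σP.symm p)) * ((v p).2 : ℤ))
      simp only [Equiv.symm_apply_apply] at h4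
      exact h4
  · rintro ⟨h1, h2⟩
    constructor
    · rw [← Nat.cast_inj (R := ℤ)] at h1
      push_cast at h1
      rw [← h1]
      exact (Equiv.sum_comp σP (fun p => ((v p).1 : ℤ) + (v p).2)).symm
    · intro l
      have h3 := h2 (σE.symm l)
      simp only [αF, γF, cF]
      rw [← h3, lhs]
      have h4 := Equiv.sum_comp σP (fun p => ev e (aT (σE.symm l) (σP.symm p)) * ((v p).1 : ℤ) +
        ev e (gT M j1 (σE.symm l) (σP.symm p)) * ((v p).2 : ℤ))
      simp only [Equiv.symm_apply_apply] at h4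
      exact h4.symm

/-- the time -/
abbrev tt2 (e : Env) : ℕ := 2 ^ e.k.toNat

theorem lt_two_pow_pred (s : ℕ) : s < 2 ^ (2 ^ s - 1) := by
  have h1 : s < 2 ^ s := Nat.lt_two_pow_self
  calc s < 2 ^ s := h1
    _ ≤ 2 ^ (2 ^ s - 1) := Nat.pow_le_pow_right (by norm_num) (by omega)

theorem n_le_UU {e : Env} (hn : e.n < 2 ^ e.k.toNat) : e.n ≤ UU e := by
  have h1 : e.n < 2 ^ 2 ^ (2 * e.k.toNat) := by
    calc e.n < 2 ^ e.k.toNat := hn
      _ ≤ 2 ^ 2 ^ (2 * e.k.toNat) := by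
        apply Nat.pow_le_pow_right (by norm_num)
        have : e.k.toNat < 2 ^ e.k.toNat := Nat.lt_two_pow_self
        have h3 : 2 ^ e.k.toNat ≤ 2 ^ (2 * e.k.toNat) :=
          Nat.pow_le_pow_right (by norm_num) (by omega)
        omega
  exact h1.le

include hk in
/-- a solution of the equations is the canonical one -/
theorem canon (hb : Fintype.card Br ≤ e.k.toNat) (hn : e.n < 2 ^ e.k.toNat)
    (w : Pt Reg Br → ℕ × ℕ)
    (h1 : ∀ i : Et St Reg Br, lhs M j1 e w i = ev e (rT q0 q1 j0 i))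
    (h2 : ∀ p, Odd ((w p).1.choose (w p).2)) :
    ∃ K, M.conf (q0, ini j0 j1 e.n K) (tt2 e) = (q1, fun _ => 0) ∧
      (∀ β, w (.inl β) = (Mch.cI (tt2 e) (tt2 e),
        M.cL (tt2 e) (tt2 e) q0 (ini j0 j1 e.n K) β)) ∧
      (∀ j, w (.inr (.inl j)) = (M.cA (tt2 e) (tt2 e) q0 (ini j0 j1 e.n K) j,
        M.cD (tt2 e) (tt2 e) q0 (ini j0 j1 e.n K) j)) ∧
      w (.inr (.inr true)) = (hh e, K) ∧ (w (.inr (.inr false))).2 = 0 := by
  obtain ⟨h3, h4, h5, h6⟩ := (lin_iff M q0 q1 j0 j1 hk w).1 ⟨h1, h2⟩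
  have hl : 1 ≤ 2 ^ e.k.toNat := Nat.one_le_two_pow
  have h7 := lt_two_pow_pred e.k.toNat
  have h8 := Mch.two_half hl
  rw [h4] at h5
  have h9 : (w (.inr (.inr true))).2 < 2 ^ (2 ^ e.k.toNat - 1) :=
    (odd_choose_ones _ _).1 h5
  have h10 : 2 ^ e.k.toNat ≤ 2 ^ (2 ^ e.k.toNat - 1) := by
    apply Nat.pow_le_pow_right (by norm_num)
    have : e.k.toNat < 2 ^ e.k.toNat := Nat.lt_two_pow_self
    omega
  obtain ⟨h11, h12, h13, h14, h15⟩ := h3.canonical M hl (by omega) (by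
    intro j
    rw [ini]
    split_ifs <;> omega)
  refine ⟨(w (.inr (.inr true))).2, h11, fun β => ?_, fun j => ?_, ?_, h6⟩
  · exact Prod.ext (congrFun h12 β) (congrFun h13 β)
  · exact Prod.ext (congrFun h14 j) (congrFun h15 j)
  · exact Prod.ext h4 rfl

include hk in
/-- an odd coefficient gives a halting computation -/
theorem of_oddC (hb : Fintype.card Br ≤ e.k.toNat) (hn : e.n < 2 ^ e.k.toNat)
    (h : OddC M q0 q1 j0 j1 σE σP e) :
    ∃ K t, M.conf (q0, ini j0 j1 e.n K) t = (q1, fun _ => 0) := by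
  obtain ⟨v, hv, ho⟩ := exists_of_odd_cc h
  rw [idx_iff M q0 q1 j0 j1 σE σP hk (n_le_UU hn)] at hv
  obtain ⟨K, hK, _⟩ := canon M q0 q1 j0 j1 hk hb hn (fun p => v (σP p)) hv.2 (fun p => ho _)
  exact ⟨K, _, hK⟩

theorem pt_ext {w w' : Pt Reg Br → ℕ × ℕ} (h1 : ∀ β, w (.inl β) = w' (.inl β))
    (h2 : ∀ j, w (.inr (.inl j)) = w' (.inr (.inl j)))
    (h3 : w (.inr (.inr true)) = w' (.inr (.inr true)))
    (h4 : (w (.inr (.inr false))).2 = (w' (.inr (.inr false))).2)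
    (h5 : ∑ p, ((w p).1 + (w p).2) = ∑ p, ((w' p).1 + (w' p).2)) : w = w' := by
  rw [Fintype.sum_sum_type, Fintype.sum_sum_type, Fintype.sum_bool, Fintype.sum_sum_type,
    Fintype.sum_sum_type, Fintype.sum_bool] at h5
  simp only [h1, h2, h3, h4] at h5
  have h6 : (w (.inr (.inr false))).1 = (w' (.inr (.inr false))).1 := by omega
  funext p
  rcases p with β | j | _ | _
  · exact h1 β
  · exact h2 j
  · exact Prod.ext h6 h4
  · exact h3

include hk in
/-- a halting computation gives an odd coefficient -/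
theorem oddC_of (hb : Fintype.card Br ≤ e.k.toNat) (hn : e.n < 2 ^ e.k.toNat) {K : ℕ}
    (hc : 2 * Fintype.card (Pt Reg Br) ≤ UU e)
    (hK : e.n + K + 2 ^ e.k.toNat ≤ 2 ^ (2 ^ e.k.toNat - 1) - 1)
    (hu : ∀ K', M.conf (q0, ini j0 j1 e.n K') (tt2 e) = (q1, fun _ => 0) → K' = K)
    (h : M.conf (q0, ini j0 j1 e.n K) (tt2 e) = (q1, fun _ => 0)) :
    OddC M q0 q1 j0 j1 σE σP e := by
  have hl : 1 ≤ 2 ^ e.k.toNat := Nat.one_le_two_pow
  have h8 := Mch.two_half hl
  have hQ : (2 : ℕ) ^ 2 ^ e.k.toNat = QQ e := rfl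
  have hsol := Mch.canonical_sol M (l := 2 ^ e.k.toNat) (x := ini j0 j1 e.n K) hl h (by
    intro t ht j
    have h1 := Mch.conf_le M (q0, ini j0 j1 e.n K) t j
    have h2 : (q0, ini j0 j1 e.n K).2 j ≤ e.n + K := by
      change ini j0 j1 e.n K j ≤ _
      rw [ini]
      split_ifs <;> omega
    have ht' : t < 2 ^ e.k.toNat := ht
    omega)
  set x := ini j0 j1 e.n K with hx
  -- the canonical pairs, except for the slack
  let w0 : ℕ → Pt Reg Br → ℕ × ℕ := fun Z p => match p with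
    | .inl β => (Mch.cI (tt2 e) (tt2 e), M.cL (tt2 e) (tt2 e) q0 x β)
    | .inr (.inl j) => (M.cA (tt2 e) (tt2 e) q0 x j, M.cD (tt2 e) (tt2 e) q0 x j)
    | .inr (.inr true) => (hh e, K)
    | .inr (.inr false) => (Z, 0)
  have hbound : ∑ p, ((w0 0 p).1 + (w0 0 p).2) ≤ UU e ^ 2 := by
    have h1 : ∀ p, (w0 0 p).1 + (w0 0 p).2 ≤ 2 * UU e := by
      have hconf : ∀ t < tt2 e, ∀ j, (M.conf (q0, x) t).2 j < 2 ^ 2 ^ e.k.toNat := by
        intro t ht j
        have h1 := Mch.conf_le M (q0, ini j0 j1 e.n K) t j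
        have h2 : (q0, ini j0 j1 e.n K).2 j ≤ e.n + K := by
          change ini j0 j1 e.n K j ≤ _
          rw [ini]
          split_ifs <;> omega
        have ht' : t < 2 ^ e.k.toNat := ht
        rw [hx]
        omega
      have hU : (2 ^ 2 ^ e.k.toNat) ^ tt2 e = UU e := (UU_eq e).symm
      intro p
      rcases p with β | j | _ | _
      · have h1 : Mch.cI (tt2 e) (tt2 e) < UU e := by
          rw [← hU]
          exact num_lt _ (fun t _ => by change 1 < 2 ^ 2 ^ e.k.toNat; omega)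
        have h2 : M.cL (tt2 e) (tt2 e) q0 x β < UU e := by
          rw [← hU]
          refine num_lt _ (fun t _ => ?_)
          change _ < 2 ^ 2 ^ e.k.toNat
          split_ifs <;> omega
        change Mch.cI (tt2 e) (tt2 e) + M.cL (tt2 e) (tt2 e) q0 x β ≤ 2 * UU e
        omega
      · have h1 : M.cA (tt2 e) (tt2 e) q0 x j < UU e := by
          rw [← hU]
          refine num_lt _ (fun t _ => ?_)
          change _ < 2 ^ 2 ^ e.k.toNat
          have h4 : (2 ^ (2 ^ e.k.toNat - 1) - 1) * (1 - M.zer (M.brt (q0, x) t) j) ≤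
              (2 ^ (2 ^ e.k.toNat - 1) - 1) * 1 :=
            Nat.mul_le_mul_left _ (Nat.sub_le _ _)
          change (2 ^ (2 ^ e.k.toNat - 1) - 1) * (1 - M.zer (M.brt (q0, x) t) j) < _
          omega
        have h2 : M.cD (tt2 e) (tt2 e) q0 x j < UU e := by
          rw [← hU]
          refine num_lt _ (fun t ht => ?_)
          have := hconf t ht j
          change _ < 2 ^ 2 ^ e.k.toNat
          omega
        change M.cA (tt2 e) (tt2 e) q0 x j + M.cD (tt2 e) (tt2 e) q0 x j ≤ 2 * UU e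
        omega
      · change 0 + 0 ≤ 2 * UU e
        omega
      · have h1 := hh_lt e
        have h2 := QQ_le_UU e
        change hh e + K ≤ 2 * UU e
        omega
    calc ∑ p, ((w0 0 p).1 + (w0 0 p).2) ≤ ∑ _p : Pt Reg Br, 2 * UU e :=
          Finset.sum_le_sum (fun p _ => h1 p)
      _ = 2 * Fintype.card (Pt Reg Br) * UU e := by
          rw [Finset.sum_const, Finset.card_univ, smul_eq_mul]
          ring
      _ ≤ UU e * UU e := Nat.mul_le_mul_right _ hc
      _ = UU e ^ 2 := (sq _).symm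
  obtain ⟨Z, hZ⟩ := Nat.exists_eq_add_of_le hbound
  have hsum : ∑ p, ((w0 Z p).1 + (w0 Z p).2) = UU e ^ 2 := by
    rw [hZ, Fintype.sum_sum_type, Fintype.sum_sum_type, Fintype.sum_bool, Fintype.sum_sum_type,
      Fintype.sum_sum_type, Fintype.sum_bool]
    simp only [w0]
    ring
  have hlin := (lin_iff M q0 q1 j0 j1 hk (w0 Z)).2 ⟨hsol, rfl, (by
    change Odd ((2 ^ (2 ^ e.k.toNat - 1) - 1).choose K)
    rw [odd_choose_ones]
    omega), rfl⟩
  have he := one_le_e σE σP hk (n_le_UU hn)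
  have hf := one_le_f M j1 σE σP hk (n_le_UU hn)
  refine odd_cc (v := fun p => w0 Z (σP.symm p)) (fun p => ?_) (fun p => ?_) ?_ ?_ ?_
  · have := he p
    omega
  · have := hf p
    omega
  · rw [idx_iff M q0 q1 j0 j1 σE σP hk (n_le_UU hn)]
    simp only [Equiv.symm_apply_apply]
    exact ⟨hsum, hlin.1⟩
  · intro p
    exact hlin.2 _
  · intro u hu1 hu2
    rw [idx_iff M q0 q1 j0 j1 σE σP hk (n_le_UU hn)] at hu1
    obtain ⟨K', hK', h1, h2, h3, h4⟩ := canon M q0 q1 j0 j1 hk hb hn (fun p => u (σP p)) hu1.2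
      (fun p => hu2 _)
    have hKK := hu K' hK'
    subst hKK
    have h5 : (fun p => u (σP p)) = w0 Z := by
      apply pt_ext h1 h2 h3 h4
      rw [hu1.1, hsum]
    funext p
    have h6 := congrFun h5 (σP.symm p)
    simp only [Equiv.apply_symm_apply] at h6
    exact h6

end

/-- halting of the machine is expressed by terms in two unknown integers -/
theorem sys_core {St Reg Br : Type} [Fintype St] [Fintype Reg] [Fintype Br] [DecidableEq St]
    [DecidableEq Reg] [DecidableEq Br] (M : Mch St Reg Br) (q0 q1 : St) (j0 j1 : Reg)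
    (hu : ∀ n k k' t t', M.conf (q0, ini j0 j1 n k) t = (q1, fun _ => 0) →
      M.conf (q0, ini j0 j1 n k') t' = (q1, fun _ => 0) → k = k')
    (hp : ∀ n k t t', t ≤ t' → M.conf (q0, ini j0 j1 n k) t = (q1, fun _ => 0) →
      M.conf (q0, ini j0 j1 n k) t' = (q1, fun _ => 0)) :
    ∃ T : List Tm, Tm.k ∈ T ∧ ∀ n : ℕ,
      (∃ K t, M.conf (q0, ini j0 j1 n K) t = (q1, fun _ => 0)) ↔
        ∃ e : Env, e.n = n ∧ ∀ S ∈ T, Good e S := by
  let σE : Et St Reg Br ≃ Fin (Fintype.card (Et St Reg Br)) := Fintype.equivFin _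
  let σP : Pt Reg Br ≃ Fin (Fintype.card (Pt Reg Br)) := Fintype.equivFin _
  obtain ⟨R1, R2, hR⟩ := meaning (αT := αF σE σP) (γT := γF M j1 σE σP)
    (cT := cF q0 q1 j0 σE) (fun l p => nj_aT _ _) (fun l p => nj_gT M j1 _ _)
    (fun l => nj_rT q0 q1 j0 _)
  set σ0 : ℕ := Fintype.card Br + 2 * Fintype.card (Pt Reg Br) with hσ0
  let S1 : Tm := sub k (ns σ0 one)
  let S2 : Tm := sub (sub (sh one k) one) par
  have hS1 : ∀ e : Env, Good e S1 ↔ (σ0 : ℤ) ≤ e.k := by
    intro e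
    have h1 : ev e S1 = e.k - σ0 := by
      rw [ev_sub, ev_ns]
      simp [ev]
    rw [Good, h1]
    refine ⟨fun h => by linarith [h.2], fun h => ⟨?_, by linarith⟩⟩
    exact (ok_sub _ _ _).2 ⟨ok_k e, ok_ns e (ok_one e) _⟩
  have hS2 : ∀ e : Env, 0 ≤ e.k → (Good e S2 ↔ e.n < 2 ^ e.k.toNat) := by
    intro e hk
    have h1 : ev e S2 = 2 ^ e.k.toNat - 1 - e.n := by
      rw [ev_sub, ev_sub]
      simp [ev]
    rw [Good, h1]
    constructor
    · intro h
      have h2 : (e.n : ℤ) + 1 ≤ ((2 ^ e.k.toNat : ℕ) : ℤ) := by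
        push_cast
        linarith [h.2]
      omega
    · intro h
      refine ⟨(ok_sub _ _ _).2 ⟨(ok_sub _ _ _).2 ⟨(ok_sh _ _ _).2 ⟨ok_one e, good_k hk⟩,
        ok_one e⟩, ok_par e⟩, ?_⟩
      have h2 : (e.n : ℤ) + 1 ≤ ((2 ^ e.k.toNat : ℕ) : ℤ) := by omega
      push_cast at h2
      linarith
  have hRR : ∀ e : Env, 0 ≤ e.k → e.n < 2 ^ e.k.toNat → ((ok e R1 ∧ ok e R2) ∧
      ((∃ J : ℤ, 0 ≤ ev ⟨e.n, e.k, J⟩ R1 ∧ 0 ≤ ev ⟨e.n, e.k, J⟩ R2) ↔
        OddC M q0 q1 j0 j1 σE σP e)) := by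
    intro e hk hn
    exact hR e hk (fun l p => ok_aT hk _ _) (fun l p => ok_gT M j1 hk _ _)
      (fun l => ok_rT q0 q1 j0 hk _) (fun l p => abs_aT _ _) (fun l p => abs_gT M j1 _ _)
      (fun l => abs_rT q0 q1 j0 hk (n_le_UU hn) _)
  refine ⟨[k, S1, S2, R1, R2], List.mem_cons_self, fun n => ⟨?_, ?_⟩⟩
  · rintro ⟨K, t0, h⟩
    set s : ℕ := σ0 + t0 + n + K + 2 with hs
    have hs1 : s < 2 ^ s := Nat.lt_two_pow_self
    have hs2 : s + 2 ≤ 2 ^ s := by
      have h1 : ∀ r : ℕ, r + 2 + 2 ≤ 2 ^ (r + 2) := by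
        intro r
        induction r with
        | zero => norm_num
        | succ r ih =>
          rw [show r + 1 + 2 = (r + 2) + 1 by ring, pow_succ]
          omega
      have := h1 (σ0 + t0 + n + K)
      rw [← hs] at this
      exact this
    have hs3 : 2 * 2 ^ s ≤ 2 ^ (2 ^ s - 1) := by
      rw [← pow_succ']
      exact Nat.pow_le_pow_right (by norm_num) (by omega)
    have key : ∀ J : ℤ, 0 ≤ (⟨n, s, J⟩ : Env).k := fun J => Int.natCast_nonneg _
    have hkk : ∀ J : ℤ, (⟨n, s, J⟩ : Env).k.toNat = s := fun J => Int.toNat_natCast _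
    have hnn : ∀ J : ℤ, (⟨n, s, J⟩ : Env).n < 2 ^ (⟨n, s, J⟩ : Env).k.toNat := by
      intro J
      rw [hkk]
      change n < 2 ^ s
      omega
    have hodd : OddC M q0 q1 j0 j1 σE σP (⟨n, s, 0⟩ : Env) := by
      apply oddC_of M q0 q1 j0 j1 σE σP (key 0) (K := K)
      · rw [hkk]
        omega
      · exact hnn 0
      · have h1 : (⟨n, s, 0⟩ : Env).k.toNat < UU ⟨n, s, 0⟩ := by
          rw [UU, hkk]
          calc s < 2 ^ s := hs1
            _ ≤ 2 ^ 2 ^ (2 * s) := by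
              apply Nat.pow_le_pow_right (by norm_num)
              have h3 : 2 ^ s ≤ 2 ^ (2 * s) := Nat.pow_le_pow_right (by norm_num) (by omega)
              omega
        rw [hkk] at h1
        omega
      · rw [hkk]
        change n + K + 2 ^ s ≤ _
        omega
      · intro K' hK'
        exact hu n K' K _ _ hK' h
      · apply hp n K t0 _ _ h
        rw [tt2, hkk]
        omega
    obtain ⟨J, hJ1, hJ2⟩ := ((hRR ⟨n, s, 0⟩ (key 0) (hnn 0)).2).2 hodd
    have hok := (hRR ⟨n, s, J⟩ (key J) (hnn J)).1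
    refine ⟨⟨n, s, J⟩, rfl, ?_⟩
    simp only [List.mem_cons, List.not_mem_nil, or_false, forall_eq_or_imp, forall_eq]
    refine ⟨good_k (key J), ?_, (hS2 _ (key J)).2 (hnn J), ⟨hok.1, hJ1⟩, ⟨hok.2, hJ2⟩⟩
    rw [hS1]
    change (σ0 : ℤ) ≤ (s : ℤ)
    omega
  · rintro ⟨e, he, h⟩
    simp only [List.mem_cons, List.not_mem_nil, or_false, forall_eq_or_imp, forall_eq] at h
    obtain ⟨hk, h1, h2, h3, h4⟩ := h
    have hk0 : 0 ≤ e.k := hk.2
    rw [hS1] at h1
    rw [hS2 e hk0] at h2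
    have hodd : OddC M q0 q1 j0 j1 σE σP e := ((hRR e hk0 h2).2).1 ⟨e.J, h3.2, h4.2⟩
    rw [← he]
    exact of_oddC M q0 q1 j0 j1 σE σP hk0 (by omega) h2 hodd

end Pool.Agent.H355.OE
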