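import Mathlib
import Pool.Agent.H355.OE.Final

/-!
# One-variable equations over one-relator groups
-/

set_option autoImplicit false

namespace Pool.Agent.H355.OE

open Pool.Agent.R387.OV Pool.Agent.H355.TV
open Pool.Agent.Results.MP_1ebeae_al.SystemsFromSingleEquations (many_one SatSys SatEq primrec_red
  ext_singleton)

/-- the word `(t a t⁻¹) a (t a t⁻¹)⁻¹ a⁻²` -/
def rel {F : Type} [Group F] (a t : F) : F := (t * a * t⁻¹) * a * (t * a * t⁻¹)⁻¹ * (a * a)⁻¹

/-- the relator of the Baumslag–Gersten group -/
def bg : FreeGroup (Fin 2) := rel (FreeGroup.of 0) (FreeGroup.of 1)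

theorem map_rel {F H : Type} [Group F] [Group H] (f : F →* H) (a t : F) :
    f (rel a t) = rel (f a) (f t) := by
  simp only [rel, map_mul, map_inv]

theorem rel_GG : rel (tr 1) tt = 1 := by
  have h := tt_conj 1
  rw [Int.cast_one] at h
  rw [rel, h, sc_conj, tr_mul, tr_inv, tr_mul, zpow_one]
  norm_num
  exact tr_zero

theorem exists_hom : ∃ f : PresentedGroup ({bg} : Set (FreeGroup (Fin 2))) →* GG,
    f (PresentedGroup.of 0) = tr 1 ∧ f (PresentedGroup.of 1) = tt := by
  have h : ∀ r ∈ ({bg} : Set (FreeGroup (Fin 2))), FreeGroup.lift ![tr 1, tt] r = 1 := by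
    intro r hr
    rw [Set.mem_singleton_iff] at hr
    rw [hr, bg, map_rel, FreeGroup.lift_apply_of, FreeGroup.lift_apply_of]
    exact rel_GG
  refine ⟨PresentedGroup.toGroup h, ?_, ?_⟩
  · rw [PresentedGroup.toGroup.of]
    rfl
  · rw [PresentedGroup.toGroup.of]
    rfl

theorem val_map {G H : Type} [Group G] [Group H] (φ : G →* H) (f : Fin 2 ⊕ Fin 1 → G) (n : ℕ)
    (u : GE) : φ (GE.val f n u) = GE.val (fun i => φ (f i)) n u := by
  induction u with
  | gen i => rfl
  | par => simp only [GE.val, map_pow]
  | mul u v hu hv => simp only [GE.val, map_mul, hu, hv]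
  | inv u hu => simp only [GE.val, map_inv, hu]

/-- the group system is solvable if and only if the terms have a solution -/
theorem sat_sys_iff (L : List Tm) (hL : Tm.k ∈ L) (n : ℕ) :
    SatSys ({bg} : Set (FreeGroup (Fin 2))) ((GE.sys L).map (GE.word n)) ↔
      ∃ e : Env, e.n = n ∧ ∀ S ∈ L, Good e S := by
  constructor
  · rintro ⟨g, hg⟩
    obtain ⟨φ, h0, h1⟩ := exists_hom
    apply sound n (φ (g 0)) L
    intro u hu
    have h2 := hg _ (List.mem_map_of_mem hu)
    rw [value, GE.lift_word] at h2
    have h3 := congrArg φ h2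
    rw [val_map, map_one] at h3
    rw [← h3]
    congr 1
    funext i
    rcases i with i | i
    · fin_cases i
      · exact h0.symm
      · exact h1.symm
    · have hi : i = 0 := Subsingleton.elim _ _
      subst hi
      rfl
  · rintro ⟨e, he, h⟩
    have hk : 0 ≤ e.k := (h _ hL).2
    have hab : rel (PresentedGroup.of 0 : PresentedGroup ({bg} : Set (FreeGroup (Fin 2))))
        (PresentedGroup.of 1) = 1 := by
      have h1 : PresentedGroup.mk ({bg} : Set (FreeGroup (Fin 2))) bg = 1 :=
        PresentedGroup.one_of_mem rfl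
      rw [bg, map_rel] at h1
      exact h1
    rw [rel, mul_inv_eq_one] at hab
    have h1 := complete hab e hk L h
    refine ⟨fun _ => PresentedGroup.of 0 ^ e.J *
      (PresentedGroup.of 1 * PresentedGroup.of 0 * (PresentedGroup.of 1)⁻¹) ^ e.k, fun w hw => ?_⟩
    obtain ⟨u, hu, rfl⟩ := List.mem_map.1 hw
    have h2 := h1 u hu
    rw [value, GE.lift_word, ← he, ← h2]
    congr 1
    funext i
    rcases i with i | i
    · fin_cases i
      · rfl
      · rfl
    · have hi : i = 0 := Subsingleton.elim _ _
      subst hi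
      rfl

theorem primrec_sys (L : List GE) : Primrec (fun n : ℕ => L.map (GE.word n)) := by
  induction L with
  | nil => exact Primrec.const _
  | cons u L ih =>
    simp only [List.map_cons]
    exact Primrec.list_cons.comp (GE.primrec_word u) ih

/-- membership in a recursively enumerable set reduces to systems in one unknown -/
theorem re_sys {S : ℕ → Prop} (hS : REPred S) : ∃ f : ℕ → List (Wd 2 1), Primrec f ∧
    ∀ n, S n ↔ SatSys ({bg} : Set (FreeGroup (Fin 2))) (f n) := by
  obtain ⟨St, Reg, Br, i1, i2, i3, i4, i5, i6, M, q0, q1, j0, j1, _, hu, hp, hc⟩ := exists_mch hS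
  obtain ⟨T, hT, hiff⟩ := sys_core M q0 q1 j0 j1 hu hp
  refine ⟨fun n => (GE.sys T).map (GE.word n), primrec_sys _, fun n => ?_⟩
  rw [hc n, hiff n, sat_sys_iff T hT n]

/-- membership in a recursively enumerable set reduces to single equations in one unknown -/
theorem re_eq {S : ℕ → Prop} (hS : REPred S) : ∃ f : ℕ → Wd 3 1, Primrec f ∧
    ∀ n, S n ↔ SatEq ({FreeGroup.map Fin.castSucc bg} : Set (FreeGroup (Fin 3))) (f n) := by
  obtain ⟨f, hf, h⟩ := re_sys hS
  refine ⟨fun n => red (f n), primrec_red.comp hf, fun n => ?_⟩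
  have h1 := (Pool.Agent.Results.MP_1ebeae_al.SystemsFromSingleEquations.result.1 2 1 {bg} (f n)).1
  rw [h n, h1, ext_singleton]

/-- a set which is recursively enumerable but not computable -/
theorem exists_re : ∃ S : ℕ → Prop, REPred S ∧ ¬ ComputablePred S := by
  refine ⟨fun n => (Nat.Partrec.Code.eval (Denumerable.ofNat Nat.Partrec.Code n) 0).Dom,
    (ComputablePred.halting_problem_re 0).comp (Computable.ofNat _), fun h => ?_⟩
  apply ComputablePred.halting_problem 0
  refine ComputablePred.computable_of_manyOneReducible ⟨Encodable.encode, Computable.encode,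
    fun c => ?_⟩ h
  simp only [Denumerable.ofNat_encode]

end Pool.Agent.H355.OE
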